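import Pool.Agent.W2helper75.FD.Res
import Pool.Agent.H592F.OrientProb

/-! Piece BLK, part 1: measurability, independence, translations. -/

set_option autoImplicit false

open MeasureTheory ProbabilityTheory Filter Topology
open scoped ENNReal NNReal

namespace Pool.Agent.W2helper75.FD

open Pool.Agent.H592F (P2 FinIndep Bof bad safe near Wet dep badCyl bad_eq)

section Meas

variable {V S : Type} [Countable V] [Fintype S] [MeasurableSpace S] [DiscreteMeasurableSpace S]

theorem meas_pth (mv : V → S → V) (x : V) (k : ℕ) (y : V) :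
    MeasurableSet {q : ℕ → S | pth mv x q k = y} := by
  induction k generalizing y with
  | zero => simp only [pth]; exact MeasurableSet.const _
  | succ k ih =>
    have e : {q : ℕ → S | pth mv x q (k + 1) = y}
        = ⋃ z : V, ({q : ℕ → S | pth mv x q k = z} ∩ {q : ℕ → S | q k ∈ {s | mv z s = y}}) := by
      ext q
      simp only [pth, Set.mem_ofPred_eq, Set.mem_iUnion, Set.mem_inter_iff]
      constructor
      · intro h; exact ⟨_, rfl, h⟩
      · rintro ⟨z, h1, h2⟩; rw [h1]; exact h2
    rw [e]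
    refine MeasurableSet.iUnion fun z => (ih z).inter ?_
    exact measurable_pi_apply k (MeasurableSet.of_discrete)

theorem meas_hits (mv : V → S → V) (t : ℝ) (x y : V) :
    MeasurableSet {p : Par S | Hits mv t x p y} := by
  have e : {p : Par S | Hits mv t x p y} = ⋃ k : ℕ,
      ({p : Par S | ∑ j ∈ Finset.range k, p.1 j ≤ t} ∩
        (Prod.snd ⁻¹' {q : ℕ → S | pth mv x q k = y})) := by
    ext p
    simp only [Hits, Set.mem_ofPred_eq, Set.mem_iUnion, Set.mem_inter_iff, Set.mem_preimage]
  rw [e]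
  refine MeasurableSet.iUnion fun k => MeasurableSet.inter ?_ (measurable_snd (meas_pth mv x k y))
  refine measurableSet_le ?_ measurable_const
  refine Finset.measurable_sum _ fun j _ => ?_
  exact (measurable_pi_apply j).comp measurable_fst

end Meas

section Indep

/-- independence of blocks -/
theorem finIndep_blocks {X D : Type} [MeasurableSpace D] [Nonempty D] (μ : Measure D)
    [IsProbabilityMeasure μ] (ξ : P2 → (X → D) → Bool)
    (hm : ∀ v, Measurable (ξ v)) (U : P2 → Finset X)
    (hdep : ∀ v (ω ω' : X → D), (∀ x ∈ U v, ω x = ω' x) → ξ v ω = ξ v ω')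
    (hU : ∀ v v', v ≠ v' → Disjoint (U v) (U v')) :
    FinIndep (Measure.infinitePi fun _ : X => μ) ξ := by
  classical
  intro A T hST
  have hi : iIndepFun (fun (x : X) (ω : X → D) => ω x) (Measure.infinitePi fun _ : X => μ) :=
    iIndepFun_infinitePi (P := fun _ : X => μ) (X := fun _ a => a)
      (fun _ => measurable_id)
  have hdis : Disjoint (A.biUnion U) (T.biUnion U) := by
    rw [Finset.disjoint_left]
    intro x h1 h2
    rw [Finset.mem_biUnion] at h1 h2
    obtain ⟨v, hv, hxv⟩ := h1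
    obtain ⟨v', hv', hxv'⟩ := h2
    have hne : v ≠ v' := by
      rintro rfl
      exact (Finset.disjoint_left.mp hST) hv hv'
    exact (Finset.disjoint_left.mp (hU v v' hne)) hxv hxv'
  have h1 := hi.indepFun_finset (A.biUnion U) (T.biUnion U) hdis (fun x => measurable_pi_apply x)
  have ext : ∀ R : Finset P2, ∃ F : ({y // y ∈ R.biUnion U} → D) → (R → Bool),
      Measurable F ∧ (fun (ω : X → D) (x : R) => ξ x ω)
        = F ∘ (fun (ω : X → D) (y : {y // y ∈ R.biUnion U}) => ω y) := by
    intro R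
    set E : ({y // y ∈ R.biUnion U} → D) → (X → D) := fun f x =>
      if h : x ∈ R.biUnion U then f ⟨x, h⟩ else Classical.arbitrary D with hE
    refine ⟨fun f x => ξ x (E f), ?_, ?_⟩
    · refine measurable_pi_iff.mpr fun x => (hm x).comp ?_
      refine measurable_pi_iff.mpr fun y => ?_
      by_cases hy : y ∈ R.biUnion U
      · have : (fun f : {y // y ∈ R.biUnion U} → D => E f y)
            = fun f => f ⟨y, hy⟩ := by
          funext f; rw [hE]; simp only [dif_pos hy]
        rw [this]
        exact measurable_pi_apply _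
      · have : (fun f : {y // y ∈ R.biUnion U} → D => E f y)
            = fun _ => Classical.arbitrary D := by
          funext f; rw [hE]; simp only [dif_neg hy]
        rw [this]
        exact measurable_const
    · funext ω x
      simp only [Function.comp_apply]
      refine hdep x _ _ fun y hy => ?_
      have hy' : y ∈ R.biUnion U := Finset.mem_biUnion.mpr ⟨x, x.2, hy⟩
      rw [hE]
      simp only [dif_pos hy']
  obtain ⟨F, hF, hFe⟩ := ext A
  obtain ⟨G, hG, hGe⟩ := ext T
  rw [hFe, hGe]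
  exact h1.comp hF hG

end Indep

section Shift

variable {J S : Type} (n : J → S → J) (c : J → S → ℤ × ℤ)

theorem pth_shift (a : ℤ × ℤ) (x : (ℤ × ℤ) × J) (q : ℕ → S) (k : ℕ) :
    pth (mvp n c) (x.1 + a, x.2) q k
      = ((pth (mvp n c) x q k).1 + a, (pth (mvp n c) x q k).2) := by
  induction k with
  | zero => rfl
  | succ k ih =>
    simp only [pth, ih, mvp]
    refine Prod.ext ?_ rfl
    simp only
    abel

theorem hits_shift (a : ℤ × ℤ) (x y : (ℤ × ℤ) × J) (t : ℝ) (p : Par S) :
    Hits (mvp n c) t (x.1 + a, x.2) p (y.1 + a, y.2) ↔ Hits (mvp n c) t x p y := by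
  unfold Hits
  refine exists_congr fun k => and_congr_right fun _ => ?_
  rw [pth_shift]
  constructor
  · intro h
    have h1 := congrArg Prod.fst h
    have h2 := congrArg Prod.snd h
    simp only at h1 h2
    exact Prod.ext (add_right_cancel h1) h2
  · intro h
    rw [h]

end Shift

section Blocks

variable {J : Type} [Fintype J]

/-- the block with index `a` -/
noncomputable def blk (J : Type) [Fintype J] (N : ℕ) (a : P2) : Finset ((ℤ × ℤ) × J) :=
  ((Finset.Ico ((N : ℤ) * a.1) ((N : ℤ) * a.1 + N)) ×ˢ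
    (Finset.Ico ((N : ℤ) * a.2) ((N : ℤ) * a.2 + N))) ×ˢ Finset.univ

theorem mem_blk {N : ℕ} {a : P2} {x : (ℤ × ℤ) × J} : x ∈ blk J N a ↔
    ((N : ℤ) * a.1 ≤ x.1.1 ∧ x.1.1 < (N : ℤ) * a.1 + N) ∧
    ((N : ℤ) * a.2 ≤ x.1.2 ∧ x.1.2 < (N : ℤ) * a.2 + N) := by
  unfold blk
  simp only [Finset.mem_product, Finset.mem_Ico, Finset.mem_univ, and_true]

theorem idx_unique {N : ℕ} {a b x : ℤ} (h1 : (N : ℤ) * a ≤ x) (h2 : x < (N : ℤ) * a + N)
    (h3 : (N : ℤ) * b ≤ x) (h4 : x < (N : ℤ) * b + N) : a = b := by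
  by_contra hne
  rcases lt_or_gt_of_ne hne with h | h
  · have h5 : (N : ℤ) * (a + 1) ≤ N * b := mul_le_mul_of_nonneg_left (by omega) (by positivity)
    linarith
  · have h5 : (N : ℤ) * (b + 1) ≤ N * a := mul_le_mul_of_nonneg_left (by omega) (by positivity)
    linarith

theorem blk_disjoint (N : ℕ) (a b : P2) (h : a ≠ b) : Disjoint (blk J N a) (blk J N b) := by
  rw [Finset.disjoint_left]
  intro x h1 h2
  rw [mem_blk] at h1 h2
  apply h
  exact Prod.ext (idx_unique h1.1.1 h1.1.2 h2.1.1 h2.1.2)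
    (idx_unique h1.2.1 h1.2.2 h2.2.1 h2.2.2)

theorem le_card_blk [Nonempty J] (N : ℕ) (hN : 1 ≤ N) (a : P2) : N ≤ (blk J N a).card := by
  unfold blk
  rw [Finset.card_product, Finset.card_product, Int.card_Ico, Int.card_Ico]
  have e1 : ((N : ℤ) * a.1 + N - (N : ℤ) * a.1).toNat = N := by
    rw [add_sub_cancel_left]; exact Int.toNat_natCast N
  have e2 : ((N : ℤ) * a.2 + N - (N : ℤ) * a.2).toNat = N := by
    rw [add_sub_cancel_left]; exact Int.toNat_natCast N
  rw [e1, e2, Finset.card_univ]
  have : 1 ≤ Fintype.card J := Fintype.card_pos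
  calc N = N * 1 * 1 := by ring
    _ ≤ N * N * Fintype.card J := by gcongr

/-- the translation vector of a block -/
def tv (N : ℕ) (a : P2) : ℤ × ℤ := ((N : ℤ) * a.1, (N : ℤ) * a.2)

theorem mem_blk_iff (N : ℕ) (a b : P2) (x : (ℤ × ℤ) × J) :
    x ∈ blk J N (a + b) ↔ (x.1 - tv N a, x.2) ∈ blk J N b := by
  rw [mem_blk, mem_blk]
  unfold tv
  simp only [Prod.fst_add, Prod.snd_add, Prod.fst_sub, Prod.snd_sub]
  constructor
  · rintro ⟨⟨h1, h2⟩, h3, h4⟩
    refine ⟨⟨by nlinarith, by nlinarith⟩, by nlinarith, by nlinarith⟩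
  · rintro ⟨⟨h1, h2⟩, h3, h4⟩
    refine ⟨⟨by nlinarith, by nlinarith⟩, by nlinarith, by nlinarith⟩

end Blocks

end Pool.Agent.W2helper75.FD
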