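import Pool.Agent.W2helper75.FD.Blk1

/-! Piece BLK, part 2: the block argument. -/

set_option autoImplicit false

open MeasureTheory ProbabilityTheory Filter Topology
open scoped ENNReal NNReal

namespace Pool.Agent.W2helper75.FD

open Pool.Agent.H592F (P2 FinIndep Bof bad safe near Wet dep badCyl bad_eq)

section Bad

variable {J S : Type} [Fintype J] [Nonempty J] [Fintype S] [Nonempty S]
  [MeasurableSpace S] [DiscreteMeasurableSpace S] (n : J → S → J) (c : J → S → ℤ × ℤ)

open Classical in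
/-- the two successors of a block -/
noncomputable def nxt (J : Type) [Fintype J] (N : ℕ) (a : P2) : Finset ((ℤ × ℤ) × J) :=
  blk J N (a.1 + 1, a.2) ∪ blk J N (a.1, a.2 + 1)

theorem mem_nxt {N : ℕ} {a : P2} {x : (ℤ × ℤ) × J} :
    x ∈ nxt J N a ↔ x ∈ blk J N (a.1 + 1, a.2) ∨ x ∈ blk J N (a.1, a.2 + 1) := by
  classical
  unfold nxt
  simp only [Finset.mem_union]

/-- bad blocks -/
def Bad (N : ℕ) (t : ℝ) (a : P2) (ω : (ℤ × ℤ) × J → Dat S) : Prop :=
  (∀ x ∈ blk J N a, (ω x).1 = 0) ∨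
    ∃ x ∈ blk J N a, ∃ y ∈ nxt J N a, ¬ Hits (mvp n c) t x ((ω x).2 0) y

theorem law_zero (lam : ℝ≥0) (A : Finset ((ℤ × ℤ) × J)) :
    law ((ℤ × ℤ) × J) S lam {ω | ∀ x ∈ A, (ω x).1 = 0}
      = ENNReal.ofReal (Real.exp (-lam)) ^ A.card := by
  have e : {ω : (ℤ × ℤ) × J → Dat S | ∀ x ∈ A, (ω x).1 = 0}
      = Set.pi (A : Set ((ℤ × ℤ) × J)) (fun _ => {d : Dat S | d.1 = 0}) := by
    ext ω
    simp only [Set.mem_ofPred_eq, Set.mem_pi, Finset.mem_coe]
  have hm : MeasurableSet {d : Dat S | d.1 = 0} := measurable_fst (measurableSet_singleton 0)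
  rw [e]
  unfold law
  rw [Measure.infinitePi_pi _ fun _ _ => hm, Finset.prod_const]
  congr 1
  have e2 : {d : Dat S | d.1 = 0} = ({0} : Set ℕ) ×ˢ (Set.univ : Set (ℕ → Par S)) := by
    ext d; simp
  unfold dlaw
  rw [e2, Measure.prod_prod, measure_univ, mul_one, poissonMeasure_singleton]
  simp

theorem law_par (lam : ℝ≥0) (x : (ℤ × ℤ) × J) (A : Set (Par S)) (hA : MeasurableSet A) :
    law ((ℤ × ℤ) × J) S lam {ω | (ω x).2 0 ∈ A} = plaw S A := by
  have hA2 : MeasurableSet {q : ℕ → Par S | q 0 ∈ A} := measurable_pi_apply 0 hA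
  have hA3 : MeasurableSet {d : Dat S | d.2 0 ∈ A} := measurable_snd hA2
  have e1 : law ((ℤ × ℤ) × J) S lam {ω | (ω x).2 0 ∈ A} = dlaw S lam {d | d.2 0 ∈ A} := by
    unfold law
    exact (measurePreserving_eval_infinitePi
      (fun _ : (ℤ × ℤ) × J => dlaw S lam) x).measure_preimage hA3.nullMeasurableSet
  have e2 : {d : Dat S | d.2 0 ∈ A} = (Set.univ : Set ℕ) ×ˢ {q : ℕ → Par S | q 0 ∈ A} := by
    ext d; simp
  rw [e1, e2]
  unfold dlaw
  rw [Measure.prod_prod, measure_univ, one_mul]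
  exact (measurePreserving_eval_infinitePi
    (fun _ : ℕ => plaw S) 0).measure_preimage hA.nullMeasurableSet

theorem bad_subset (N : ℕ) (t : ℝ) (a : P2) :
    {ω | Bad n c N t a ω} ⊆ {ω : (ℤ × ℤ) × J → Dat S | ∀ x ∈ blk J N a, (ω x).1 = 0} ∪
      ⋃ x ∈ blk J N (0, 0), ⋃ y ∈ nxt J N (0, 0),
        {ω | (ω (x.1 + tv N a, x.2)).2 0 ∈ {p | ¬ Hits (mvp n c) t x p y}} := by
  rintro ω (h | ⟨x, hx, y, hy, h⟩)
  · exact Or.inl h
  · right
    rw [Set.mem_iUnion₂]
    have ha : a = a + (0, 0) := by rw [← Prod.zero_eq_mk, add_zero]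
    refine ⟨(x.1 - tv N a, x.2), (mem_blk_iff N a (0, 0) x).1 (ha ▸ hx), ?_⟩
    rw [Set.mem_iUnion₂]
    refine ⟨(y.1 - tv N a, y.2), ?_, ?_⟩
    · rw [mem_nxt] at hy ⊢
      rcases hy with hy | hy
      · left
        refine (mem_blk_iff N a (0 + 1, 0) y).1 ?_
        have : a + (0 + 1, 0) = (a.1 + 1, a.2) := by ext <;> simp
        rw [this]; exact hy
      · right
        refine (mem_blk_iff N a (0, 0 + 1) y).1 ?_
        have : a + (0, 0 + 1) = (a.1, a.2 + 1) := by ext <;> simp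
        rw [this]; exact hy
    · simp only [Set.mem_ofPred_eq, sub_add_cancel]
      intro h2
      apply h
      have h3 := (hits_shift n c (tv N a) (x.1 - tv N a, x.2) (y.1 - tv N a, y.2) t
        ((ω x).2 0)).2 h2
      simpa using h3

theorem bad_prob (lam : ℝ≥0) (N : ℕ) (hN : 1 ≤ N) (t : ℝ) (a : P2) (η : ℝ≥0∞)
    (h : ∀ x ∈ blk J N (0, 0), ∀ y ∈ nxt J N (0, 0),
      plaw S {p | ¬ Hits (mvp n c) t x p y} ≤ η) :
    law ((ℤ × ℤ) × J) S lam {ω | Bad n c N t a ω} ≤
      ENNReal.ofReal (Real.exp (-lam)) ^ N +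
        (blk J N (0, 0)).card * ((nxt J N (0, 0)).card * η) := by
  refine (measure_mono (bad_subset n c N t a)).trans ((measure_union_le _ _).trans ?_)
  refine add_le_add ?_ ?_
  · rw [law_zero]
    refine pow_le_pow_right_of_le_one' ?_ (le_card_blk N hN a)
    rw [ENNReal.ofReal_le_one, Real.exp_le_one_iff]
    simp
  · refine (measure_biUnion_finset_le _ _).trans ?_
    have h1 : ∀ x ∈ blk J N (0, 0), law ((ℤ × ℤ) × J) S lam (⋃ y ∈ nxt J N (0, 0),
        {ω | (ω (x.1 + tv N a, x.2)).2 0 ∈ {p | ¬ Hits (mvp n c) t x p y}})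
          ≤ (nxt J N (0, 0)).card * η := by
      intro x hx
      refine (measure_biUnion_finset_le _ _).trans ?_
      calc _ ≤ ∑ y ∈ nxt J N (0, 0), η := by
            refine Finset.sum_le_sum fun y hy => ?_
            have hm : MeasurableSet {p : Par S | ¬ Hits (mvp n c) t x p y} :=
              (meas_hits (mvp n c) t x y).compl
            rw [law_par _ _ _ hm]
            exact h x hx y hy
        _ = _ := by rw [Finset.sum_const, nsmul_eq_mul]
    calc _ ≤ ∑ x ∈ blk J N (0, 0), (nxt J N (0, 0)).card * η := Finset.sum_le_sum h1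
      _ = _ := by rw [Finset.sum_const, nsmul_eq_mul]

theorem meas_Bad (N : ℕ) (t : ℝ) (a : P2) :
    MeasurableSet {ω : (ℤ × ℤ) × J → Dat S | Bad n c N t a ω} := by
  have e : {ω : (ℤ × ℤ) × J → Dat S | Bad n c N t a ω}
      = (⋂ x ∈ blk J N a, {ω | (ω x).1 = 0}) ∪ ⋃ x ∈ blk J N a, ⋃ y ∈ nxt J N a,
        {ω | (ω x).2 0 ∈ {p | ¬ Hits (mvp n c) t x p y}} := by
    ext ω
    simp only [Bad, Set.mem_ofPred_eq, Set.mem_union, Set.mem_iInter, Set.mem_iUnion,
      exists_prop]
  rw [e]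
  refine MeasurableSet.union ?_ ?_
  · refine Finset.measurableSet_biInter _ fun x _ => ?_
    have h1 : MeasurableSet {d : Dat S | d.1 = 0} := measurable_fst (measurableSet_singleton 0)
    have h3 : Measurable (fun ω : (ℤ × ℤ) × J → Dat S => ω x) := measurable_pi_apply x
    exact h3 h1
  · refine Finset.measurableSet_biUnion _ fun x _ => Finset.measurableSet_biUnion _ fun y _ => ?_
    have h1 : MeasurableSet {q : ℕ → Par S | q 0 ∈ {p | ¬ Hits (mvp n c) t x p y}} :=
      measurable_pi_apply 0 (meas_hits (mvp n c) t x y).compl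
    have h2 : MeasurableSet {d : Dat S | d.2 0 ∈ {p | ¬ Hits (mvp n c) t x p y}} :=
      measurable_snd h1
    have h3 : Measurable (fun ω : (ℤ × ℤ) × J → Dat S => ω x) := measurable_pi_apply x
    exact h3 h2

open Classical in
/-- the field of bad blocks, without the block of the root -/
noncomputable def xi (N : ℕ) (t : ℝ) (a : P2) (ω : (ℤ × ℤ) × J → Dat S) : Bool :=
  decide (a ≠ (-1, 0) ∧ Bad n c N t (a.1 + 1, a.2) ω)

theorem xi_true (N : ℕ) (t : ℝ) (a : P2) (ω : (ℤ × ℤ) × J → Dat S) :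
    xi n c N t a ω = true ↔ a ≠ (-1, 0) ∧ Bad n c N t (a.1 + 1, a.2) ω := by
  classical
  unfold xi
  simp only [decide_eq_true_eq]

theorem meas_xi (N : ℕ) (t : ℝ) (a : P2) :
    Measurable (fun ω : (ℤ × ℤ) × J → Dat S => xi n c N t a ω) := by
  classical
  refine measurable_to_bool ?_
  have e : (fun ω : (ℤ × ℤ) × J → Dat S => xi n c N t a ω) ⁻¹' {true}
      = {ω | a ≠ (-1, 0)} ∩ {ω | Bad n c N t (a.1 + 1, a.2) ω} := by
    ext ω
    simp only [Set.mem_preimage, Set.mem_singleton_iff, Set.mem_inter_iff, Set.mem_ofPred_eq]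
    exact xi_true n c N t a ω
  rw [e]
  exact (MeasurableSet.const _).inter (meas_Bad n c N t _)

theorem Bad_congr (N : ℕ) (t : ℝ) (a : P2) (ω ω' : (ℤ × ℤ) × J → Dat S)
    (h : ∀ x ∈ blk J N a, ω x = ω' x) : Bad n c N t a ω ↔ Bad n c N t a ω' := by
  unfold Bad
  refine or_congr (forall₂_congr fun x hx => by rw [h x hx]) ?_
  refine exists_congr fun x => and_congr_right fun hx => ?_
  rw [h x hx]

/-- the blocks on which `xi` depends -/
noncomputable def Ub (J : Type) [Fintype J] (N : ℕ) (a : P2) : Finset ((ℤ × ℤ) × J) :=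
  if a = (-1, 0) then ∅ else blk J N (a.1 + 1, a.2)

theorem xi_dep (N : ℕ) (t : ℝ) (a : P2) (ω ω' : (ℤ × ℤ) × J → Dat S)
    (h : ∀ x ∈ Ub J N a, ω x = ω' x) : xi n c N t a ω = xi n c N t a ω' := by
  classical
  unfold xi
  by_cases ha : a = (-1, 0)
  · simp [ha]
  · congr 1
    unfold Ub at h
    rw [if_neg ha] at h
    rw [eq_iff_iff]
    exact and_congr_right fun _ => Bad_congr n c N t _ ω ω' h

theorem Ub_disjoint (N : ℕ) (a b : P2) (h : a ≠ b) : Disjoint (Ub J N a) (Ub J N b) := by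
  unfold Ub
  split_ifs
  · exact Finset.disjoint_empty_left _
  · exact Finset.disjoint_empty_left _
  · exact Finset.disjoint_empty_right _
  · apply blk_disjoint
    intro h2
    apply h
    have h3 := congrArg Prod.fst h2
    have h4 := congrArg Prod.snd h2
    simp only at h3 h4
    exact Prod.ext (by linarith) h4

theorem xi_indep (lam : ℝ≥0) (N : ℕ) (t : ℝ) :
    FinIndep (law ((ℤ × ℤ) × J) S lam) (fun a ω => xi n c N t a ω) := by
  unfold law
  exact finIndep_blocks (dlaw S lam) (fun a ω => xi n c N t a ω) (meas_xi n c N t) (Ub J N)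
    (xi_dep n c N t) (Ub_disjoint N)

theorem wet_visited (N : ℕ) (t : ℝ) (o : (ℤ × ℤ) × J)
    (ω : (ℤ × ℤ) × J → Dat S) (h1 : 0 < (ω o).1)
    (h2 : ∀ y ∈ blk J N (1, 0), Hits (mvp n c) t o ((ω o).2 0) y) (v : P2)
    (hv : Wet (Bof (fun a ω => xi n c N t a ω) ω) v) :
    0 ≤ v.1 ∧ 0 ≤ v.2 ∧ ∀ x ∈ blk J N (v.1 + 1, v.2), Visited (mvp n c) t o ω x := by
  classical
  have key : ∀ v : P2, 0 ≤ v.1 → (∀ x ∈ blk J N (v.1 + 1, v.2), Visited (mvp n c) t o ω x) →
      ¬ Bof (fun a ω => xi n c N t a ω) ω v → ∀ y ∈ nxt J N (v.1 + 1, v.2),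
      Visited (mvp n c) t o ω y := by
    intro v hv0 hvis hb y hy
    unfold Bof at hb
    rw [xi_true] at hb
    have hne : v ≠ (-1, 0) := by
      rintro rfl
      norm_num at hv0
    have hgood : ¬ Bad n c N t (v.1 + 1, v.2) ω := fun h => hb ⟨hne, h⟩
    unfold Bad at hgood
    push Not at hgood
    obtain ⟨⟨x, hx, hx0⟩, hall⟩ := hgood
    exact Visited.step x y (hvis x hx) ⟨0, Nat.pos_of_ne_zero hx0, hall x hx y hy⟩
  induction hv with
  | zero =>
    refine ⟨le_refl _, le_refl _, fun x hx => ?_⟩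
    exact Visited.step o x Visited.root ⟨0, h1, h2 x (by simpa using hx)⟩
  | @right v _ hb ih =>
    obtain ⟨i1, i2, i3⟩ := ih
    refine ⟨by simp only; omega, i2, fun x hx => ?_⟩
    exact key v i1 i3 hb x (mem_nxt.2 (Or.inl hx))
  | @up v _ hb ih =>
    obtain ⟨i1, i2, i3⟩ := ih
    refine ⟨i1, by simp only; omega, fun x hx => ?_⟩
    exact key v i1 i3 hb x (mem_nxt.2 (Or.inr hx))

theorem surv_of_perc (N : ℕ) (hN : 1 ≤ N) (t : ℝ) (o : (ℤ × ℤ) × J)
    (ω : (ℤ × ℤ) × J → Dat S) (h1 : 0 < (ω o).1)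
    (h2 : ∀ y ∈ blk J N (1, 0), Hits (mvp n c) t o ((ω o).2 0) y)
    (h3 : ∀ k, safe (bad (Bof (fun a ω => xi n c N t a ω) ω) k) (0, 0)) :
    ω ∈ Surv (mvp n c) t o := by
  unfold Surv
  simp only [Set.mem_ofPred_eq]
  intro hfin
  have hb := (hfin.image (fun x : (ℤ × ℤ) × J => x.1.1 + x.1.2)).bddAbove
  obtain ⟨C, hC⟩ := hb
  obtain ⟨v, hv, hsum⟩ := Pool.Agent.H592F.perc_det _ h3 (C.toNat + 1)
  obtain ⟨i1, i2, i3⟩ := wet_visited n c N t o ω h1 h2 v hv
  have hN' : (1 : ℤ) ≤ N := by exact_mod_cast hN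
  have hmem : (((N : ℤ) * (v.1 + 1), (N : ℤ) * v.2), Classical.arbitrary J)
      ∈ blk J N (v.1 + 1, v.2) := by
    rw [mem_blk]
    simp only
    refine ⟨⟨le_refl _, by linarith⟩, le_refl _, by linarith⟩
  have h4 := hC ⟨_, i3 _ hmem, rfl⟩
  simp only at h4
  have h5 : v.1 + 1 + v.2 ≤ (N : ℤ) * (v.1 + 1) + N * v.2 := by nlinarith
  have h6 : (C.toNat : ℤ) + 1 ≤ v.1 + v.2 := by exact_mod_cast hsum
  have h7 : C ≤ C.toNat := Int.self_le_toNat C
  linarith

end Bad

theorem blk_piece : P_BLK := by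
  intro J S _ _ _ _ _ _ n c hw lam hlam j
  classical
  set X := (ℤ × ℤ) × J with hX
  -- block size
  have hexp : Real.exp (-(lam : ℝ)) < 1 := by
    rw [Real.exp_lt_one_iff]
    have : (0 : ℝ) < lam := hlam
    linarith
  set δ : ℝ≥0∞ := ENNReal.ofReal (1 / 884101250) with hδ
  have hδ0 : 0 < δ := by rw [hδ, ENNReal.ofReal_pos]; norm_num
  have hδ2 : δ / 2 ≠ 0 := (ENNReal.half_pos hδ0.ne').ne'
  have hlt1 : ENNReal.ofReal (Real.exp (-(lam : ℝ))) < 1 := by
    rw [ENNReal.ofReal_lt_one]; exact hexp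
  have hN : ∃ N : ℕ, 1 ≤ N ∧ ENNReal.ofReal (Real.exp (-(lam : ℝ))) ^ N ≤ δ / 2 := by
    have h1 := ENNReal.tendsto_pow_atTop_nhds_zero_of_lt_one hlt1
    have h2 := h1.eventually (ge_mem_nhds (pos_iff_ne_zero.2 hδ2))
    obtain ⟨N, h3, h4⟩ := (h2.and (eventually_ge_atTop 1)).exists
    exact ⟨N, h4, h3⟩
  obtain ⟨N, hN1, hNδ⟩ := hN
  -- hitting level
  set K : ℕ := (blk J N (0, 0)).card * (nxt J N (0, 0)).card + (blk J N (1, 0)).card + 1 with hK
  set η : ℝ≥0∞ := δ / 2 / K with hη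
  have hK0 : (K : ℝ≥0∞) ≠ 0 := by rw [hK]; simp
  have hKt : (K : ℝ≥0∞) ≠ ⊤ := ENNReal.natCast_ne_top K
  have hη0 : 0 < η := ENNReal.div_pos hδ2 hKt
  have hηK : (K : ℝ≥0∞) * η = δ / 2 := by rw [hη]; exact ENNReal.mul_div_cancel hK0 hKt
  choose T0 hT0 using fun (x y : X) => hw x y η hη0
  set A : Finset X := insert ((0, 0), j) (blk J N (0, 0)) with hA
  set B : Finset X := nxt J N (0, 0) ∪ blk J N (1, 0) with hB
  obtain ⟨T, hT⟩ : ∃ T : ℝ, ∀ x ∈ A, ∀ y ∈ B, T0 x y ≤ T := by
    refine ⟨∑ x ∈ A, ∑ y ∈ B, |T0 x y|, fun x hx y hy => ?_⟩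
    calc T0 x y ≤ |T0 x y| := le_abs_self _
      _ ≤ ∑ y ∈ B, |T0 x y| := Finset.single_le_sum (f := fun y => |T0 x y|)
          (fun _ _ => abs_nonneg _) hy
      _ ≤ _ := Finset.single_le_sum (f := fun x => ∑ y ∈ B, |T0 x y|)
          (fun _ _ => Finset.sum_nonneg fun _ _ => abs_nonneg _) hx
  refine ⟨T, fun t ht => ?_⟩
  have hhit : ∀ x ∈ A, ∀ y ∈ B, plaw S {p | ¬ Hits (mvp n c) t x p y} ≤ η :=
    fun x hx y hy => hT0 x y t ((hT x hx y hy).trans ht)
  -- bad blocks are rare
  have hbad : ∀ a, law X S lam {ω | xi n c N t a ω = true} ≤ δ := by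
    intro a
    have h1 : {ω : X → Dat S | xi n c N t a ω = true} ⊆ {ω | Bad n c N t (a.1 + 1, a.2) ω} := by
      intro ω h
      rw [Set.mem_ofPred_eq, xi_true] at h
      exact h.2
    refine (measure_mono h1).trans ?_
    refine (bad_prob n c lam N hN1 t _ η fun x hx y hy => hhit x (Finset.mem_insert_of_mem hx) y
      (Finset.mem_union_left _ hy)).trans ?_
    calc _ ≤ δ / 2 + K * η := by
          refine add_le_add hNδ ?_
          rw [← mul_assoc]
          refine mul_le_mul_left ?_ η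
          rw [hK]
          push_cast
          rw [add_assoc]
          exact le_self_add
      _ = δ := by rw [hηK, ENNReal.add_halves]
  have hfail := Pool.Agent.H592F.fail_prob (law X S lam) (fun a ω => xi n c N t a ω)
    (xi_indep n c lam N t) hbad
  set F : Set (X → Dat S) :=
    {ω | ∃ k, ¬ safe (bad (Bof (fun a ω => xi n c N t a ω) ω) k) (0, 0)} with hF
  have hFm : MeasurableSet F := by
    have e : F = ⋃ k : ℕ, ⋃ u : P2, ({ω | near u (0, 0)} ∩
        {ω : X → Dat S | bad (Bof (fun a ω => xi n c N t a ω) ω) k u}) := by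
      ext ω
      rw [hF]
      simp only [Set.mem_ofPred_eq, Set.mem_iUnion, Set.mem_inter_iff]
      refine exists_congr fun k => ?_
      unfold safe
      push Not
      rfl
    rw [e]
    refine MeasurableSet.iUnion fun k => MeasurableSet.iUnion fun u =>
      (MeasurableSet.const _).inter ?_
    rw [bad_eq]
    have hmm : Measurable (fun (ω : X → Dat S) (x : dep k u) => xi n c N t (x : P2) ω) :=
      measurable_pi_iff.2 fun x => meas_xi n c N t (x : P2)
    exact hmm (Set.toFinite _).measurableSet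
  set o : X := ((0, 0), j) with ho
  set A1 : Set (Dat S) := {d | 0 < d.1 ∧ ∀ y ∈ blk J N (1, 0), Hits (mvp n c) t o (d.2 0) y}
    with hA1
  have hA1m : MeasurableSet A1 := by
    have e : A1 = {d | 0 < d.1} ∩ ⋂ y ∈ blk J N (1, 0),
        {d : Dat S | d.2 0 ∈ {p | Hits (mvp n c) t o p y}} := by
      ext d
      rw [hA1]
      simp only [Set.mem_ofPred_eq, Set.mem_inter_iff, Set.mem_iInter]
    rw [e]
    refine MeasurableSet.inter (measurable_fst (MeasurableSet.of_discrete)) ?_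
    refine Finset.measurableSet_biInter _ fun y _ => ?_
    have h1 : MeasurableSet {q : ℕ → Par S | q 0 ∈ {p | Hits (mvp n c) t o p y}} :=
      measurable_pi_apply 0 (meas_hits (mvp n c) t o y)
    exact measurable_snd h1
  -- the root starts with positive probability
  have hA1pos : 0 < dlaw S lam A1 := by
    have e : A1 = ({k : ℕ | 0 < k}) ×ˢ {q : ℕ → Par S | ∀ y ∈ blk J N (1, 0),
        Hits (mvp n c) t o (q 0) y} := by
      ext d
      rw [hA1]
      simp only [Set.mem_ofPred_eq, Set.mem_prod]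
    rw [e]
    unfold dlaw
    rw [Measure.prod_prod]
    refine ENNReal.mul_pos ?_ ?_
    · intro h0
      have h1 : poissonMeasure lam ({1} : Set ℕ) ≤ 0 := by
        rw [← h0]
        refine measure_mono ?_
        intro k hk
        rw [Set.mem_singleton_iff] at hk
        rw [hk]
        exact Nat.one_pos
      rw [poissonMeasure_singleton] at h1
      have h2 : (0 : ℝ) < lam := hlam
      have h3 : 0 < Real.exp (-(lam : ℝ)) * (lam : ℝ) ^ 1 / (Nat.factorial 1 : ℝ) := by positivity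
      exact absurd h1 (not_le.2 (ENNReal.ofReal_pos.2 h3))
    · intro h0
      have h1 : (Measure.infinitePi fun _ : ℕ => plaw S)
          {q : ℕ → Par S | ∀ y ∈ blk J N (1, 0), Hits (mvp n c) t o (q 0) y}ᶜ ≤ δ / 2 := by
        have hsub : {q : ℕ → Par S | ∀ y ∈ blk J N (1, 0), Hits (mvp n c) t o (q 0) y}ᶜ
            ⊆ ⋃ y ∈ blk J N (1, 0), {q | q 0 ∈ {p | ¬ Hits (mvp n c) t o p y}} := by
          intro q hq
          simp only [Set.mem_compl_iff, Set.mem_ofPred_eq] at hq
          push Not at hq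
          obtain ⟨y, hy, h2⟩ := hq
          rw [Set.mem_iUnion₂]
          exact ⟨y, hy, h2⟩
        refine (measure_mono hsub).trans ((measure_biUnion_finset_le _ _).trans ?_)
        calc _ ≤ ∑ y ∈ blk J N (1, 0), η := by
              refine Finset.sum_le_sum fun y hy => ?_
              have h2 := hhit o (Finset.mem_insert_self _ _) y (Finset.mem_union_right _ hy)
              refine le_trans (le_of_eq ?_) h2
              have hm : MeasurableSet {p : Par S | ¬ Hits (mvp n c) t o p y} :=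
                (meas_hits (mvp n c) t o y).compl
              exact (measurePreserving_eval_infinitePi
                (fun _ : ℕ => plaw S) 0).measure_preimage hm.nullMeasurableSet
          _ = (blk J N (1, 0)).card * η := by rw [Finset.sum_const, nsmul_eq_mul]
          _ ≤ K * η := by
              refine mul_le_mul_left ?_ η
              rw [hK]
              push_cast
              rw [add_assoc, add_comm]
              exact le_trans (le_trans le_self_add (le_refl _)) le_self_add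
          _ = δ / 2 := hηK
      have h2 : (1 : ℝ≥0∞) ≤ 0 + δ / 2 := by
        calc (1 : ℝ≥0∞) = (Measure.infinitePi fun _ : ℕ => plaw S) Set.univ := measure_univ.symm
          _ ≤ _ := by
            rw [← Set.union_compl_self {q : ℕ → Par S | ∀ y ∈ blk J N (1, 0),
              Hits (mvp n c) t o (q 0) y}]
            refine (measure_union_le _ _).trans (add_le_add (le_of_eq ?_) h1)
            exact h0
      rw [zero_add] at h2
      have h3 : δ / 2 < 1 := by
        refine lt_of_le_of_lt ENNReal.half_le_self ?_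
        rw [hδ, ENNReal.ofReal_lt_one]
        norm_num
      exact absurd h2 (not_le.2 h3)
  -- independence of the root
  have hGm : MeasurableSet ({ω : X → Dat S | ω o ∈ A1} ∩ Fᶜ) :=
    (measurable_pi_apply o hA1m).inter hFm.compl
  have hind : law X S lam ({ω : X → Dat S | ω o ∈ A1} ∩ Fᶜ)
      = dlaw S lam A1 * law X S lam Fᶜ := by
    have hres := res X (Dat S) (dlaw S lam) o
    conv_lhs => unfold law; rw [← hres]
    rw [Measure.map_apply (measurable_update_pair o) hGm]
    have e : (fun p : Dat S × (X → Dat S) => Function.update p.2 o p.1) ⁻¹'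
        ({ω : X → Dat S | ω o ∈ A1} ∩ Fᶜ) = A1 ×ˢ Fᶜ := by
      ext p
      simp only [Set.mem_preimage, Set.mem_inter_iff, Set.mem_ofPred_eq, Set.mem_compl_iff,
        Set.mem_prod, Function.update_self]
      refine and_congr_right fun _ => not_congr ?_
      rw [hF]
      simp only [Set.mem_ofPred_eq]
      have hB : Bof (fun a ω => xi n c N t a ω) (Function.update p.2 o p.1)
          = Bof (fun a ω => xi n c N t a ω) p.2 := by
        funext a
        unfold Bof
        show (xi n c N t a (Function.update p.2 o p.1) = true) = (xi n c N t a p.2 = true)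
        rw [xi_dep n c N t a (Function.update p.2 o p.1) p.2]
        intro x hx
        refine Function.update_of_ne ?_ _ _
        rintro rfl
        unfold Ub at hx
        split_ifs at hx with ha
        · simp at hx
        · rw [mem_blk] at hx
          apply ha
          obtain ⟨⟨q1, q2⟩, q3, q4⟩ := hx
          simp only [ho] at q1 q2 q3 q4
          have hNz : (1 : ℤ) ≤ N := by exact_mod_cast hN1
          have r1 : a.1 + 1 = 0 := idx_unique q1 q2 (by simp) (by simp; omega)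
          have r2 : a.2 = 0 := idx_unique q3 q4 (by simp) (by simp; omega)
          exact Prod.ext (by simp only; omega) r2
      rw [hB]
    rw [e, Measure.prod_prod]
    rfl
  have hFc : 0 < law X S lam Fᶜ := by
    rw [prob_compl_eq_one_sub hFm]
    rw [tsub_pos_iff_lt]
    refine lt_of_le_of_lt hfail ?_
    rw [ENNReal.ofReal_lt_one]
    norm_num
  refine lt_of_lt_of_le (ENNReal.mul_pos hA1pos.ne' hFc.ne') ?_
  rw [← hind]
  refine measure_mono ?_
  rintro ω ⟨h1, h2⟩
  rw [Set.mem_ofPred_eq, hA1] at h1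
  rw [Set.mem_compl_iff, hF] at h2
  simp only [Set.mem_ofPred_eq] at h1 h2
  push Not at h2
  have hgo : ω ∈ Surv (mvp n c) t o := surv_of_perc n c N hN1 t o ω h1.1 h1.2 h2
  exact hgo

end Pool.Agent.W2helper75.FD
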