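import Pool.Agent.W2helper75.FD.Stm4

/-!
# Project FD, part 4: Schreier graphs that are coarsely a quadrant

For instance the first Grigorchuk group: its action on pairs of boundary points.
-/

set_option autoImplicit false

open MeasureTheory ProbabilityTheory Filter Topology
open scoped ENNReal NNReal

namespace Pool.Agent.W2helper75.FD

/-- the moves graph is coarsely `ℤ²` near the quadrant -/
structure Quad {V S : Type} (mv : V → S → V) (p : V → ℤ × ℤ) (m D K : ℕ) : Prop where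
  fib : ∀ z, {x | p x = z}.Finite ∧ {x | p x = z}.ncard ≤ m
  surj : ∀ z : ℤ × ℤ, 0 ≤ z.1 → 0 ≤ z.2 → ∃ x, p x = z
  lip : ∀ x s, |(p (mv x s)).1 - (p x).1| ≤ D ∧ |(p (mv x s)).2 - (p x).2| ≤ D
  con : ∀ x y, |(p x).1 - (p y).1| ≤ 1 → |(p x).2 - (p y).2| ≤ 1 →
    ∃ l : List S, l.length ≤ K ∧ run mv x l = y

/-- PIECE RECU: quantitative REC, same proof as `Pool.Agent.W2helper98.FD.Rec`. With `v_n = hit mx y n`,
`e_n = 1 - P v_n y` (decreasing in `n`), `e_n - ∑ f (v_{n+1} - v_n) ≤ √(ℰ(f,f) ℰ(v_n,v_n))/(2|S|) ≤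
√(ε/(2|S|))`. Average over `n < N`: `e_N ≤ B/N + √(ε/(2|S|))`. If `x` is joined to `y` by a path of length
`≤ L`, take the shortest one from `y` to `x` (reversed with `inv`; it does not return to `y`):
`1 - v_{N-L} x ≤ |S|^L e_N`. So choose `ε` with `|S|^L √(ε/(2|S|)) ≤ η/2`, then `N` with
`|S|^L B/(N - L) ≤ η/2`. -/
def P_RECU : Prop := ∀ (S : Type) [Fintype S] [Nonempty S] (L : ℕ) (η : ℝ), 0 < η →
  ∃ ε : ℝ, 0 < ε ∧ ∀ B : ℕ, ∃ N : ℕ, ∀ (X : Type) (mx : X → S → X) (inv : S → S)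
    (_ : ∀ s, inv (inv s) = s) (_ : ∀ x s, mx (mx x s) (inv s) = x) (y : X) (f : X → ℝ),
    f y = 1 → (∀ x, 0 ≤ f x) → (∀ x, f x ≤ 1) → (Function.support f).Finite →
    (Function.support f).ncard ≤ B → (∀ A : Finset X, ∑ x ∈ A, ∑ s, (f x - f (mx x s)) ^ 2 ≤ ε) →
    ∀ x : X, (∃ l : List S, l.length ≤ L ∧ run mx x l = y) → 1 - η ≤ hit mx y N x

/-- PIECE WLKU: uniform WLK: `plaw S {c | ¬ Hits mx t x c y} ≤ P(no visit in N steps) +
P(∑_{j<N} T_j > t)`; the first is `ENNReal.ofReal (1 - hit mx y N x)`, (a) in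
`Pool.Agent.W2helper19.FD.Wlk`, the second tends to `0` as `t → ∞` and does not depend on `x`, `y`, `mx`. -/
def P_WLKU : Prop := ∀ (S : Type) [Fintype S] [Nonempty S] [MeasurableSpace S]
  [DiscreteMeasurableSpace S] (N : ℕ) (δ : ℝ≥0∞), 0 < δ → ∃ t0 : ℝ, ∀ t ≥ t0,
  ∀ (X : Type) (mx : X → S → X) (x y : X),
    plaw S {c | ¬ Hits mx t x c y} ≤ ENNReal.ofReal (1 - hit mx y N x) + δ

/-- uniform recurrence -/
def URec {V S : Type} [Fintype S] [Nonempty S] [MeasurableSpace S] (mv : V → S → V) : Prop :=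
  ∀ (L : ℕ) (δ : ℝ≥0∞), 0 < δ → ∃ t0 : ℝ, ∀ t ≥ t0, ∀ x y : V,
    (∃ l : List S, l.length ≤ L ∧ run mv x l = y) → plaw S {c | ¬ Hits mv t x c y} ≤ δ

/-- PIECE URQ (CAP, RECU, WLKU are hypotheses of the proof): `f x = F (p x - p y)` with `F` of `P_CAP` for
`L = D` and `ε/(m |S|)`; its support has at most `m (2 M + 1)²` elements. -/
def P_URQ : Prop := ∀ (V S : Type) [Fintype S] [Nonempty S] [MeasurableSpace S]
  [DiscreteMeasurableSpace S] (mv : V → S → V) (inv : S → S) (_ : ∀ s, inv (inv s) = s)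
  (_ : ∀ x s, mv (mv x s) (inv s) = x) (p : V → ℤ × ℤ) (m D K : ℕ), Quad mv p m D K → URec mv

/-- PIECE BLKU (helper75) -/
def P_BLKU : Prop := ∀ (V S : Type) [Countable V] [Fintype S] [Nonempty S] [MeasurableSpace S]
  [DiscreteMeasurableSpace S] (mv : V → S → V) (p : V → ℤ × ℤ) (m D K : ℕ),
  Quad mv p m D K → URec mv → ∀ (lam : ℝ≥0), 0 < lam → ∀ o : V, p o = 0 →
  ∃ t0 : ℝ, ∀ t ≥ t0, 0 < law V S lam (Surv mv t o)

/-- the Schreier graph `L\Γ` is coarsely a plane, a half plane or a quadrant: `p` is a function on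
`L\Γ` (right cosets) to `ℤ²` with bounded fibres, whose image contains the quadrant `ℕ²`; right
multiplication by an element of `Γ` moves `p` by a bounded amount; and there is a finite set `F`
such that `L g F` contains `L g'` whenever `p g`, `p g'` are at distance at most one -/
def PlaneS (Γ : Type) [Group Γ] : Prop := ∃ (L : Subgroup Γ) (p : Γ → ℤ × ℤ) (m : ℕ) (F : Finset Γ),
  (∀ x ∈ L, ∀ g, p (x * g) = p g) ∧
  (∀ z, ∃ A : Finset Γ, A.card ≤ m ∧ ∀ g, p g = z → ∃ a ∈ A, g * a⁻¹ ∈ L) ∧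
  (∀ z : ℤ × ℤ, 0 ≤ z.1 → 0 ≤ z.2 → ∃ g, p g = z) ∧
  (∀ s : Γ, ∃ D : ℕ, ∀ g, |(p (g * s)).1 - (p g).1| ≤ D ∧ |(p (g * s)).2 - (p g).2| ≤ D) ∧
  ∀ g g', |(p g).1 - (p g').1| ≤ 1 → |(p g).2 - (p g').2| ≤ 1 → ∃ f ∈ F, g * f * g'⁻¹ ∈ L

/-- PIECE PLN: the quadrant structure on the right cosets of a conjugate of `L`, so that the coset of
`1` is at the origin: if `p g₀ = 0`, `V = Quotient (QuotientGroup.rightRel (g₀⁻¹ L g₀))`, `p' [g] =
p (g₀ g)`, `φ g = [g]`, `mv [g] s = [g s]`. -/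
def P_PLN : Prop := ∀ (Γ : Type) [Group Γ] (S : Finset Γ), (∀ s ∈ S, s⁻¹ ∈ S) →
  Subgroup.closure (S : Set Γ) = ⊤ → PlaneS Γ →
  ∃ (V : Type) (mv : V → S → V) (inv : S → S) (p : V → ℤ × ℤ) (m D K : ℕ) (φ : Γ → V),
    (∀ s, inv (inv s) = s) ∧ (∀ x s, mv (mv x s) (inv s) = x) ∧ Function.Surjective φ ∧
    Quad mv p m D K ∧ p (φ 1) = 0 ∧ ∀ g (s : S), φ (g * s) = mv (φ g) s

end Pool.Agent.W2helper75.FD
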