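import Pool.Agent.W2helper75.FD.Blk1
import Pool.Agent.W2helper75.FD.Stm5

/-! Piece BLKU: the block argument for graphs that are coarsely a quadrant. -/

set_option autoImplicit false

open MeasureTheory ProbabilityTheory Filter Topology
open scoped ENNReal NNReal

namespace Pool.Agent.W2helper75.FD.Blku

open Pool.Agent.W2helper75.FD
open Pool.Agent.H592F (P2 FinIndep Bof bad safe near Wet dep badCyl bad_eq)

section Bad

variable {V S : Type} [Countable V] [Fintype S] [Nonempty S]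
  [MeasurableSpace S] [DiscreteMeasurableSpace S] (mv : V → S → V) (B : P2 → Finset V)

open Classical in
/-- the two successors of a block -/
noncomputable def nxt (a : P2) : Finset V := B (a.1 + 1, a.2) ∪ B (a.1, a.2 + 1)

theorem mem_nxt {a : P2} {x : V} :
    x ∈ nxt B a ↔ x ∈ B (a.1 + 1, a.2) ∨ x ∈ B (a.1, a.2 + 1) := by
  classical
  unfold nxt
  simp only [Finset.mem_union]

/-- bad blocks -/
def Bad (t : ℝ) (a : P2) (ω : V → Dat S) : Prop :=
  (∀ x ∈ B a, (ω x).1 = 0) ∨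
    ∃ x ∈ B a, ∃ y ∈ nxt B a, ¬ Hits mv t x ((ω x).2 0) y

theorem law_zero (lam : ℝ≥0) (A : Finset V) :
    law V S lam {ω | ∀ x ∈ A, (ω x).1 = 0}
      = ENNReal.ofReal (Real.exp (-lam)) ^ A.card := by
  have e : {ω : V → Dat S | ∀ x ∈ A, (ω x).1 = 0}
      = Set.pi (A : Set V) (fun _ => {d : Dat S | d.1 = 0}) := by
    ext ω
    simp only [Set.mem_ofPred_eq, Set.mem_pi, Finset.mem_coe]
  have hm : MeasurableSet {d : Dat S | d.1 = 0} := measurable_fst (measurableSet_singleton 0)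
  rw [e]
  unfold law
  rw [Measure.infinitePi_pi _ fun _ _ => hm, Finset.prod_const]
  congr 1
  have e2 : {d : Dat S | d.1 = 0} = ({0} : Set ℕ) ×ˢ (Set.univ : Set (ℕ → Par S)) := by
    ext d; simp
  unfold dlaw
  rw [e2, Measure.prod_prod, measure_univ, mul_one, poissonMeasure_singleton]
  simp

theorem law_par (lam : ℝ≥0) (x : V) (A : Set (Par S)) (hA : MeasurableSet A) :
    law V S lam {ω | (ω x).2 0 ∈ A} = plaw S A := by
  have hA2 : MeasurableSet {q : ℕ → Par S | q 0 ∈ A} := measurable_pi_apply 0 hA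
  have hA3 : MeasurableSet {d : Dat S | d.2 0 ∈ A} := measurable_snd hA2
  have e1 : law V S lam {ω | (ω x).2 0 ∈ A} = dlaw S lam {d | d.2 0 ∈ A} := by
    unfold law
    exact (measurePreserving_eval_infinitePi
      (fun _ : V => dlaw S lam) x).measure_preimage hA3.nullMeasurableSet
  have e2 : {d : Dat S | d.2 0 ∈ A} = (Set.univ : Set ℕ) ×ˢ {q : ℕ → Par S | q 0 ∈ A} := by
    ext d; simp
  rw [e1, e2]
  unfold dlaw
  rw [Measure.prod_prod, measure_univ, one_mul]
  exact (measurePreserving_eval_infinitePi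
    (fun _ : ℕ => plaw S) 0).measure_preimage hA.nullMeasurableSet

theorem bad_prob (lam : ℝ≥0) (N M : ℕ) (t : ℝ) (a : P2) (η : ℝ≥0∞)
    (hN : N ≤ (B a).card) (hM : (B a).card ≤ M) (hM2 : (nxt B a).card ≤ 2 * M)
    (h : ∀ x ∈ B a, ∀ y ∈ nxt B a, plaw S {p | ¬ Hits mv t x p y} ≤ η) :
    law V S lam {ω | Bad mv B t a ω} ≤
      ENNReal.ofReal (Real.exp (-lam)) ^ N + (M : ℝ≥0∞) * (((2 * M : ℕ) : ℝ≥0∞) * η) := by
  have hsub : {ω | Bad mv B t a ω} ⊆ {ω : V → Dat S | ∀ x ∈ B a, (ω x).1 = 0} ∪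
      ⋃ x ∈ B a, ⋃ y ∈ nxt B a, {ω | (ω x).2 0 ∈ {p | ¬ Hits mv t x p y}} := by
    rintro ω (h | ⟨x, hx, y, hy, h⟩)
    · exact Or.inl h
    · right
      rw [Set.mem_iUnion₂]
      refine ⟨x, hx, ?_⟩
      rw [Set.mem_iUnion₂]
      exact ⟨y, hy, h⟩
  refine (measure_mono hsub).trans ((measure_union_le _ _).trans ?_)
  refine add_le_add ?_ ?_
  · rw [law_zero]
    refine pow_le_pow_right_of_le_one' ?_ hN
    rw [ENNReal.ofReal_le_one, Real.exp_le_one_iff]
    simp
  · refine (measure_biUnion_finset_le _ _).trans ?_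
    have h1 : ∀ x ∈ B a, law V S lam (⋃ y ∈ nxt B a,
        {ω | (ω x).2 0 ∈ {p | ¬ Hits mv t x p y}}) ≤ ((2 * M : ℕ) : ℝ≥0∞) * η := by
      intro x hx
      refine (measure_biUnion_finset_le _ _).trans ?_
      calc _ ≤ ∑ y ∈ nxt B a, η := by
            refine Finset.sum_le_sum fun y hy => ?_
            have hm : MeasurableSet {p : Par S | ¬ Hits mv t x p y} :=
              (meas_hits mv t x y).compl
            rw [law_par _ _ _ hm]
            exact h x hx y hy
        _ = (nxt B a).card * η := by rw [Finset.sum_const, nsmul_eq_mul]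
        _ ≤ _ := by gcongr
    calc _ ≤ ∑ x ∈ B a, ((2 * M : ℕ) : ℝ≥0∞) * η := Finset.sum_le_sum h1
      _ = (B a).card * (((2 * M : ℕ) : ℝ≥0∞) * η) := by rw [Finset.sum_const, nsmul_eq_mul]
      _ ≤ _ := by gcongr

theorem meas_Bad (t : ℝ) (a : P2) :
    MeasurableSet {ω : V → Dat S | Bad mv B t a ω} := by
  have e : {ω : V → Dat S | Bad mv B t a ω}
      = (⋂ x ∈ B a, {ω | (ω x).1 = 0}) ∪ ⋃ x ∈ B a, ⋃ y ∈ nxt B a,
        {ω | (ω x).2 0 ∈ {p | ¬ Hits mv t x p y}} := by
    ext ω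
    simp only [Bad, Set.mem_ofPred_eq, Set.mem_union, Set.mem_iInter, Set.mem_iUnion,
      exists_prop]
  rw [e]
  refine MeasurableSet.union ?_ ?_
  · refine Finset.measurableSet_biInter _ fun x _ => ?_
    have h1 : MeasurableSet {d : Dat S | d.1 = 0} := measurable_fst (measurableSet_singleton 0)
    have h3 : Measurable (fun ω : V → Dat S => ω x) := measurable_pi_apply x
    exact h3 h1
  · refine Finset.measurableSet_biUnion _ fun x _ => Finset.measurableSet_biUnion _ fun y _ => ?_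
    have h1 : MeasurableSet {q : ℕ → Par S | q 0 ∈ {p | ¬ Hits mv t x p y}} :=
      measurable_pi_apply 0 (meas_hits mv t x y).compl
    have h2 : MeasurableSet {d : Dat S | d.2 0 ∈ {p | ¬ Hits mv t x p y}} :=
      measurable_snd h1
    have h3 : Measurable (fun ω : V → Dat S => ω x) := measurable_pi_apply x
    exact h3 h2

open Classical in
/-- the field of bad blocks, without the block of the root -/
noncomputable def xi (t : ℝ) (a : P2) (ω : V → Dat S) : Bool :=
  decide ((a ≠ (-1, 0) ∧ 0 ≤ a.1 + 1 ∧ 0 ≤ a.2) ∧ Bad mv B t (a.1 + 1, a.2) ω)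

theorem xi_true (t : ℝ) (a : P2) (ω : V → Dat S) :
    xi mv B t a ω = true ↔
      (a ≠ (-1, 0) ∧ 0 ≤ a.1 + 1 ∧ 0 ≤ a.2) ∧ Bad mv B t (a.1 + 1, a.2) ω := by
  classical
  unfold xi
  simp only [decide_eq_true_eq]

theorem meas_xi (t : ℝ) (a : P2) :
    Measurable (fun ω : V → Dat S => xi mv B t a ω) := by
  classical
  refine measurable_to_bool ?_
  have e : (fun ω : V → Dat S => xi mv B t a ω) ⁻¹' {true}
      = {ω | a ≠ (-1, 0) ∧ 0 ≤ a.1 + 1 ∧ 0 ≤ a.2} ∩ {ω | Bad mv B t (a.1 + 1, a.2) ω} := by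
    ext ω
    simp only [Set.mem_preimage, Set.mem_singleton_iff, Set.mem_inter_iff, Set.mem_ofPred_eq]
    exact xi_true mv B t a ω
  rw [e]
  exact (MeasurableSet.const _).inter (meas_Bad mv B t _)

theorem Bad_congr (t : ℝ) (a : P2) (ω ω' : V → Dat S)
    (h : ∀ x ∈ B a, ω x = ω' x) : Bad mv B t a ω ↔ Bad mv B t a ω' := by
  unfold Bad
  refine or_congr (forall₂_congr fun x hx => by rw [h x hx]) ?_
  refine exists_congr fun x => and_congr_right fun hx => ?_
  rw [h x hx]

open Classical in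
/-- the blocks on which `xi` depends -/
noncomputable def Ub (a : P2) : Finset V :=
  if a ≠ (-1, 0) ∧ 0 ≤ a.1 + 1 ∧ 0 ≤ a.2 then B (a.1 + 1, a.2) else ∅

theorem xi_dep (t : ℝ) (a : P2) (ω ω' : V → Dat S)
    (h : ∀ x ∈ Ub B a, ω x = ω' x) : xi mv B t a ω = xi mv B t a ω' := by
  classical
  unfold xi
  by_cases ha : a ≠ (-1, 0) ∧ 0 ≤ a.1 + 1 ∧ 0 ≤ a.2
  · congr 1
    unfold Ub at h
    rw [if_pos ha] at h
    rw [eq_iff_iff]
    exact and_congr_right fun _ => Bad_congr mv B t _ ω ω' h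
  · congr 1
    rw [eq_iff_iff]
    exact ⟨fun h => absurd h.1 ha, fun h => absurd h.1 ha⟩

theorem Ub_disjoint (hB : ∀ a b, a ≠ b → Disjoint (B a) (B b)) (a b : P2) (h : a ≠ b) :
    Disjoint (Ub B a) (Ub B b) := by
  unfold Ub
  split_ifs
  · apply hB
    intro h2
    apply h
    have h3 := congrArg Prod.fst h2
    have h4 := congrArg Prod.snd h2
    simp only at h3 h4
    exact Prod.ext (by linarith) h4
  · exact Finset.disjoint_empty_right _
  · exact Finset.disjoint_empty_left _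
  · exact Finset.disjoint_empty_left _

theorem xi_indep (hB : ∀ a b, a ≠ b → Disjoint (B a) (B b)) (lam : ℝ≥0) (t : ℝ) :
    FinIndep (law V S lam) (fun a ω => xi mv B t a ω) := by
  unfold law
  exact finIndep_blocks (dlaw S lam) (fun a ω => xi mv B t a ω) (meas_xi mv B t) (Ub B)
    (xi_dep mv B t) (Ub_disjoint B hB)

theorem wet_visited (t : ℝ) (o : V)
    (ω : V → Dat S) (h1 : 0 < (ω o).1)
    (h2 : ∀ y ∈ B (1, 0), Hits mv t o ((ω o).2 0) y) (v : P2)
    (hv : Wet (Bof (fun a ω => xi mv B t a ω) ω) v) :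
    0 ≤ v.1 ∧ 0 ≤ v.2 ∧ ∀ x ∈ B (v.1 + 1, v.2), Visited mv t o ω x := by
  classical
  have key : ∀ v : P2, 0 ≤ v.1 → 0 ≤ v.2 → (∀ x ∈ B (v.1 + 1, v.2), Visited mv t o ω x) →
      ¬ Bof (fun a ω => xi mv B t a ω) ω v → ∀ y ∈ nxt B (v.1 + 1, v.2),
      Visited mv t o ω y := by
    intro v hv0 hv1 hvis hb y hy
    unfold Bof at hb
    rw [xi_true] at hb
    have hne : v ≠ (-1, 0) := by
      rintro rfl
      norm_num at hv0
    have hgood : ¬ Bad mv B t (v.1 + 1, v.2) ω := fun h => hb ⟨⟨hne, by omega, hv1⟩, h⟩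
    unfold Bad at hgood
    push Not at hgood
    obtain ⟨⟨x, hx, hx0⟩, hall⟩ := hgood
    exact Visited.step x y (hvis x hx) ⟨0, Nat.pos_of_ne_zero hx0, hall x hx y hy⟩
  induction hv with
  | zero =>
    refine ⟨le_refl _, le_refl _, fun x hx => ?_⟩
    exact Visited.step o x Visited.root ⟨0, h1, h2 x (by simpa using hx)⟩
  | @right v _ hb ih =>
    obtain ⟨i1, i2, i3⟩ := ih
    refine ⟨by simp only; omega, i2, fun x hx => ?_⟩
    exact key v i1 i2 i3 hb x ((mem_nxt B).2 (Or.inl hx))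
  | @up v _ hb ih =>
    obtain ⟨i1, i2, i3⟩ := ih
    refine ⟨i1, by simp only; omega, fun x hx => ?_⟩
    exact key v i1 i2 i3 hb x ((mem_nxt B).2 (Or.inr hx))

theorem surv_of_perc (hgt : V → ℤ) (hB1 : ∀ a : P2, 0 ≤ a.1 → 0 ≤ a.2 → (B a).Nonempty ∧
      ∀ x ∈ B a, a.1 + a.2 ≤ hgt x) (t : ℝ) (o : V)
    (ω : V → Dat S) (h1 : 0 < (ω o).1)
    (h2 : ∀ y ∈ B (1, 0), Hits mv t o ((ω o).2 0) y)
    (h3 : ∀ k, safe (bad (Bof (fun a ω => xi mv B t a ω) ω) k) (0, 0)) :
    ω ∈ Surv mv t o := by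
  unfold Surv
  simp only [Set.mem_ofPred_eq]
  intro hfin
  have hb := (hfin.image hgt).bddAbove
  obtain ⟨C, hC⟩ := hb
  obtain ⟨v, hv, hsum⟩ := Pool.Agent.H592F.perc_det _ h3 (C.toNat + 1)
  obtain ⟨i1, i2, i3⟩ := wet_visited mv B t o ω h1 h2 v hv
  obtain ⟨⟨x, hx⟩, hall⟩ := hB1 (v.1 + 1, v.2) (by simp only; omega) i2
  have h4 := hC ⟨x, i3 x hx, rfl⟩
  have h5 := hall x hx
  simp only at h5
  have h6 : (C.toNat : ℤ) + 1 ≤ v.1 + v.2 := by exact_mod_cast hsum
  have h7 : C ≤ C.toNat := Int.self_le_toNat C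
  linarith

end Bad


theorem blk_gen {V S : Type} [Countable V] [Fintype S] [Nonempty S]
    [MeasurableSpace S] [DiscreteMeasurableSpace S] (mv : V → S → V) (B : P2 → Finset V)
    (hgt : V → ℤ) (hB1 : ∀ a : P2, 0 ≤ a.1 → 0 ≤ a.2 → (B a).Nonempty ∧
      ∀ x ∈ B a, a.1 + a.2 ≤ hgt x) (hdis : ∀ a b, a ≠ b → Disjoint (B a) (B b))
    (lam : ℝ≥0) (hlam : 0 < lam) (N M : ℕ) (o : V) (ho : ∀ a : P2, a ≠ (-1, 0) →
      0 ≤ a.1 + 1 → 0 ≤ a.2 → o ∉ B (a.1 + 1, a.2)) (t : ℝ) (δ η : ℝ≥0∞)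
    (hδ : δ = ENNReal.ofReal (1 / 884101250))
    (hNδ : ENNReal.ofReal (Real.exp (-(lam : ℝ))) ^ N ≤ δ / 2)
    (hη : ((M * (2 * M) + M + 1 : ℕ) : ℝ≥0∞) * η ≤ δ / 2)
    (hcN : ∀ a : P2, 0 ≤ a.1 → 0 ≤ a.2 → N ≤ (B a).card)
    (hcM : ∀ a : P2, 0 ≤ a.1 → 0 ≤ a.2 → (B a).card ≤ M)
    (hhit : ∀ a : P2, 0 ≤ a.1 → 0 ≤ a.2 → ∀ x ∈ B a, ∀ y ∈ nxt B a,
      plaw S {p | ¬ Hits mv t x p y} ≤ η)
    (hroot : ∀ y ∈ B (1, 0), plaw S {p | ¬ Hits mv t o p y} ≤ η) :
    0 < law V S lam (Surv mv t o) := by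
  classical
  have hδ0 : 0 < δ := by rw [hδ, ENNReal.ofReal_pos]; norm_num
  have hδ2 : δ / 2 ≠ 0 := (ENNReal.half_pos hδ0.ne').ne'
  -- bad blocks are rare
  have hbad : ∀ a, law V S lam {ω | xi mv B t a ω = true} ≤ δ := by
    intro a
    by_cases ha : a ≠ (-1, 0) ∧ 0 ≤ a.1 + 1 ∧ 0 ≤ a.2
    · have h1 : {ω : V → Dat S | xi mv B t a ω = true} ⊆ {ω | Bad mv B t (a.1 + 1, a.2) ω} := by
        intro ω h
        rw [Set.mem_ofPred_eq, xi_true] at h
        exact h.2
      refine (measure_mono h1).trans ?_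
      have hnx : (nxt B (a.1 + 1, a.2)).card ≤ 2 * M := by
        unfold nxt
        refine (Finset.card_union_le _ _).trans ?_
        have e1 := hcM (a.1 + 1 + 1, a.2) (by have := ha.2.1; simp only; omega) ha.2.2
        have e2 := hcM (a.1 + 1, a.2 + 1) ha.2.1 (by have := ha.2.2; simp only; omega)
        simp only at e1 e2 ⊢
        omega
      refine (bad_prob mv B lam N M t (a.1 + 1, a.2) η (hcN (a.1 + 1, a.2) ha.2.1 ha.2.2)
        (hcM (a.1 + 1, a.2) ha.2.1 ha.2.2) hnx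
        (hhit (a.1 + 1, a.2) ha.2.1 ha.2.2)).trans ?_
      calc _ ≤ δ / 2 + ((M * (2 * M) + M + 1 : ℕ) : ℝ≥0∞) * η := by
            refine add_le_add hNδ ?_
            rw [← mul_assoc]
            refine mul_le_mul_left ?_ η
            rw [← Nat.cast_mul]
            exact_mod_cast (by omega)
        _ ≤ δ / 2 + δ / 2 := by gcongr
        _ = δ := ENNReal.add_halves _
    · have h1 : {ω : V → Dat S | xi mv B t a ω = true} = ∅ := by
        ext ω
        rw [Set.mem_ofPred_eq, xi_true]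
        simp only [Set.mem_empty_iff_false, iff_false]
        exact fun h => ha h.1
      rw [h1, measure_empty]
      exact zero_le
  have hfail := Pool.Agent.H592F.fail_prob (law V S lam) (fun a ω => xi mv B t a ω)
    (xi_indep mv B hdis lam t) (by rw [← hδ]; exact hbad)
  set F : Set (V → Dat S) :=
    {ω | ∃ k, ¬ safe (bad (Bof (fun a ω => xi mv B t a ω) ω) k) (0, 0)} with hF
  have hFm : MeasurableSet F := by
    have e : F = ⋃ k : ℕ, ⋃ u : P2, ({ω | near u (0, 0)} ∩
        {ω : V → Dat S | bad (Bof (fun a ω => xi mv B t a ω) ω) k u}) := by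
      ext ω
      rw [hF]
      simp only [Set.mem_ofPred_eq, Set.mem_iUnion, Set.mem_inter_iff]
      refine exists_congr fun k => ?_
      unfold safe
      push Not
      rfl
    rw [e]
    refine MeasurableSet.iUnion fun k => MeasurableSet.iUnion fun u =>
      (MeasurableSet.const _).inter ?_
    rw [bad_eq]
    have hmm : Measurable (fun (ω : V → Dat S) (x : dep k u) => xi mv B t (x : P2) ω) :=
      measurable_pi_iff.2 fun x => meas_xi mv B t (x : P2)
    exact hmm (Set.toFinite _).measurableSet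
  set A1 : Set (Dat S) := {d | 0 < d.1 ∧ ∀ y ∈ B (1, 0), Hits mv t o (d.2 0) y}
    with hA1
  have hA1m : MeasurableSet A1 := by
    have e : A1 = {d | 0 < d.1} ∩ ⋂ y ∈ B (1, 0),
        {d : Dat S | d.2 0 ∈ {p | Hits mv t o p y}} := by
      ext d
      rw [hA1]
      simp only [Set.mem_ofPred_eq, Set.mem_inter_iff, Set.mem_iInter]
    rw [e]
    refine MeasurableSet.inter (measurable_fst (MeasurableSet.of_discrete)) ?_
    refine Finset.measurableSet_biInter _ fun y _ => ?_
    have h1 : MeasurableSet {q : ℕ → Par S | q 0 ∈ {p | Hits mv t o p y}} :=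
      measurable_pi_apply 0 (meas_hits mv t o y)
    exact measurable_snd h1
  -- the root starts with positive probability
  have hA1pos : 0 < dlaw S lam A1 := by
    have e : A1 = ({k : ℕ | 0 < k}) ×ˢ {q : ℕ → Par S | ∀ y ∈ B (1, 0),
        Hits mv t o (q 0) y} := by
      ext d
      rw [hA1]
      simp only [Set.mem_ofPred_eq, Set.mem_prod]
    rw [e]
    unfold dlaw
    rw [Measure.prod_prod]
    refine ENNReal.mul_pos ?_ ?_
    · intro h0
      have h1 : poissonMeasure lam ({1} : Set ℕ) ≤ 0 := by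
        rw [← h0]
        refine measure_mono ?_
        intro k hk
        rw [Set.mem_singleton_iff] at hk
        rw [hk]
        exact Nat.one_pos
      rw [poissonMeasure_singleton] at h1
      have h2 : (0 : ℝ) < lam := hlam
      have h3 : 0 < Real.exp (-(lam : ℝ)) * (lam : ℝ) ^ 1 / (Nat.factorial 1 : ℝ) := by positivity
      exact absurd h1 (not_le.2 (ENNReal.ofReal_pos.2 h3))
    · intro h0
      have h1 : (Measure.infinitePi fun _ : ℕ => plaw S)
          {q : ℕ → Par S | ∀ y ∈ B (1, 0), Hits mv t o (q 0) y}ᶜ ≤ δ / 2 := by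
        have hsub : {q : ℕ → Par S | ∀ y ∈ B (1, 0), Hits mv t o (q 0) y}ᶜ
            ⊆ ⋃ y ∈ B (1, 0), {q | q 0 ∈ {p | ¬ Hits mv t o p y}} := by
          intro q hq
          simp only [Set.mem_compl_iff, Set.mem_ofPred_eq] at hq
          push Not at hq
          obtain ⟨y, hy, h2⟩ := hq
          rw [Set.mem_iUnion₂]
          exact ⟨y, hy, h2⟩
        refine (measure_mono hsub).trans ((measure_biUnion_finset_le _ _).trans ?_)
        calc _ ≤ ∑ y ∈ B (1, 0), η := by
              refine Finset.sum_le_sum fun y hy => ?_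
              have h2 := hroot y hy
              refine le_trans (le_of_eq ?_) h2
              have hm : MeasurableSet {p : Par S | ¬ Hits mv t o p y} :=
                (meas_hits mv t o y).compl
              exact (measurePreserving_eval_infinitePi
                (fun _ : ℕ => plaw S) 0).measure_preimage hm.nullMeasurableSet
          _ = (B (1, 0)).card * η := by rw [Finset.sum_const, nsmul_eq_mul]
          _ ≤ ((M * (2 * M) + M + 1 : ℕ) : ℝ≥0∞) * η := by
              refine mul_le_mul_left ?_ η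
              have e1 := hcM (1, 0) (by norm_num) (by norm_num)
              exact_mod_cast (by omega)
          _ ≤ δ / 2 := hη
      have h2 : (1 : ℝ≥0∞) ≤ 0 + δ / 2 := by
        calc (1 : ℝ≥0∞) = (Measure.infinitePi fun _ : ℕ => plaw S) Set.univ := measure_univ.symm
          _ ≤ _ := by
            rw [← Set.union_compl_self {q : ℕ → Par S | ∀ y ∈ B (1, 0),
              Hits mv t o (q 0) y}]
            refine (measure_union_le _ _).trans (add_le_add (le_of_eq ?_) h1)
            exact h0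
      rw [zero_add] at h2
      have h3 : δ / 2 < 1 := by
        refine lt_of_le_of_lt ENNReal.half_le_self ?_
        rw [hδ, ENNReal.ofReal_lt_one]
        norm_num
      exact absurd h2 (not_le.2 h3)
  -- independence of the root
  have hGm : MeasurableSet ({ω : V → Dat S | ω o ∈ A1} ∩ Fᶜ) :=
    (measurable_pi_apply o hA1m).inter hFm.compl
  have hind : law V S lam ({ω : V → Dat S | ω o ∈ A1} ∩ Fᶜ)
      = dlaw S lam A1 * law V S lam Fᶜ := by
    have hres := res V (Dat S) (dlaw S lam) o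
    conv_lhs => unfold law; rw [← hres]
    rw [Measure.map_apply (measurable_update_pair o) hGm]
    have e : (fun p : Dat S × (V → Dat S) => Function.update p.2 o p.1) ⁻¹'
        ({ω : V → Dat S | ω o ∈ A1} ∩ Fᶜ) = A1 ×ˢ Fᶜ := by
      ext p
      simp only [Set.mem_preimage, Set.mem_inter_iff, Set.mem_ofPred_eq, Set.mem_compl_iff,
        Set.mem_prod, Function.update_self]
      refine and_congr_right fun _ => not_congr ?_
      rw [hF]
      simp only [Set.mem_ofPred_eq]
      have hB : Bof (fun a ω => xi mv B t a ω) (Function.update p.2 o p.1)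
          = Bof (fun a ω => xi mv B t a ω) p.2 := by
        funext a
        unfold Bof
        show (xi mv B t a (Function.update p.2 o p.1) = true) = (xi mv B t a p.2 = true)
        rw [xi_dep mv B t a (Function.update p.2 o p.1) p.2]
        intro x hx
        refine Function.update_of_ne ?_ _ _
        rintro rfl
        unfold Ub at hx
        split_ifs at hx with ha
        · exact ho a ha.1 ha.2.1 ha.2.2 hx
        · simp at hx
      rw [hB]
    rw [e, Measure.prod_prod]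
    rfl
  have hFc : 0 < law V S lam Fᶜ := by
    rw [prob_compl_eq_one_sub hFm]
    rw [tsub_pos_iff_lt]
    refine lt_of_le_of_lt hfail ?_
    rw [ENNReal.ofReal_lt_one]
    norm_num
  refine lt_of_lt_of_le (ENNReal.mul_pos hA1pos.ne' hFc.ne') ?_
  rw [← hind]
  refine measure_mono ?_
  rintro ω ⟨h1, h2⟩
  rw [Set.mem_ofPred_eq, hA1] at h1
  rw [Set.mem_compl_iff, hF] at h2
  simp only [Set.mem_ofPred_eq] at h1 h2
  push Not at h2
  have hgo : ω ∈ Surv mv t o := surv_of_perc mv B hgt hB1 t o ω h1.1 h1.2 h2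
  exact hgo


theorem run_append {V S : Type} (mv : V → S → V) (x : V) (l l' : List S) :
    run mv x (l ++ l') = run mv (run mv x l) l' := by
  unfold run
  rw [List.foldl_append]

theorem conn {V S : Type} {mv : V → S → V} {p : V → ℤ × ℤ} {m D K : ℕ} (hq : Quad mv p m D K)
    (n : ℕ) : ∀ x y : V, 0 ≤ (p x).1 → 0 ≤ (p x).2 → 0 ≤ (p y).1 → 0 ≤ (p y).2 →
      |(p x).1 - (p y).1| + |(p x).2 - (p y).2| ≤ n →
      ∃ l : List S, l.length ≤ K * (n + 1) ∧ run mv x l = y := by
  induction n with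
  | zero =>
    intro x y _ _ _ _ h
    have h1 := abs_nonneg ((p x).1 - (p y).1)
    have h2 := abs_nonneg ((p x).2 - (p y).2)
    push_cast at h
    obtain ⟨l, hl, hl2⟩ := hq.con x y (by linarith) (by linarith)
    exact ⟨l, by omega, hl2⟩
  | succ n ih =>
    intro x y hx1 hx2 hy1 hy2 h
    push_cast at h
    -- a closer lattice point
    obtain ⟨z, hz1, hz2, hz3, hz4, hz5⟩ : ∃ z : ℤ × ℤ, 0 ≤ z.1 ∧ 0 ≤ z.2 ∧
        |(p x).1 - z.1| ≤ 1 ∧ |(p x).2 - z.2| ≤ 1 ∧
        |z.1 - (p y).1| + |z.2 - (p y).2| ≤ n := by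
      rcases lt_trichotomy (p x).1 (p y).1 with h1 | h1 | h1
      · refine ⟨((p x).1 + 1, (p x).2), by simp only; omega, hx2, by simp, by simp, ?_⟩
        simp only
        rw [abs_of_nonpos (by omega : (p x).1 + 1 - (p y).1 ≤ 0)]
        rw [abs_of_nonpos (by omega : (p x).1 - (p y).1 ≤ 0)] at h
        linarith
      · rcases lt_trichotomy (p x).2 (p y).2 with h2 | h2 | h2
        · refine ⟨((p x).1, (p x).2 + 1), hx1, by simp only; omega, by simp, by simp, ?_⟩
          simp only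
          rw [abs_of_nonpos (by omega : (p x).2 + 1 - (p y).2 ≤ 0)]
          rw [abs_of_nonpos (by omega : (p x).2 - (p y).2 ≤ 0)] at h
          linarith
        · refine ⟨p x, hx1, hx2, by simp, by simp, ?_⟩
          rw [h1, h2]
          simp
        · refine ⟨((p x).1, (p x).2 - 1), hx1, by simp only; omega, by simp, by simp, ?_⟩
          simp only
          rw [abs_of_nonneg (by omega : 0 ≤ (p x).2 - 1 - (p y).2)]
          rw [abs_of_nonneg (by omega : 0 ≤ (p x).2 - (p y).2)] at h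
          linarith
      · refine ⟨((p x).1 - 1, (p x).2), by simp only; omega, hx2, by simp, by simp, ?_⟩
        simp only
        rw [abs_of_nonneg (by omega : 0 ≤ (p x).1 - 1 - (p y).1)]
        rw [abs_of_nonneg (by omega : 0 ≤ (p x).1 - (p y).1)] at h
        linarith
    obtain ⟨w, hw⟩ := hq.surj z hz1 hz2
    obtain ⟨l, hl, hl2⟩ := hq.con x w (by rw [hw]; exact hz3) (by rw [hw]; exact hz4)
    obtain ⟨l', hl', hl2'⟩ := ih w y (by rw [hw]; exact hz1) (by rw [hw]; exact hz2) hy1 hy2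
      (by rw [hw]; exact hz5)
    refine ⟨l ++ l', ?_, by rw [run_append, hl2, hl2']⟩
    rw [List.length_append]
    have : K * (n + 1 + 1) = K + K * (n + 1) := by ring
    omega

/-- the block with index `a` -/
def bset {V : Type} (p : V → ℤ × ℤ) (N : ℕ) (a : P2) : Set V :=
  {x | ((N : ℤ) * a.1 ≤ (p x).1 ∧ (p x).1 < (N : ℤ) * a.1 + N) ∧
    ((N : ℤ) * a.2 ≤ (p x).2 ∧ (p x).2 < (N : ℤ) * a.2 + N)}

theorem bset_sub {V : Type} (p : V → ℤ × ℤ) (N : ℕ) (a : P2) : bset p N a ⊆
    ⋃ z ∈ (Finset.Ico ((N : ℤ) * a.1) ((N : ℤ) * a.1 + N)) ×ˢ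
      (Finset.Ico ((N : ℤ) * a.2) ((N : ℤ) * a.2 + N)), {x | p x = z} := by
  intro x hx
  rw [Set.mem_iUnion₂]
  refine ⟨p x, ?_, rfl⟩
  rw [Finset.mem_product, Finset.mem_Ico, Finset.mem_Ico]
  exact ⟨hx.1, hx.2⟩

theorem bset_fin {V S : Type} {mv : V → S → V} {p : V → ℤ × ℤ} {m D K : ℕ}
    (hq : Quad mv p m D K) (N : ℕ) (a : P2) : (bset p N a).Finite :=
  ((Finset.finite_toSet _).biUnion fun z _ => (hq.fib z).1).subset (bset_sub p N a)

theorem blku : P_BLKU := by
  intro V S _ _ _ _ _ mv p m D K hq hu lam hlam o ho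
  classical
  have hexp : Real.exp (-(lam : ℝ)) < 1 := by
    rw [Real.exp_lt_one_iff]
    have : (0 : ℝ) < lam := hlam
    linarith
  set δ : ℝ≥0∞ := ENNReal.ofReal (1 / 884101250) with hδ
  have hδ0 : 0 < δ := by rw [hδ, ENNReal.ofReal_pos]; norm_num
  have hδ2 : δ / 2 ≠ 0 := (ENNReal.half_pos hδ0.ne').ne'
  have hlt1 : ENNReal.ofReal (Real.exp (-(lam : ℝ))) < 1 := by
    rw [ENNReal.ofReal_lt_one]; exact hexp
  have hN : ∃ N : ℕ, 1 ≤ N ∧ ENNReal.ofReal (Real.exp (-(lam : ℝ))) ^ N ≤ δ / 2 := by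
    have h1 := ENNReal.tendsto_pow_atTop_nhds_zero_of_lt_one hlt1
    have h2 := h1.eventually (ge_mem_nhds (pos_iff_ne_zero.2 hδ2))
    obtain ⟨N, h3, h4⟩ := (h2.and (eventually_ge_atTop 1)).exists
    exact ⟨N, h4, h3⟩
  obtain ⟨N, hN1, hNδ⟩ := hN
  have hNz : (1 : ℤ) ≤ N := by exact_mod_cast hN1
  set M : ℕ := N * N * m with hM
  set Kc : ℕ := M * (2 * M) + M + 1 with hKc
  set η : ℝ≥0∞ := δ / 2 / Kc with hη
  have hK0 : (Kc : ℝ≥0∞) ≠ 0 := by rw [hKc]; simp
  have hKt : (Kc : ℝ≥0∞) ≠ ⊤ := ENNReal.natCast_ne_top Kc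
  have hη0 : 0 < η := ENNReal.div_pos hδ2 hKt
  have hηK : (Kc : ℝ≥0∞) * η = δ / 2 := by rw [hη]; exact ENNReal.mul_div_cancel hK0 hKt
  obtain ⟨t0, ht0⟩ := hu (K * (4 * N + 1)) η hη0
  set B : P2 → Finset V := fun a => (bset_fin hq N a).toFinset with hB
  have memB : ∀ {a : P2} {x : V}, x ∈ B a ↔ x ∈ bset p N a := fun {a x} => by
    rw [hB]; exact Set.Finite.mem_toFinset _
  refine ⟨t0, fun t ht => ?_⟩
  have hdis : ∀ a b, a ≠ b → Disjoint (B a) (B b) := by
    intro a b hab
    rw [Finset.disjoint_left]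
    intro x h1 h2
    rw [memB] at h1 h2
    apply hab
    exact Prod.ext (idx_unique h1.1.1 h1.1.2 h2.1.1 h2.1.2)
      (idx_unique h1.2.1 h1.2.2 h2.2.1 h2.2.2)
  have hcN : ∀ a : P2, 0 ≤ a.1 → 0 ≤ a.2 → N ≤ (B a).card := by
    intro a ha1 ha2
    have hN0 : (0 : ℤ) ≤ N := by linarith
    have hs : ∀ i : Fin N, ∃ x, p x = ((N : ℤ) * a.1 + i, (N : ℤ) * a.2) := fun i =>
      hq.surj _ (by positivity) (by positivity)
    choose g hg using hs
    have hinj : Function.Injective g := by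
      intro i i' h
      have h1 := hg i
      rw [h, hg i'] at h1
      have h2 := congrArg Prod.fst h1
      simp only at h2
      exact Fin.ext (by omega)
    calc N = (Finset.univ.image g).card := by
          rw [Finset.card_image_of_injective _ hinj, Finset.card_univ, Fintype.card_fin]
      _ ≤ _ := by
          apply Finset.card_le_card
          intro x hx
          rw [Finset.mem_image] at hx
          obtain ⟨i, -, rfl⟩ := hx
          rw [memB]
          unfold bset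
          simp only [Set.mem_ofPred_eq, hg i]
          have := i.2
          refine ⟨⟨by omega, by omega⟩, le_refl _, by omega⟩
  have hcM : ∀ a : P2, 0 ≤ a.1 → 0 ≤ a.2 → (B a).card ≤ M := by
    intro a _ _
    have h1 : B a ⊆ ((Finset.Ico ((N : ℤ) * a.1) ((N : ℤ) * a.1 + N)) ×ˢ
      (Finset.Ico ((N : ℤ) * a.2) ((N : ℤ) * a.2 + N))).biUnion
        (fun z => (hq.fib z).1.toFinset) := by
      intro x hx
      rw [memB] at hx
      rw [Finset.mem_biUnion]
      refine ⟨p x, ?_, ?_⟩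
      · rw [Finset.mem_product, Finset.mem_Ico, Finset.mem_Ico]
        exact ⟨hx.1, hx.2⟩
      · rw [Set.Finite.mem_toFinset]
        rfl
    refine (Finset.card_le_card h1).trans (Finset.card_biUnion_le.trans ?_)
    refine (Finset.sum_le_card_nsmul _ _ m ?_).trans ?_
    · intro z _
      rw [← Set.ncard_eq_toFinset_card _ (hq.fib z).1]
      exact (hq.fib z).2
    · rw [Finset.card_product, Int.card_Ico, Int.card_Ico]
      have e1 : ((N : ℤ) * a.1 + N - (N : ℤ) * a.1).toNat = N := by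
        rw [add_sub_cancel_left]; exact Int.toNat_natCast N
      have e2 : ((N : ℤ) * a.2 + N - (N : ℤ) * a.2).toNat = N := by
        rw [add_sub_cancel_left]; exact Int.toNat_natCast N
      rw [e1, e2, smul_eq_mul]
  refine blk_gen mv B (fun x => (p x).1 + (p x).2) ?_ hdis lam hlam N M o ?_ t δ η hδ hNδ
    (le_of_eq hηK) hcN hcM ?_ ?_
  · intro a ha1 ha2
    refine ⟨Finset.card_pos.1 (lt_of_lt_of_le hN1 (hcN a ha1 ha2)), fun x hx => ?_⟩
    rw [memB] at hx
    have h1 : a.1 ≤ N * a.1 := by nlinarith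
    have h2 : a.2 ≤ N * a.2 := by nlinarith
    have h3 := hx.1.1
    have h4 := hx.2.1
    linarith
  · intro a hne ha1 ha2 hmem
    rw [memB] at hmem
    apply hne
    obtain ⟨⟨q1, q2⟩, q3, q4⟩ := hmem
    rw [ho] at q1 q2 q3 q4
    have r1 : a.1 + 1 = 0 := idx_unique q1 q2 (by simp) (by simp; omega)
    have r2 : a.2 = 0 := idx_unique q3 q4 (by simp) (by simp; omega)
    exact Prod.ext (by simp only; omega) r2
  · intro a ha1 ha2 x hx y hy
    apply ht0 t ht x y
    rw [memB] at hx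
    rw [mem_nxt, memB, memB] at hy
    have e1 : (0 : ℤ) ≤ N * a.1 := by positivity
    have e2 : (0 : ℤ) ≤ N * a.2 := by positivity
    obtain ⟨⟨x1, x2⟩, x3, x4⟩ := hx
    rcases hy with ⟨⟨y1, y2⟩, y3, y4⟩ | ⟨⟨y1, y2⟩, y3, y4⟩
    · simp only [mul_add, mul_one] at y1 y2 y3 y4
      refine conn hq (4 * N) x y (by linarith) (by linarith) (by linarith) (by linarith) ?_
      have h1 : |(p x).1 - (p y).1| ≤ 2 * N := by rw [abs_le]; constructor <;> linarith
      have h2 : |(p x).2 - (p y).2| ≤ 2 * N := by rw [abs_le]; constructor <;> linarith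
      push_cast
      linarith
    · simp only [mul_add, mul_one] at y1 y2 y3 y4
      refine conn hq (4 * N) x y (by linarith) (by linarith) (by linarith) (by linarith) ?_
      have h1 : |(p x).1 - (p y).1| ≤ 2 * N := by rw [abs_le]; constructor <;> linarith
      have h2 : |(p x).2 - (p y).2| ≤ 2 * N := by rw [abs_le]; constructor <;> linarith
      push_cast
      linarith
  · intro y hy
    apply ht0 t ht o y
    rw [memB] at hy
    obtain ⟨⟨y1, y2⟩, y3, y4⟩ := hy
    simp only [mul_one, mul_zero, zero_add] at y1 y2 y3 y4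
    have hp1 : (p o).1 = 0 := by rw [ho]; rfl
    have hp2 : (p o).2 = 0 := by rw [ho]; rfl
    refine conn hq (4 * N) o y (by linarith) (by linarith) (by linarith) (by linarith) ?_
    rw [hp1, hp2]
    have h1 : |(0 : ℤ) - (p y).1| ≤ 2 * N := by rw [abs_le]; constructor <;> linarith
    have h2 : |(0 : ℤ) - (p y).2| ≤ 2 * N := by rw [abs_le]; constructor <;> linarith
    push_cast
    linarith

end Pool.Agent.W2helper75.FD.Blku
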