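import Pool.Agent.W2helper75.FD.Blk2
import Pool.Agent.W2helper53.FD.Cov
import Pool.Agent.W2helper98.FD.Rec
import Pool.Agent.W2helper19.FD.Wlk
import Pool.Agent.W2helper19.FD.Grp
import Pool.Agent.W2helper71.FD.Recz

/-! Assembly of the project FD. -/

set_option autoImplicit false

open MeasureTheory ProbabilityTheory Filter Topology
open scoped ENNReal NNReal

namespace Pool.Agent.W2helper75.FD

theorem countable_of_closure {Γ : Type} [Group Γ] (S : Finset Γ)
    (h : Subgroup.closure (S : Set Γ) = ⊤) : Countable Γ := by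
  have hc : Countable (FreeGroup S) := inferInstanceAs (Countable (Quot _))
  have hs : Function.Surjective (FreeGroup.lift (fun s : S => (s : Γ))) := by
    rw [← MonoidHom.range_eq_top, FreeGroup.range_lift_eq_closure, ← h]
    congr 1
    ext g
    simp
  exact hs.countable

/-- survival with positive probability for large lifetimes -/
theorem surv_pos (hcap : P_CAP) (Γ : Type) [Group Γ] (H : Subgroup Γ) (hH : H.FiniteIndex)
    (f : H →* Multiplicative (ℤ × ℤ)) (hf : Function.Surjective f) (S : Finset Γ) [Nonempty S]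
    [MeasurableSpace S] [DiscreteMeasurableSpace S]
    (hS : ∀ s ∈ S, s⁻¹ ∈ S) (hgen : Subgroup.closure (S : Set Γ) = ⊤) (lam : ℝ≥0)
    (hlam : 0 < lam) :
    ∃ t0 : ℝ, ∀ t ≥ t0, 0 < law Γ S lam (Surv (fun (g : Γ) (s : S) => g * (s : Γ)) t 1) := by
  obtain ⟨J, hJ, n, c, φ, j, h1, h2, h3, inv, h4, h5⟩ :=
    Pool.Agent.W2helper19.FD.grp Γ H hH f hf S hS hgen
  haveI : Nonempty J := ⟨j⟩
  haveI := countable_of_closure S hgen
  have hrec := Pool.Agent.W2helper71.FD.recz hcap Pool.Agent.W2helper98.FD.recur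
    Pool.Agent.W2helper19.FD.wlk J S n c inv h4 h5 h3
  obtain ⟨t0, ht0⟩ := blk_piece J S n c hrec lam hlam j
  refine ⟨t0, fun t ht => lt_of_lt_of_le (ht0 t ht) ?_⟩
  have := Pool.Agent.W2helper53.FD.cov res Γ ((ℤ × ℤ) × J) S (fun (g : Γ) (s : S) => g * (s : Γ))
    (mvp n c) φ h2 lam t 1
  rwa [h1] at this

theorem main (hcap : P_CAP) : Main := by
  intro Γ _ H hH f hf S _ _ _ hS hgen lam hlam
  obtain ⟨t0, ht0⟩ := surv_pos hcap Γ H hH f hf S hS hgen lam hlam
  unfold tc
  refine lt_of_le_of_lt (sSup_le ?_) (ENNReal.ofReal_lt_top (r := t0))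
  rintro _ ⟨t, ⟨-, ht⟩, rfl⟩
  refine ENNReal.ofReal_le_ofReal ?_
  by_contra hlt
  push Not at hlt
  exact (ht0 t hlt.le).ne' ht

end Pool.Agent.W2helper75.FD
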