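import Pool.Agent.W2helper75.FD.Stm2

/-! Piece SPC: the expected number of special times is unbounded. -/

set_option autoImplicit false

open MeasureTheory ProbabilityTheory Filter Topology
open scoped ENNReal NNReal

namespace Pool.Agent.W2helper75.FD

section Meas

variable {V S : Type} [Fintype S] [MeasurableSpace S] [DiscreteMeasurableSpace S]

theorem meas_pth_set (mv : V → S → V) (x : V) (k : ℕ) (A : Set V) :
    MeasurableSet {q : ℕ → S | pth mv x q k ∈ A} := by
  induction k generalizing A with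
  | zero => simp only [pth]; exact MeasurableSet.const _
  | succ k ih =>
    have e : {q : ℕ → S | pth mv x q (k + 1) ∈ A}
        = ⋃ s : S, ({q : ℕ → S | q k ∈ ({s} : Set S)} ∩
          {q : ℕ → S | pth mv x q k ∈ {z | mv z s ∈ A}}) := by
      ext q
      simp only [pth, Set.mem_ofPred_eq, Set.mem_iUnion, Set.mem_inter_iff,
        Set.mem_singleton_iff]
      constructor
      · intro h; exact ⟨_, rfl, h⟩
      · rintro ⟨s, h1, h2⟩; rw [h1]; exact h2
    rw [e]
    refine MeasurableSet.iUnion fun s => MeasurableSet.inter ?_ (ih _)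
    have h3 : Measurable (fun q : ℕ → S => q k) := measurable_pi_apply k
    exact h3 (MeasurableSet.of_discrete)

end Meas

section Glue

variable {S : Type}

/-- reverse the first `n` moves, then continue with the second sequence -/
def glue (inv : S → S) (n : ℕ) (p : (ℕ → S) × (ℕ → S)) : ℕ → S :=
  fun i => if i < n then inv (p.1 (n - 1 - i)) else p.2 (i - n)

theorem measurable_glue [MeasurableSpace S] [DiscreteMeasurableSpace S] (inv : S → S) (n : ℕ) :
    Measurable (glue inv n) := by
  refine measurable_pi_iff.2 fun i => ?_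
  unfold glue
  by_cases h : i < n
  · simp only [h, if_true]
    exact (Measurable.of_discrete (f := inv)).comp
      ((measurable_pi_apply (n - 1 - i)).comp measurable_fst)
  · simp only [h, if_false]
    exact (measurable_pi_apply (i - n)).comp measurable_snd

theorem map_glue [Fintype S] [Nonempty S] [MeasurableSpace S] [DiscreteMeasurableSpace S]
    (inv : S → S) (hinv : ∀ s, inv (inv s) = s) (n : ℕ) :
    ((mlaw S).prod (mlaw S)).map (glue inv n) = mlaw S := by
  classical
  unfold mlaw
  apply Measure.eq_infinitePi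
  intro F t ht
  obtain ⟨M, hM⟩ : ∃ M, ∀ i ∈ F, i < n + M := by
    obtain ⟨M, hM⟩ := F.exists_nat_subset_range
    exact ⟨M, fun i hi => by have := Finset.mem_range.1 (hM hi); omega⟩
  let u : ℕ → Set S := fun i => if i ∈ F then t i else Set.univ
  have hu : ∀ i, MeasurableSet (u i) := fun i => MeasurableSet.of_discrete
  have hinvm : ∀ A : Set S, unif S (inv ⁻¹' A) = unif S A := by
    intro A
    have hb : Function.Bijective inv :=
      ⟨fun a b h => by rw [← hinv a, h, hinv], fun a => ⟨inv a, hinv a⟩⟩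
    let e : S ≃ S := Equiv.ofBijective inv hb
    unfold unif
    rw [PMF.toMeasure_uniformOfFintype_apply _ (MeasurableSet.of_discrete),
      PMF.toMeasure_uniformOfFintype_apply _ (MeasurableSet.of_discrete)]
    congr 2
    exact Fintype.card_congr (Equiv.subtypeEquiv e fun a => Iff.rfl)
  have hset : glue inv n ⁻¹' (Set.pi (F : Set ℕ) t) =
      (Set.pi ((Finset.range n : Finset ℕ) : Set ℕ) (fun i => inv ⁻¹' u (n - 1 - i))) ×ˢ
        Set.pi ((Finset.range M : Finset ℕ) : Set ℕ) (fun i => u (n + i)) := by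
    ext p
    simp only [Set.mem_preimage, Set.mem_pi, Finset.mem_coe, Set.mem_prod, Finset.mem_range]
    constructor
    · intro h
      refine ⟨fun i hi => ?_, fun i hi => ?_⟩
      · simp only [u]
        split_ifs with h0
        · have h1 := h _ h0
          unfold glue at h1
          rw [if_pos (by omega)] at h1
          have e : n - 1 - (n - 1 - i) = i := by omega
          rw [e] at h1
          exact h1
        · trivial
      · simp only [u]
        split_ifs with h0
        · have h1 := h _ h0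
          unfold glue at h1
          rw [if_neg (by omega)] at h1
          have e : n + i - n = i := by omega
          rw [e] at h1
          exact h1
        · trivial
    · rintro ⟨h0, h1⟩ i hi
      unfold glue
      split_ifs with hin
      · have h2 := h0 (n - 1 - i) (by omega)
        have e : n - 1 - (n - 1 - i) = i := by omega
        rw [e] at h2
        simpa [u, hi] using h2
      · have h2 := h1 (i - n) (by have := hM i hi; omega)
        have e : n + (i - n) = i := by omega
        rw [e] at h2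
        simpa [u, hi] using h2
  rw [Measure.map_apply (measurable_glue inv n)
    (MeasurableSet.pi F.countable_toSet fun i _ => ht i), hset, Measure.prod_prod,
    Measure.infinitePi_pi _ (fun i _ => MeasurableSet.of_discrete),
    Measure.infinitePi_pi _ (fun i _ => MeasurableSet.of_discrete)]
  have h1 : ∏ i ∈ F, unif S (t i) = ∏ i ∈ Finset.range (n + M), unif S (u i) := by
    have h2 : F ⊆ Finset.range (n + M) := fun i hi => Finset.mem_range.2 (hM i hi)
    rw [← Finset.prod_subset h2 (f := fun i => unif S (u i))]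
    · refine Finset.prod_congr rfl fun i hi => ?_
      simp [u, hi]
    · intro i _ hi
      simp [u, hi]
  rw [h1, Finset.prod_range_add]
  congr 1
  simp only [hinvm]
  exact Finset.prod_range_reflect (fun i => unif S (u i)) n

end Glue

section Pos

variable {Γ : Type} [Group Γ] {S : Finset Γ}

theorem pos_zero (c : ℕ → S) : pos (Γ := Γ) c 0 = 1 := rfl

theorem pos_succ (c : ℕ → S) (n : ℕ) : pos (Γ := Γ) c (n + 1) = pos c n * (c n : Γ) := rfl

/-- inverse of a move -/
def invS (hS : ∀ s ∈ S, s⁻¹ ∈ S) (s : S) : S := ⟨(s : Γ)⁻¹, hS s s.2⟩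

theorem invS_invS (hS : ∀ s ∈ S, s⁻¹ ∈ S) (s : S) : invS hS (invS hS s) = s := by
  apply Subtype.ext
  simp [invS]

theorem pos_glue_le (hS : ∀ s ∈ S, s⁻¹ ∈ S) (n : ℕ) (p : (ℕ → S) × (ℕ → S)) (k : ℕ)
    (hk : k ≤ n) : pos (glue (invS hS) n p) k = (pos p.1 n)⁻¹ * pos p.1 (n - k) := by
  induction k with
  | zero => simp [pos_zero]
  | succ k ih =>
    rw [pos_succ, ih (by omega)]
    have e1 : ((glue (invS hS) n p k : S) : Γ) = ((p.1 (n - 1 - k) : S) : Γ)⁻¹ := by
      unfold glue
      rw [if_pos (by omega)]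
      rfl
    have e2 : n - k = (n - (k + 1)) + 1 := by omega
    have e3 : n - 1 - k = n - (k + 1) := by omega
    rw [e1, e2, pos_succ, e3, mul_assoc, mul_assoc, mul_inv_cancel, mul_one]

theorem pos_glue_ge (hS : ∀ s ∈ S, s⁻¹ ∈ S) (n : ℕ) (p : (ℕ → S) × (ℕ → S)) (j : ℕ) :
    pos (glue (invS hS) n p) (n + j) = (pos p.1 n)⁻¹ * pos p.2 j := by
  induction j with
  | zero => rw [add_zero, pos_glue_le hS n p n le_rfl, Nat.sub_self, pos_zero, pos_zero]
  | succ j ih =>
    have e1 : glue (invS hS) n p (n + j) = p.2 j := by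
      unfold glue
      rw [if_neg (by omega), Nat.add_sub_cancel_left]
    rw [← add_assoc, pos_succ, ih, pos_succ, mul_assoc, e1]

/-- weak records without return to `M` -/
def Rcd (h : Γ → ℤ) (M : Set Γ) (n : ℕ) (c : ℕ → S) : Prop :=
  (∀ j, 1 ≤ j → j ≤ n → pos c j ∉ M) ∧ ∀ j ≤ n, h (pos c n) ≤ h (pos c j)

theorem h_one {h : Γ → ℤ} (hh : ∀ x y, h (x * y) = h x + h y) : h 1 = 0 := by
  have := hh 1 1
  rw [mul_one] at this
  linarith

theorem h_inv {h : Γ → ℤ} (hh : ∀ x y, h (x * y) = h x + h y) (x : Γ) : h x⁻¹ = -h x := by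
  have := hh x⁻¹ x
  rw [inv_mul_cancel, h_one hh] at this
  linarith

theorem spec_glue (hS : ∀ s ∈ S, s⁻¹ ∈ S) (h : Γ → ℤ) (hh : ∀ x y, h (x * y) = h x + h y)
    (M : Set Γ) (N n : ℕ) (h1 : 1 ≤ n) (h2 : n ≤ N)
    (p : (ℕ → S) × (ℕ → S)) (hr : Rcd h M n p.1) (hn : ∀ j, 1 ≤ j → pos p.2 j ∉ M) :
    Spec h M N (glue (invS hS) n p) n := by
  refine ⟨h1, h2, fun k hk => ?_, fun k hk hkn => ?_⟩
  · rw [pos_glue_le hS n p k hk, hh, h_inv hh]
    have := hr.2 (n - k) (by omega)
    linarith
  · rw [pos_glue_le hS n p n le_rfl, Nat.sub_self, pos_zero, mul_one, inv_inv]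
    rcases lt_or_ge k n with hlt | hge
    · rw [pos_glue_le hS n p k hlt.le, mul_inv_cancel_left]
      exact hr.1 (n - k) (by omega) (by omega)
    · obtain ⟨j, rfl⟩ := Nat.exists_eq_add_of_le hge
      rw [pos_glue_ge, mul_inv_cancel_left]
      exact hn j (by omega)

theorem spec_prob [Nonempty S] [MeasurableSpace S] [DiscreteMeasurableSpace S]
    (hS : ∀ s ∈ S, s⁻¹ ∈ S) (h : Γ → ℤ) (hh : ∀ x y, h (x * y) = h x + h y)
    (M : Set Γ) (N n : ℕ) (h1 : 1 ≤ n) (h2 : n ≤ N) :
    mlaw S {c | Rcd h M n c} * mlaw S {c | ∀ j, 1 ≤ j → pos c j ∉ M}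
      ≤ mlaw S {c | Spec h M N c n} := by
  rw [← Measure.prod_prod]
  have h3 := Measure.le_map_apply (μ := (mlaw S).prod (mlaw S))
    (measurable_glue (invS hS) n).aemeasurable {c | Spec h M N c n}
  rw [map_glue (invS hS) (invS_invS hS) n] at h3
  refine le_trans (measure_mono ?_) h3
  rintro p ⟨hp1, hp2⟩
  exact spec_glue hS h hh M N n h1 h2 p hp1 hp2

/-- many records -/
theorem many_records (f : ℕ → ℤ) (L : ℕ) (hL : 1 ≤ L) (h0 : f 0 = 0)
    (hstep : ∀ n, f n - L ≤ f (n + 1)) (K N : ℕ) (hN : ∃ n ≤ N, f n ≤ -((K : ℤ) * L)) :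
    K ≤ ((Finset.Icc 1 N).filter fun n => ∀ j ≤ n, f n ≤ f j).card := by
  classical
  have hex : ∀ i : ℕ, i < K → ∃ n, f n ≤ -(((i : ℤ) + 1) * L) := by
    intro i hi
    obtain ⟨n, _, hn⟩ := hN
    refine ⟨n, hn.trans ?_⟩
    have : ((i : ℤ) + 1) * L ≤ K * L := by
      have : ((i : ℤ) + 1) ≤ K := by exact_mod_cast hi
      gcongr
    linarith
  let g : ℕ → ℕ := fun i => if hi : i < K then Nat.find (hex i hi) else 0
  have hL' : (1 : ℤ) ≤ L := by exact_mod_cast hL
  have hg1 : ∀ i, i < K → f (g i) ≤ -(((i : ℤ) + 1) * L) := by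
    intro i hi
    simp only [g, dif_pos hi]
    exact Nat.find_spec (hex i hi)
  have hg2 : ∀ i, i < K → ∀ j < g i, -(((i : ℤ) + 1) * L) < f j := by
    intro i hi j hj
    simp only [g, dif_pos hi] at hj
    exact not_le.1 (Nat.find_min (hex i hi) hj)
  have hgpos : ∀ i, i < K → 1 ≤ g i := by
    intro i hi
    by_contra hlt
    have : g i = 0 := by omega
    have h1 := hg1 i hi
    rw [this, h0] at h1
    have : 0 < ((i : ℤ) + 1) * L := by positivity
    linarith
  have hglow : ∀ i, i < K → -(((i : ℤ) + 2) * L) < f (g i) := by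
    intro i hi
    obtain ⟨m, hm⟩ := Nat.exists_eq_add_of_le (hgpos i hi)
    have h1 := hg2 i hi m (by omega)
    have h2 := hstep m
    rw [show g i = m + 1 by omega]
    have : ((i : ℤ) + 2) * L = ((i : ℤ) + 1) * L + L := by ring
    linarith
  have hgN : ∀ i, i < K → g i ≤ N := by
    intro i hi
    obtain ⟨n, hn, hn2⟩ := hN
    by_contra hlt
    have h1 := hg2 i hi n (by omega)
    have : ((i : ℤ) + 1) * L ≤ K * L := by
      have : ((i : ℤ) + 1) ≤ K := by exact_mod_cast hi
      gcongr
    linarith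
  have hinj : Set.InjOn g (Finset.range K : Set ℕ) := by
    have key : ∀ i i', i < K → i' < K → i < i' → g i ≠ g i' := by
      intro i i' hi hi' hlt he
      have h1 := hglow i hi
      have h2 := hg1 i' hi'
      rw [he] at h1
      have : ((i : ℤ) + 2) * L ≤ ((i' : ℤ) + 1) * L := by
        have : ((i : ℤ) + 2) ≤ (i' : ℤ) + 1 := by
          have : (i : ℤ) + 1 ≤ i' := by exact_mod_cast hlt
          linarith
        gcongr
      linarith
    intro i hi i' hi' he
    rw [Finset.mem_coe, Finset.mem_range] at hi hi'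
    rcases lt_trichotomy i i' with hlt | heq | hgt
    · exact absurd he (key i i' hi hi' hlt)
    · exact heq
    · exact absurd he.symm (key i' i hi' hi hgt)
  calc K = ((Finset.range K).image g).card := by
        rw [Finset.card_image_of_injOn hinj, Finset.card_range]
    _ ≤ _ := by
      apply Finset.card_le_card
      intro n hn
      rw [Finset.mem_image] at hn
      obtain ⟨i, hi, rfl⟩ := hn
      rw [Finset.mem_range] at hi
      rw [Finset.mem_filter, Finset.mem_Icc]
      refine ⟨⟨hgpos i hi, hgN i hi⟩, fun j hj => ?_⟩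
      rcases hj.lt_or_eq with hlt | heq
      · exact (hg1 i hi).trans (hg2 i hi j hlt).le
      · rw [heq]

end Pos

theorem spc : P_SPC := by
  intro Γ _ S _ _ _ hS h M hM hosc hnr A hA
  classical
  have hh := hM.hom
  set c0 := mlaw S {c | ∀ n, 1 ≤ n → pos c n ∉ M} with hc0
  have hc0le : c0 ≤ 1 := prob_le_one
  have hc0t : c0 ≠ ⊤ := ne_top_of_le_ne_top ENNReal.one_ne_top hc0le
  -- bound of the jumps
  obtain ⟨L, hL1, hL⟩ : ∃ L : ℕ, 1 ≤ L ∧ ∀ s ∈ S, -(L : ℤ) ≤ h s := by
    refine ⟨1 + ∑ s ∈ S, (h s).natAbs, by omega, fun s hs => ?_⟩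
    have h1 : (h s).natAbs ≤ ∑ s ∈ S, (h s).natAbs :=
      Finset.single_le_sum (f := fun s => (h s).natAbs) (fun _ _ => Nat.zero_le _) hs
    omega
  -- the number of records
  have hK : ∃ K : ℕ, A < K * (c0 / 2 * c0) := by
    refine ENNReal.exists_nat_mul_gt ?_ hA
    exact mul_ne_zero (ENNReal.half_pos hnr).ne' hnr
  obtain ⟨K, hK⟩ := hK
  -- the time
  set Dn : ℕ → Set (ℕ → S) := fun N => {c | ∃ n ≤ N, h (pos c n) ≤ -((K : ℤ) * L)} with hDn
  have hDm : ∀ N, MeasurableSet (Dn N) := by
    intro N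
    have e : Dn N = ⋃ n ∈ Finset.range (N + 1), {c | pos c n ∈ {x : Γ | h x ≤ -((K : ℤ) * L)}} := by
      ext c
      simp only [hDn, Set.mem_ofPred_eq, Set.mem_iUnion, Finset.mem_range, exists_prop,
        Nat.lt_succ_iff]
    rw [e]
    exact Finset.measurableSet_biUnion _ fun n _ => meas_pth_set (mg S) 1 n _
  have hDmono : Monotone Dn := by
    intro a b hab c hc
    obtain ⟨n, hn, h2⟩ := hc
    exact ⟨n, hn.trans hab, h2⟩
  have hDu : mlaw S (⋃ N, Dn N) = 1 := by
    have e : (⋃ N, Dn N) = {c | ∃ n, h (pos c n) ≤ -((K : ℤ) * L)} := by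
      ext c
      simp only [hDn, Set.mem_ofPred_eq, Set.mem_iUnion]
      constructor
      · rintro ⟨N, n, -, h2⟩; exact ⟨n, h2⟩
      · rintro ⟨n, h2⟩; exact ⟨n, n, le_rfl, h2⟩
    rw [e]
    exact hosc _
  have hlim := tendsto_measure_iUnion_atTop (μ := mlaw S) hDmono
  rw [hDu] at hlim
  have hlt : 1 - c0 / 2 < 1 :=
    ENNReal.sub_lt_self ENNReal.one_ne_top one_ne_zero (ENNReal.half_pos hnr).ne'
  obtain ⟨N, hN⟩ := (hlim.eventually (lt_mem_nhds hlt)).exists
  refine ⟨N, ?_⟩
  -- no return and many records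
  set E : Set (ℕ → S) := {c | ∀ n, 1 ≤ n → pos c n ∉ M} with hE
  have hEm : MeasurableSet E := by
    have e : E = ⋂ n : ℕ, {c | 1 ≤ n → pos c n ∈ Mᶜ} := by
      ext c
      simp only [hE, Set.mem_ofPred_eq, Set.mem_iInter, Set.mem_compl_iff]
    rw [e]
    refine MeasurableSet.iInter fun n => ?_
    by_cases hn : 1 ≤ n
    · simp only [hn, true_imp_iff]
      exact meas_pth_set (mg S) 1 n _
    · simp only [hn, false_imp_iff]
      exact MeasurableSet.univ
  have hED : c0 / 2 ≤ mlaw S (E ∩ Dn N) := by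
    have h1 : c0 ≤ mlaw S (E ∩ Dn N) + mlaw S (Dn N)ᶜ := by
      rw [hc0]
      refine (measure_mono ?_).trans (measure_union_le _ _)
      intro c hc
      by_cases hd : c ∈ Dn N
      · exact Or.inl ⟨hc, hd⟩
      · exact Or.inr hd
    have h2 : mlaw S (Dn N)ᶜ ≤ c0 / 2 := by
      rw [prob_compl_eq_one_sub (hDm N)]
      rw [tsub_le_iff_right]
      have := hN.le
      rw [tsub_le_iff_right] at this
      rwa [add_comm] at this
    have h3 : c0 / 2 + c0 / 2 ≤ mlaw S (E ∩ Dn N) + c0 / 2 := by
      rw [ENNReal.add_halves]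
      exact h1.trans (add_le_add le_rfl h2)
    have h4 : c0 / 2 ≠ ⊤ := ne_top_of_le_ne_top hc0t ENNReal.half_le_self
    exact (ENNReal.add_le_add_iff_right h4).1 h3
  have hRm : ∀ n, MeasurableSet {c : ℕ → S | Rcd h M n c} := by
    intro n
    have e : {c : ℕ → S | Rcd h M n c}
        = (⋂ j ∈ Finset.Icc 1 n, {c | pos c j ∈ Mᶜ}) ∩
          ⋃ z ∈ Finset.Icc (-((n : ℤ) * ∑ s ∈ S, |h s|)) ((n : ℤ) * ∑ s ∈ S, |h s|),
            ({c : ℕ → S | pos c n ∈ {x : Γ | h x = z}} ∩
            ⋂ j ∈ Finset.range (n + 1), {c | pos c j ∈ {x : Γ | z ≤ h x}}) := by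
      have hbd : ∀ (c : ℕ → S) (n : ℕ), |h (pos c n)| ≤ (n : ℤ) * ∑ s ∈ S, |h s| := by
        intro c n
        induction n with
        | zero => rw [pos_zero, h_one hh]; simp
        | succ n ih =>
          rw [pos_succ, hh]
          have h1 : |h (c n : Γ)| ≤ ∑ s ∈ S, |h s| :=
            Finset.single_le_sum (f := fun s => |h s|) (fun _ _ => abs_nonneg _) (c n).2
          push_cast
          calc _ ≤ |h (pos c n)| + |h (c n : Γ)| := abs_add_le _ _
            _ ≤ _ := by linarith
      ext c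
      simp only [Rcd, Set.mem_ofPred_eq, Set.mem_inter_iff, Set.mem_iInter, Set.mem_iUnion,
        Finset.mem_Icc, Finset.mem_range, Set.mem_compl_iff, exists_prop, and_imp,
        Nat.lt_succ_iff]
      refine and_congr_right fun _ => ?_
      constructor
      · intro h2
        exact ⟨h (pos c n), abs_le.1 (hbd c n), rfl, h2⟩
      · rintro ⟨z, -, h3, h4⟩ j hj
        rw [h3]
        exact h4 j hj
    rw [e]
    refine MeasurableSet.inter ?_ ?_
    · exact Finset.measurableSet_biInter _ fun j _ => meas_pth_set (mg S) 1 j _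
    · refine Finset.measurableSet_biUnion _ fun z _ => MeasurableSet.inter ?_ ?_
      · exact meas_pth_set (mg S) 1 n _
      · exact Finset.measurableSet_biInter _ fun j _ => meas_pth_set (mg S) 1 j _
  have hsum : (K : ℝ≥0∞) * (c0 / 2) ≤ ∑ n ∈ Finset.Icc 1 N, mlaw S {c | Rcd h M n c} := by
    have h1 : ∑ n ∈ Finset.Icc 1 N, mlaw S {c | Rcd h M n c}
        = ∫⁻ c, ∑ n ∈ Finset.Icc 1 N, Set.indicator {c | Rcd h M n c} 1 c ∂(mlaw S) := by
      rw [lintegral_finsetSum _ fun n _ => measurable_one.indicator (hRm n)]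
      refine Finset.sum_congr rfl fun n _ => ?_
      rw [lintegral_indicator_one (hRm n)]
    rw [h1]
    calc (K : ℝ≥0∞) * (c0 / 2) ≤ K * mlaw S (E ∩ Dn N) := by gcongr
      _ = ∫⁻ c in E ∩ Dn N, (K : ℝ≥0∞) ∂(mlaw S) := by
          rw [lintegral_const, Measure.restrict_apply_univ]
      _ ≤ ∫⁻ c in E ∩ Dn N, ∑ n ∈ Finset.Icc 1 N, Set.indicator {c | Rcd h M n c} 1 c
            ∂(mlaw S) := by
          refine setLIntegral_mono' (hEm.inter (hDm N)) ?_
          rintro c ⟨hc1, hc2⟩
          have hrec := many_records (fun n => h (pos c n)) L hL1 (by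
            simp only [pos_zero]; exact h_one hh) (by
            intro n
            simp only [pos_succ, hh]
            have := hL (c n : Γ) (c n).2
            linarith) K N hc2
          have h5 : ∑ n ∈ Finset.Icc 1 N, Set.indicator {c | Rcd h M n c} 1 c
              = (((Finset.Icc 1 N).filter fun n => ∀ j ≤ n, h (pos c n) ≤ h (pos c j)).card
                : ℝ≥0∞) := by
            rw [Finset.card_filter]
            push_cast
            refine Finset.sum_congr rfl fun n hn => ?_
            by_cases hr : ∀ j ≤ n, h (pos c n) ≤ h (pos c j)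
            · have hr2 : c ∈ {c | Rcd h M n c} := ⟨fun j hj _ => hc1 j hj, hr⟩
              rw [Set.indicator_of_mem hr2, if_pos hr]
              rfl
            · have hr2 : c ∉ {c | Rcd h M n c} := fun hx => hr hx.2
              rw [Set.indicator_of_notMem hr2, if_neg hr]
          rw [h5]
          exact_mod_cast hrec
      _ ≤ _ := setLIntegral_le_lintegral _ _
  calc A ≤ K * (c0 / 2 * c0) := hK.le
    _ = (K * (c0 / 2)) * c0 := by rw [mul_assoc]
    _ ≤ (∑ n ∈ Finset.Icc 1 N, mlaw S {c | Rcd h M n c}) * c0 := by gcongr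
    _ = ∑ n ∈ Finset.Icc 1 N, mlaw S {c | Rcd h M n c} * c0 := Finset.sum_mul _ _ _
    _ ≤ ∑ n ∈ Finset.Icc 1 N, mlaw S {c | Spec h M N c n} := by
        refine Finset.sum_le_sum fun n hn => ?_
        rw [Finset.mem_Icc] at hn
        exact spec_prob hS h hh M N n hn.1 hn.2
    _ ≤ ∑ n ∈ Finset.range (N + 1), mlaw S {c | Spec h M N c n} := by
        refine Finset.sum_le_sum_of_subset ?_
        intro n hn
        rw [Finset.mem_Icc] at hn
        rw [Finset.mem_range]
        omega

end Pool.Agent.W2helper75.FD
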