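import Pool.Agent.W2helper75.FD.Stm

/-! Piece RES: resampling one coordinate of a product measure. -/

set_option autoImplicit false

open MeasureTheory ProbabilityTheory Filter Topology
open scoped ENNReal NNReal

namespace Pool.Agent.W2helper75.FD

theorem measurable_update_pair {I D : Type} [DecidableEq I] [MeasurableSpace D] (x : I) :
    Measurable (fun p : D × (I → D) => Function.update p.2 x p.1) := by
  rw [measurable_pi_iff]
  intro i
  by_cases h : i = x
  · subst h
    simp only [Function.update_self]
    exact measurable_fst
  · simp only [Function.update_of_ne h]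
    exact (measurable_pi_apply i).comp measurable_snd

theorem res : P_RES := by
  intro I _ D _ μ _ x
  apply Measure.eq_infinitePi
  intro s t ht
  have hm := measurable_update_pair (D := D) x
  rw [Measure.map_apply hm (MeasurableSet.pi s.countable_toSet fun i _ => ht i)]
  by_cases hx : x ∈ s
  · have e : (fun p : D × (I → D) => Function.update p.2 x p.1) ⁻¹' (Set.pi (s : Set I) t)
        = (t x) ×ˢ (Set.pi ((s.erase x : Finset I) : Set I) t) := by
      ext p
      simp only [Set.mem_preimage, Set.mem_pi, Set.mem_prod, Finset.mem_coe, Finset.mem_erase]
      constructor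
      · intro h
        refine ⟨by simpa using h x hx, fun i hi => ?_⟩
        have := h i hi.2
        rwa [Function.update_of_ne hi.1] at this
      · rintro ⟨h1, h2⟩ i hi
        by_cases h : i = x
        · subst h; simpa using h1
        · rw [Function.update_of_ne h]; exact h2 i ⟨h, hi⟩
    rw [e, Measure.prod_prod, Measure.infinitePi_pi _ fun i _ => ht i,
      Finset.mul_prod_erase s (fun i => μ (t i)) hx]
  · have e : (fun p : D × (I → D) => Function.update p.2 x p.1) ⁻¹' (Set.pi (s : Set I) t)
        = Set.univ ×ˢ (Set.pi (s : Set I) t) := by
      ext p
      simp only [Set.mem_preimage, Set.mem_pi, Set.mem_prod, Finset.mem_coe, Set.mem_univ,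
        true_and]
      have : ∀ i ∈ s, Function.update p.2 x p.1 i = p.2 i := fun i hi =>
        Function.update_of_ne (by rintro rfl; exact hx hi) _ _
      constructor
      · intro h i hi; rw [← this i hi]; exact h i hi
      · intro h i hi; rw [this i hi]; exact h i hi
    rw [e, Measure.prod_prod, measure_univ, one_mul, Measure.infinitePi_pi _ fun i _ => ht i]

end Pool.Agent.W2helper75.FD
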