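import Pool.Agent.W2helper75.FD.Fin
import Pool.Agent.W2helper75.FD.Spc
import Pool.Agent.W2helper47.FD.Trn
import Pool.Agent.W2helper11.FD.QQ
import Pool.Agent.W2helper11.FD.Cne
import Pool.Agent.W2helper11.FD.Off
import Pool.Agent.W2helper66.FD.Tail
import Pool.Agent.W2helper66.FD.Osc
import Pool.Agent.W2helper82.FD.Nret
import Pool.Agent.W2helper82.FD.Gws
import Pool.Agent.W2helper71.FD.Srv

/-! Assembly of part 2 of the project FD. -/

set_option autoImplicit false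

open MeasureTheory ProbabilityTheory Filter Topology
open scoped ENNReal NNReal

namespace Pool.Agent.W2helper75.FD

theorem tc_lt_top {Γ : Type} [Group Γ] {S : Finset Γ} [Nonempty S] [MeasurableSpace S]
    {lam : ℝ≥0} (h : ∃ t0 : ℝ, ∀ t ≥ t0, 0 < law Γ S lam (Surv (mg S) t 1)) :
    tc Γ S lam < ⊤ := by
  obtain ⟨t0, ht0⟩ := h
  unfold tc
  refine lt_of_le_of_lt (sSup_le ?_) (ENNReal.ofReal_lt_top (r := t0))
  rintro _ ⟨t, ⟨-, ht⟩, rfl⟩
  refine ENNReal.ofReal_le_ofReal ?_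
  by_contra hlt
  push Not at hlt
  exact (ht0 t hlt.le).ne' ht

theorem surv_pos_asc (Γ : Type) [Group Γ] (S : Finset Γ) [Nonempty S]
    [MeasurableSpace S] [DiscreteMeasurableSpace S]
    (hS : ∀ s ∈ S, s⁻¹ ∈ S) (hgen : Subgroup.closure (S : Set Γ) = ⊤) (h : Γ → ℤ)
    (B : Subgroup Γ) (t b : Γ) (ha : Asc S h B t b) (lam : ℝ≥0) (hlam : 0 < lam) :
    ∃ t0 : ℝ, ∀ t ≥ t0, 0 < law Γ S lam (Surv (mg S) t 1) := by
  have hc := Pool.Agent.W2helper11.FD.cne Γ S h B t b ha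
  have htail := Pool.Agent.W2helper66.FD.tail Pool.Agent.W2helper47.FD.trn
    Pool.Agent.W2helper11.FD.qqp Γ S hS hgen h B t b ha
  have hosc := Pool.Agent.W2helper66.FD.osc Pool.Agent.W2helper98.FD.recur
    Pool.Agent.W2helper19.FD.wlk Γ S hS hgen h ha.hom t ha.ht
  have hn := Pool.Agent.W2helper82.FD.nret Γ S hS hgen h (cone h B t) hc t ha.ht htail
  have hs := spc Γ S hS h (cone h B t) hc hosc hn
  haveI := countable_of_closure S hgen
  exact Pool.Agent.W2helper71.FD.srv Pool.Agent.W2helper82.FD.gws Pool.Agent.W2helper11.FD.off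
    Γ S h (cone h B t) hc hs lam hlam

theorem main2 (hker : P_KER) : Main2 := by
  intro Γ _ f hf hfg S _ _ _ hS hgen lam hlam
  obtain ⟨h, B, t, b, ha⟩ := hker Γ S hS hgen f hf hfg
  exact tc_lt_top (surv_pos_asc Γ S hS hgen h B t b ha lam hlam)

end Pool.Agent.W2helper75.FD
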