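import Pool.Agent.W2helper75.FD.Stm3
import Pool.Agent.W2helper75.FD.Spc

/-! Pieces SPC3 and MON. -/

set_option autoImplicit false

open MeasureTheory ProbabilityTheory Filter Topology
open scoped ENNReal NNReal

namespace Pool.Agent.W2helper75.FD

section Pos

variable {Γ : Type} [Group Γ] {S : Finset Γ}

/-- good times of the reversed walk -/
def Rcd3 (M M' : Set Γ) (n : ℕ) (c : ℕ → S) : Prop :=
  (∀ j, 1 ≤ j → j ≤ n → pos c j ∉ M') ∧ (pos c n)⁻¹ ∈ M

theorem spec_glue3 (hS : ∀ s ∈ S, s⁻¹ ∈ S) (M M' : Set Γ) (N n : ℕ) (h1 : 1 ≤ n) (h2 : n ≤ N)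
    (p : (ℕ → S) × (ℕ → S)) (hr : Rcd3 M M' n p.1) (hn : ∀ j, 1 ≤ j → pos p.2 j ∉ M') :
    Spec3 M M' N (glue (invS hS) n p) n := by
  refine ⟨h1, h2, ?_, fun k hk hkn => ?_⟩
  · rw [pos_glue_le hS n p n le_rfl, Nat.sub_self, pos_zero, mul_one]
    exact hr.2
  · rw [pos_glue_le hS n p n le_rfl, Nat.sub_self, pos_zero, mul_one, inv_inv]
    rcases lt_or_ge k n with hlt | hge
    · rw [pos_glue_le hS n p k hlt.le, mul_inv_cancel_left]
      exact hr.1 (n - k) (by omega) (by omega)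
    · obtain ⟨j, rfl⟩ := Nat.exists_eq_add_of_le hge
      rw [pos_glue_ge, mul_inv_cancel_left]
      exact hn j (by omega)

theorem spec_prob3 [Nonempty S] [MeasurableSpace S] [DiscreteMeasurableSpace S]
    (hS : ∀ s ∈ S, s⁻¹ ∈ S) (M M' : Set Γ) (N n : ℕ) (h1 : 1 ≤ n) (h2 : n ≤ N) :
    mlaw S {c | Rcd3 M M' n c} * mlaw S {c | ∀ j, 1 ≤ j → pos c j ∉ M'}
      ≤ mlaw S {c | Spec3 M M' N c n} := by
  rw [← Measure.prod_prod]
  have h3 := Measure.le_map_apply (μ := (mlaw S).prod (mlaw S))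
    (measurable_glue (invS hS) n).aemeasurable {c | Spec3 M M' N c n}
  rw [map_glue (invS hS) (invS_invS hS) n] at h3
  refine le_trans (measure_mono ?_) h3
  rintro p ⟨hp1, hp2⟩
  exact spec_glue3 hS M M' N n h1 h2 p hp1 hp2

end Pos

open Classical in
theorem spc3 : P_SPC3 := by
  intro Γ _ S _ _ _ hS M M' hnr hio A hA
  set c0 := mlaw S {c | ∀ n, 1 ≤ n → pos c n ∉ M'} with hc0
  have hc0le : c0 ≤ 1 := prob_le_one
  have hc0t : c0 ≠ ⊤ := ne_top_of_le_ne_top ENNReal.one_ne_top hc0le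
  have hK : ∃ K : ℕ, A < K * (c0 / 2 * c0) := by
    refine ENNReal.exists_nat_mul_gt ?_ hA
    exact mul_ne_zero (ENNReal.half_pos hnr).ne' hnr
  obtain ⟨K, hK⟩ := hK
  have hGm : ∀ n, MeasurableSet {c : ℕ → S | (pos c n)⁻¹ ∈ M} := fun n =>
    meas_pth_set (mg S) 1 n {x : Γ | x⁻¹ ∈ M}
  set ct : ℕ → (ℕ → S) → ℕ := fun N c => ∑ n ∈ Finset.Icc 1 N,
    Set.indicator {c : ℕ → S | (pos c n)⁻¹ ∈ M} (fun _ => 1) c with hct
  have hctm : ∀ N, Measurable (ct N) := fun N =>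
    Finset.measurable_fun_sum _ fun n _ => measurable_const.indicator (hGm n)
  set Dn : ℕ → Set (ℕ → S) := fun N => {c | K ≤ ct N c} with hDn
  have hDm : ∀ N, MeasurableSet (Dn N) := fun N => measurableSet_le measurable_const (hctm N)
  have hDmono : Monotone Dn := by
    intro a b hab c hc
    have h1 : K ≤ ct a c := hc
    have h2 : ct a c ≤ ct b c := Finset.sum_le_sum_of_subset (by
      intro n hn
      rw [Finset.mem_Icc] at hn ⊢
      omega)
    exact h1.trans h2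
  have hDu : mlaw S (⋃ N, Dn N) = 1 := by
    refine le_antisymm prob_le_one ?_
    rw [← hio]
    refine measure_mono ?_
    intro c hc
    have hf : ∃ᶠ n in atTop, (pos c n)⁻¹ ∈ M := hc
    have hinf : {n : ℕ | 1 ≤ n ∧ (pos c n)⁻¹ ∈ M}.Infinite := by
      rw [Nat.frequently_atTop_iff_infinite] at hf
      intro hfin
      refine hf ((hfin.insert 0).subset ?_)
      intro n hn
      rcases Nat.eq_zero_or_pos n with h0 | h0
      · exact Or.inl h0
      · exact Or.inr ⟨h0, hn⟩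
    obtain ⟨F, hF1, hF2⟩ := hinf.exists_subset_card_eq K
    obtain ⟨N, hN⟩ := F.exists_nat_subset_range
    refine Set.mem_iUnion.2 ⟨N, ?_⟩
    have h1 : F ⊆ (Finset.Icc 1 N).filter fun n => (pos c n)⁻¹ ∈ M := by
      intro n hn
      have h2 := hF1 hn
      have h3 := Finset.mem_range.1 (hN hn)
      rw [Finset.mem_filter, Finset.mem_Icc]
      exact ⟨⟨h2.1, h3.le⟩, h2.2⟩
    have h2 := Finset.card_le_card h1
    rw [hF2, Finset.card_filter] at h2
    refine h2.trans (le_of_eq ?_)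
    refine Finset.sum_congr rfl fun n _ => ?_
    simp [Set.indicator_apply]
  have hlim := tendsto_measure_iUnion_atTop (μ := mlaw S) hDmono
  rw [hDu] at hlim
  have hlt : 1 - c0 / 2 < 1 :=
    ENNReal.sub_lt_self ENNReal.one_ne_top one_ne_zero (ENNReal.half_pos hnr).ne'
  obtain ⟨N, hN⟩ := (hlim.eventually (lt_mem_nhds hlt)).exists
  refine ⟨N, ?_⟩
  set E : Set (ℕ → S) := {c | ∀ n, 1 ≤ n → pos c n ∉ M'} with hE
  have hEm : MeasurableSet E := by
    have e : E = ⋂ n : ℕ, {c | 1 ≤ n → pos c n ∈ M'ᶜ} := by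
      ext c
      simp only [hE, Set.mem_ofPred_eq, Set.mem_iInter, Set.mem_compl_iff]
    rw [e]
    refine MeasurableSet.iInter fun n => ?_
    by_cases hn : 1 ≤ n
    · simp only [hn, true_imp_iff]
      exact meas_pth_set (mg S) 1 n _
    · simp only [hn, false_imp_iff]
      exact MeasurableSet.univ
  have hED : c0 / 2 ≤ mlaw S (E ∩ Dn N) := by
    have h1 : c0 ≤ mlaw S (E ∩ Dn N) + mlaw S (Dn N)ᶜ := by
      rw [hc0]
      refine (measure_mono ?_).trans (measure_union_le _ _)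
      intro c hc
      by_cases hd : c ∈ Dn N
      · exact Or.inl ⟨hc, hd⟩
      · exact Or.inr hd
    have h2 : mlaw S (Dn N)ᶜ ≤ c0 / 2 := by
      rw [prob_compl_eq_one_sub (hDm N)]
      rw [tsub_le_iff_right]
      have := hN.le
      rw [tsub_le_iff_right] at this
      rwa [add_comm] at this
    have h3 : c0 / 2 + c0 / 2 ≤ mlaw S (E ∩ Dn N) + c0 / 2 := by
      rw [ENNReal.add_halves]
      exact h1.trans (add_le_add le_rfl h2)
    have h4 : c0 / 2 ≠ ⊤ := ne_top_of_le_ne_top hc0t ENNReal.half_le_self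
    exact (ENNReal.add_le_add_iff_right h4).1 h3
  have hRm : ∀ n, MeasurableSet {c : ℕ → S | Rcd3 M M' n c} := by
    intro n
    have e : {c : ℕ → S | Rcd3 M M' n c}
        = (⋂ j ∈ Finset.Icc 1 n, {c | pos c j ∈ M'ᶜ}) ∩ {c | (pos c n)⁻¹ ∈ M} := by
      ext c
      simp only [Rcd3, Set.mem_ofPred_eq, Set.mem_inter_iff, Set.mem_iInter,
        Finset.mem_Icc, Set.mem_compl_iff, and_imp]
    rw [e]
    exact (Finset.measurableSet_biInter _ fun j _ => meas_pth_set (mg S) 1 j _).inter (hGm n)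
  have hsum : (K : ℝ≥0∞) * (c0 / 2) ≤ ∑ n ∈ Finset.Icc 1 N, mlaw S {c | Rcd3 M M' n c} := by
    have h1 : ∑ n ∈ Finset.Icc 1 N, mlaw S {c | Rcd3 M M' n c}
        = ∫⁻ c, ∑ n ∈ Finset.Icc 1 N, Set.indicator {c | Rcd3 M M' n c} 1 c ∂(mlaw S) := by
      rw [lintegral_finsetSum _ fun n _ => measurable_one.indicator (hRm n)]
      refine Finset.sum_congr rfl fun n _ => ?_
      rw [lintegral_indicator_one (hRm n)]
    rw [h1]
    calc (K : ℝ≥0∞) * (c0 / 2) ≤ K * mlaw S (E ∩ Dn N) := by gcongr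
      _ = ∫⁻ c in E ∩ Dn N, (K : ℝ≥0∞) ∂(mlaw S) := by
          rw [lintegral_const, Measure.restrict_apply_univ]
      _ ≤ ∫⁻ c in E ∩ Dn N, ∑ n ∈ Finset.Icc 1 N, Set.indicator {c | Rcd3 M M' n c} 1 c
            ∂(mlaw S) := by
          refine setLIntegral_mono' (hEm.inter (hDm N)) ?_
          rintro c ⟨hc1, hc2⟩
          have hc3 : K ≤ ct N c := hc2
          have h5 : ∑ n ∈ Finset.Icc 1 N, Set.indicator {c | Rcd3 M M' n c} 1 c
              = ((ct N c : ℕ) : ℝ≥0∞) := by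
            rw [hct]
            push_cast
            refine Finset.sum_congr rfl fun n hn => ?_
            by_cases hr : (pos c n)⁻¹ ∈ M
            · have hr2 : c ∈ {c | Rcd3 M M' n c} := ⟨fun j hj _ => hc1 j hj, hr⟩
              have hr3 : c ∈ {c : ℕ → S | (pos c n)⁻¹ ∈ M} := hr
              rw [Set.indicator_of_mem hr2, Set.indicator_of_mem hr3]
              simp
            · have hr2 : c ∉ {c | Rcd3 M M' n c} := fun hx => hr hx.2
              have hr3 : c ∉ {c : ℕ → S | (pos c n)⁻¹ ∈ M} := hr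
              rw [Set.indicator_of_notMem hr2, Set.indicator_of_notMem hr3]
              simp
          rw [h5]
          exact_mod_cast hc3
      _ ≤ _ := setLIntegral_le_lintegral _ _
  calc A ≤ K * (c0 / 2 * c0) := hK.le
    _ = (K * (c0 / 2)) * c0 := by rw [mul_assoc]
    _ ≤ (∑ n ∈ Finset.Icc 1 N, mlaw S {c | Rcd3 M M' n c}) * c0 := by gcongr
    _ = ∑ n ∈ Finset.Icc 1 N, mlaw S {c | Rcd3 M M' n c} * c0 := Finset.sum_mul _ _ _
    _ ≤ ∑ n ∈ Finset.Icc 1 N, mlaw S {c | Spec3 M M' N c n} := by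
        refine Finset.sum_le_sum fun n hn => ?_
        rw [Finset.mem_Icc] at hn
        exact spec_prob3 hS M M' N n hn.1 hn.2
    _ ≤ ∑ n ∈ Finset.range (N + 1), mlaw S {c | Spec3 M M' N c n} := by
        refine Finset.sum_le_sum_of_subset ?_
        intro n hn
        rw [Finset.mem_Icc] at hn
        rw [Finset.mem_range]
        omega

theorem mon : P_MON := by
  intro Γ _ S H h b θ D t hs r hr
  have h1 : h 1 = 0 := by
    have := hs.h_mul 1 H.one_mem 1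
    rw [mul_one] at this
    linarith
  have hinv : ∀ x ∈ H, h x⁻¹ = -h x := by
    intro x hx
    have := hs.h_mul x⁻¹ (H.inv_mem hx) x
    rw [inv_mul_cancel, h1] at this
    linarith
  have hθ : ∀ n : ℤ, 0 < θ ^ n := fun n => zpow_pos hs.θ0 n
  have hle : ∀ n : ℤ, 0 ≤ n → θ ^ n ≤ 1 := fun n hn => by
    obtain ⟨k, rfl⟩ := Int.eq_ofNat_of_zero_le hn
    simpa using pow_le_one₀ hs.θ0.le hs.θ1.le
  have key : ∀ p q : Γ, p ∈ MM H h b θ r → q ∈ MM H h b θ r → h q ≤ h p →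
      p * q⁻¹ ∈ MW H h b (2 * r) := by
    rintro p q ⟨hp1, hp2, hp3⟩ ⟨hq1, hq2, hq3⟩ hqp
    have e1 : h (p * q⁻¹) = h p - h q := by
      rw [hs.h_mul p hp1, hinv q hq1]
      ring
    refine ⟨H.mul_mem hp1 (H.inv_mem hq1), by rw [e1]; linarith, ?_⟩
    have e2 := hs.b_mul p hp1 q⁻¹
    have e3 := hs.b_inv q hq1
    have e4 : θ ^ h p * b q⁻¹ ≤ θ ^ h p * (θ ^ (-h q) * b q) :=
      mul_le_mul_of_nonneg_left e3 (hθ _).le
    have e5 : θ ^ h p * (θ ^ (-h q) * b q) = θ ^ (h p - h q) * b q := by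
      rw [← mul_assoc, ← zpow_add₀ hs.θ0.ne']
      congr 2
    have e6 : b p ≤ r := hp3.trans (by nlinarith [hθ (h p)])
    have e7 : b q ≤ r := hq3.trans (by nlinarith [hθ (h q)])
    have e8 : θ ^ (h p - h q) * b q ≤ 1 * r :=
      mul_le_mul (hle _ (by linarith)) e7 (hs.b_nonneg q) zero_le_one
    linarith
  refine ⟨⟨H.one_mem, h1.ge, by rw [hs.b_one, h1]; simp⟩, ?_, ?_, ?_⟩
  · rintro x ⟨hx1, hx2, hx3⟩ y ⟨hy1, hy2, hy3⟩
    have e1 := hs.h_mul x hx1 y
    refine ⟨H.mul_mem hx1 hy1, by rw [e1]; linarith, ?_⟩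
    have e2 := hs.b_mul x hx1 y
    have e3 : θ ^ h x * b y ≤ θ ^ h x * (r * (1 - θ ^ h y)) :=
      mul_le_mul_of_nonneg_left hy3 (hθ _).le
    rw [e1, zpow_add₀ hs.θ0.ne']
    nlinarith
  · rintro x ⟨hx1, hx2, hx3⟩
    refine ⟨hx1, hx2, hx3.trans ?_⟩
    nlinarith [hθ (h x), mul_nonneg hr (hθ (h x)).le]
  · intro y z w hy hz
    rcases le_total (h (z⁻¹ * w)) (h (y⁻¹ * w)) with hc | hc
    · left
      have := key _ _ hy hz hc
      rwa [show y⁻¹ * w * (z⁻¹ * w)⁻¹ = y⁻¹ * z by group] at this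
    · right
      have := key _ _ hz hy hc
      rwa [show z⁻¹ * w * (y⁻¹ * w)⁻¹ = z⁻¹ * y by group] at this

end Pool.Agent.W2helper75.FD
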