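import Pool.Agent.W2helper75.FD.Stm3

/-!
# Project FD, part 3: algebra. Elementary amenable groups
-/

set_option autoImplicit false

open MeasureTheory ProbabilityTheory Filter Topology
open scoped ENNReal NNReal

namespace Pool.Agent.W2helper75.FD

/-- every infinite finitely generated group that embeds into `G` has a finite index subgroup that
maps onto `ℤ` -/
def VInd (G : Type) [Group G] : Prop := ∀ (E : Type) [Group E] (j : E →* G),
  Function.Injective j → Group.FG E → Infinite E →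
  ∃ (E' : Subgroup E) (f : E' →* Multiplicative ℤ), E'.FiniteIndex ∧ Function.Surjective f

/-- elementary amenable groups: the smallest class that contains the finite and the abelian groups
and is closed under extensions and directed unions (by a theorem of Chou it is closed under
subgroups and quotients) -/
inductive EA : ∀ (G : Type) [Group G], Prop
  | fin (G : Type) [Group G] (h : Finite G) : EA G
  | comm (G : Type) [Group G] (h : ∀ x y : G, x * y = y * x) : EA G
  | ext (G : Type) [Group G] (N : Subgroup G) [N.Normal] (h1 : EA N) (h2 : EA (G ⧸ N)) : EA G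
  | union (G : Type) [Group G] (I : Type) (K : I → Subgroup G)
      (dir : ∀ i j, ∃ k, K i ≤ K k ∧ K j ≤ K k) (cov : ∀ x : G, ∃ i, x ∈ K i)
      (h : ∀ i, EA (K i)) : EA G

/-- PIECE EAV: induction. `ext`: let `j : E → G`, `N' = j⁻¹ N`. If `E / N'` is infinite it is f.g. and
embeds into `G / N`; take the preimage of the subgroup. If it is finite then `N'` is f.g. (Schreier,
`Subgroup.fg_of_index_ne_zero` or similar), infinite and embeds into `N`. `comm`: structure of f.g.
abelian groups. `union`: `E` is finitely generated, so `j E ≤ K i` for some `i` (there is some `i` by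
`cov 1`). -/
def P_EAV : Prop := ∀ (G : Type) [Group G], EA G → VInd G

/-- PIECE CHR: `K₁ = ⋂ ker ψ` over the finitely many homomorphisms `ψ : K → Perm (Fin n)`, `n` the index
of `K'` (finitely many since `K` is finitely generated); it is characteristic (`ψ ∘ σ`), of finite
index and contained in `K'` (action on `K / K'`), and if `f x = 1` then a power `x^m`, `m ≥ 1`, is in `K₁`. -/
def P_CHR : Prop := ∀ (K : Type) [Group K], Group.FG K → ∀ (K' : Subgroup K)
  (f : K' →* Multiplicative ℤ), K'.FiniteIndex → Function.Surjective f →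
  ∃ K₁ : Subgroup K, K₁.FiniteIndex ∧ K₁.Characteristic ∧ ∃ (φ : K₁ →* Multiplicative ℤ) (x : K₁),
    φ x ≠ 1

/-- PIECE KRO: if all complex eigenvalues of `A` have absolute value `1` then (Kronecker,
`NumberField.Embeddings.pow_eq_one_of_norm_eq_one`; all conjugates are roots of the characteristic
polynomial) one of them is a root of unity, so `det (A^k - 1) = 0` for some `k ≥ 1`, and there is an
integral kernel vector (`Matrix.exists_mulVec_eq_zero_iff`). -/
def P_KRO : Prop := ∀ (m : ℕ) (A : Matrix (Fin m) (Fin m) ℤ), 0 < m → IsUnit A.det →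
  (∃ k : ℕ, 1 ≤ k ∧ ∃ v : Fin m → ℤ, v ≠ 0 ∧ (A ^ k).mulVec v = v) ∨
  ∃ (μ : ℂ) (w : Fin m → ℂ), w ≠ 0 ∧ μ ≠ 0 ∧ ‖μ‖ ≠ 1 ∧
    (A.map (Int.cast : ℤ → ℂ)).mulVec w = μ • w

/-- PIECE EIG (from KRO): `Hom(K, ℤ)` is a nonzero f.g. free abelian group (a subgroup of
`ℤ^generators`) with basis `φ_1, …, φ_m`; `φ_j ∘ σ = ∑ A_{ij} φ_i`, `det A = ±1`. `A^k v = v`: `φ = ∑ v_j φ_j` is
invariant under `σ^k`, divide by the generator of its image. `A w = μ w`: `ψ = ∑ w_j φ_j` (the `φ_j` are
linearly independent over `ℤ`, hence over `ℂ`). -/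
def P_EIG : Prop := ∀ (K : Type) [Group K], Group.FG K → ∀ (φ₀ : K →* Multiplicative ℤ) (x₀ : K),
  φ₀ x₀ ≠ 1 → ∀ σ : MulAut K,
  (∃ k : ℕ, 1 ≤ k ∧ ∃ φ : K →* Multiplicative ℤ, Function.Surjective φ ∧
    ∀ x, φ ((σ ^ k) x) = φ x) ∨
  ∃ (ψ : K → ℂ) (μ : ℂ), (∀ x y, ψ (x * y) = ψ x + ψ y) ∧ (∃ x, ψ x ≠ 0) ∧ μ ≠ 0 ∧ ‖μ‖ ≠ 1 ∧
    ∀ x, ψ (σ x) = μ * ψ x

/-- virtually onto `ℤ²` -/
def CaseA (Γ : Type) [Group Γ] : Prop := ∃ (H : Subgroup Γ) (f : H →* Multiplicative (ℤ × ℤ)),
  H.FiniteIndex ∧ Function.Surjective f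

/-- virtually onto `ℤ` with a kernel that is not finitely generated -/
def CaseB (Γ : Type) [Group Γ] : Prop := ∃ (H : Subgroup Γ) (f : H →* Multiplicative ℤ),
  H.FiniteIndex ∧ Function.Surjective f ∧ ¬ f.ker.FG

/-- a finite index subgroup acts on `ℂ` by contracting affine maps -/
def CaseC (Γ : Type) [Group Γ] : Prop := ∃ (H : Subgroup Γ) (h : Γ → ℤ) (β : Γ → ℂ) (μ : ℂ)
  (t : Γ), H.FiniteIndex ∧ CDat H h β μ t

/-- PIECE UP: from a finite index subgroup to the group (`Subgroup.map H.subtype`, functions extended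
by `0`). -/
def P_UP : Prop := ∀ (Γ : Type) [Group Γ] (H : Subgroup Γ), H.FiniteIndex →
  (CaseA H → CaseA Γ) ∧ (CaseC H → CaseC Γ)

/-- PIECE DSC (from EIG): `f t = 1`, `σ x = t x t⁻¹` on `K₁`. First case of EIG: `H = {g : k ∣ f g,
g t^{-f g} ∈ K₁}`, `g ↦ (φ (g t^{-f g}), f g / k)` is a homomorphism onto `ℤ²`. Second case: `H =
{g : g t^{-f g} ∈ K₁}` (finite index: `K₁` has finite index in the kernel), and if `|μ| < 1`: `h = f`,
`β g = ψ (g t^{-f g})`; if `|μ| > 1` the same for `-f`, `t⁻¹`, `μ⁻¹`. `lam` = values of `ψ` at generators. -/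
def P_DSC : Prop := ∀ (Γ : Type) [Group Γ] (f : Γ →* Multiplicative ℤ) (K₁ : Subgroup Γ),
  Function.Surjective f → K₁.Normal → K₁ ≤ f.ker → (K₁.subgroupOf f.ker).FiniteIndex →
  Group.FG K₁ → ∀ (φ₀ : K₁ →* Multiplicative ℤ) (x₀ : K₁), φ₀ x₀ ≠ 1 → CaseA Γ ∨ CaseC Γ

/-- PIECE CAS (from CHR, UP, DSC): `VInd` for `Γ` gives `H₁` of finite index and `f : H₁ → ℤ` onto. If
`f.ker` is not f.g.: case B. Otherwise `f.ker` is infinite (else `⟨t⟩` has finite index), so `VInd` and CHR
give `K₁` characteristic in `f.ker`, hence normal in `H₁`; `K₁` is f.g. (Schreier). DSC for the group `H₁`,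
then UP. -/
def P_CAS : Prop := ∀ (Γ : Type) [Group Γ], Group.FG Γ → VInd Γ →
  (¬ ∃ C : Subgroup Γ, C.FiniteIndex ∧ IsCyclic C) → CaseA Γ ∨ CaseB Γ ∨ CaseC Γ

end Pool.Agent.W2helper75.FD
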