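import Pool.Agent.W2helper75.FD.Fin2
import Pool.Agent.W2helper75.FD.Spc3
import Pool.Agent.W2helper75.FD.Stm4

/-! Assembly of part 3 of the project FD (relative to the pieces). -/

set_option autoImplicit false

open MeasureTheory ProbabilityTheory Filter Topology
open scoped ENNReal NNReal

namespace Pool.Agent.W2helper75.FD

/-- the criterion -/
theorem surv_sys (hosc3 : P_OSC3) (hsum : P_SUM) (hwin : P_WIN) (hfin3 : P_FIN3) (hnr3 : P_NR3)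
    (hio3 : P_IO3) (hsrv3 : P_SRV3) (Γ : Type) [Group Γ] (S : Finset Γ) [Nonempty S]
    [MeasurableSpace S] [DiscreteMeasurableSpace S] (H : Subgroup Γ) (h : Γ → ℤ) (b : Γ → ℝ)
    (θ : ℝ) (D : ℕ) (t : Γ) (hs : Sys S H h b θ D t) (h0 : Tail0 S H h b) (lam : ℝ≥0)
    (hlam : 0 < lam) : ∃ t0 : ℝ, ∀ t ≥ t0, 0 < law Γ S lam (Surv (mg S) t 1) := by
  have h1 := hosc3 Γ S H h b θ D t hs
  have h2 := hsum Γ S H h b θ D t hs
  have h3 := hwin Γ S H h b θ D t hs h0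
  have h4 := hfin3 Γ S H h b θ D t hs h2 h1 h3
  obtain ⟨r, hr, h5⟩ := hio3 Γ S H h b θ D t hs h2 h1
  have h6 := hnr3 Γ S H h b θ D t hs h4 (2 * r)
  obtain ⟨m1, m2, m3, m4⟩ := mon Γ S H h b θ D t hs r hr
  have := countable_of_closure S hs.gen
  exact hsrv3 Γ S (MM H h b θ r) (MW H h b (2 * r)) m1 m2 m3 m4
    (fun A hA => spc3 Γ S hs.sym _ _ h6 h5 A hA) lam hlam

/-- from a system on `H` -/
theorem surv_loc (hosc3 : P_OSC3) (hsum : P_SUM) (hwin : P_WIN) (hfin3 : P_FIN3) (hnr3 : P_NR3)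
    (hio3 : P_IO3) (hsrv3 : P_SRV3) (hext : P_EXT) (Γ : Type) [Group Γ] (S : Finset Γ)
    [Nonempty S] [MeasurableSpace S] [DiscreteMeasurableSpace S] (hS : ∀ s ∈ S, s⁻¹ ∈ S)
    (hgen : Subgroup.closure (S : Set Γ) = ⊤) (H : Subgroup Γ) (hH : H.FiniteIndex) (h : Γ → ℤ)
    (b : Γ → ℝ) (θ : ℝ) (t : Γ) (hs : Loc H h b θ t) (h0 : Tail0 S H h b) (lam : ℝ≥0)
    (hlam : 0 < lam) : ∃ t0 : ℝ, ∀ t ≥ t0, 0 < law Γ S lam (Surv (mg S) t 1) := by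
  obtain ⟨h', b', D, hs', e1, e2⟩ := hext Γ S H h b θ t hH hS hgen hs
  refine surv_sys hosc3 hsum hwin hfin3 hnr3 hio3 hsrv3 Γ S H h' b' θ D t hs' ?_ lam hlam
  intro R
  have h2 := h0 R
  convert h2 using 4 with n
  ext c
  simp only [Set.mem_ofPred_eq]
  constructor
  · rintro ⟨a1, a2, a3⟩
    exact ⟨a1, by rw [← e1 _ a1]; exact a2, by rw [← e2 _ a1]; exact a3⟩
  · rintro ⟨a1, a2, a3⟩
    exact ⟨a1, by rw [e1 _ a1]; exact a2, by rw [e2 _ a1]; exact a3⟩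

theorem fg_of_closure {Γ : Type} [Group Γ] (S : Finset Γ)
    (hgen : Subgroup.closure (S : Set Γ) = ⊤) : Group.FG Γ :=
  Group.fg_iff.2 ⟨S, hgen, S.finite_toSet⟩

/-- case B -/
theorem surv_caseB (hosc3 : P_OSC3) (hsum : P_SUM) (hwin : P_WIN) (hfin3 : P_FIN3) (hnr3 : P_NR3)
    (hio3 : P_IO3) (hsrv3 : P_SRV3) (hext : P_EXT) (htlb : P_TLB) (hlcb : P_LCB) (Γ : Type)
    [Group Γ] (S : Finset Γ)
    [Nonempty S] [MeasurableSpace S] [DiscreteMeasurableSpace S] (hS : ∀ s ∈ S, s⁻¹ ∈ S)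
    (hgen : Subgroup.closure (S : Set Γ) = ⊤) (hB : CaseB Γ) (lam : ℝ≥0)
    (hlam : 0 < lam) : ∃ t0 : ℝ, ∀ t ≥ t0, 0 < law Γ S lam (Surv (mg S) t 1) := by
  obtain ⟨H, f, hH, hf, hk⟩ := hB
  have := fg_of_closure S hgen
  have hHfg : Group.FG H := Subgroup.fg_of_index_ne_zero H
  obtain ⟨h, b, θ, t, hl, hr⟩ := hlcb Γ H f hHfg hf hk
  refine surv_loc hosc3 hsum hwin hfin3 hnr3 hio3 hsrv3 hext Γ S hS hgen H hH h b θ t hl ?_ lam hlam
  intro R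
  obtain ⟨B, u, v, h1, h2, h3, h4⟩ := hr R
  have h5 := htlb Γ S hS hgen B u v h1 h2 h3
  refine ne_top_of_le_ne_top h5 (ENNReal.tsum_le_tsum fun n => measure_mono ?_)
  rintro c ⟨a1, a2, a3⟩
  exact h4 _ a1 a2 a3

/-- case C -/
theorem surv_caseC (hosc3 : P_OSC3) (hsum : P_SUM) (hwin : P_WIN) (hfin3 : P_FIN3) (hnr3 : P_NR3)
    (hio3 : P_IO3) (hsrv3 : P_SRV3) (hext : P_EXT) (htlc : P_TLC) (Γ : Type)
    [Group Γ] (S : Finset Γ)
    [Nonempty S] [MeasurableSpace S] [DiscreteMeasurableSpace S] (hS : ∀ s ∈ S, s⁻¹ ∈ S)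
    (hgen : Subgroup.closure (S : Set Γ) = ⊤) (hC : CaseC Γ) (lam : ℝ≥0)
    (hlam : 0 < lam) : ∃ t0 : ℝ, ∀ t ≥ t0, 0 < law Γ S lam (Surv (mg S) t 1) := by
  obtain ⟨H, h, β, μ, t, hH, hd⟩ := hC
  have h1 : h 1 = 0 := by
    have := hd.h_mul 1 H.one_mem 1 H.one_mem
    rw [mul_one] at this
    linarith
  have hβ1 : β 1 = 0 := by
    have := hd.β_mul 1 H.one_mem 1 H.one_mem
    rw [mul_one, h1, zpow_zero, one_mul] at this
    simpa using this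
  refine surv_loc hosc3 hsum hwin hfin3 hnr3 hio3 hsrv3 hext Γ S hS hgen H hH h
    (fun g => ‖β g‖) ‖μ‖ t ?_ (htlc Γ S hS hgen H hH h β μ t hd) lam hlam
  refine ⟨norm_pos_iff.2 hd.μ0, hd.μ1, hd.h_mul, ?_, fun _ _ => norm_nonneg _, by simp [hβ1], ?_,
    hd.t_mem, hd.ht, by simp [hd.βt]⟩
  · intro x hx y hy
    simp only [hd.β_mul x hx y hy]
    refine (norm_add_le _ _).trans ?_
    rw [norm_mul, norm_zpow]
  · intro x hx
    have e := hd.β_mul x hx x⁻¹ (H.inv_mem hx)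
    rw [mul_inv_cancel, hβ1] at e
    have e2 : β x⁻¹ = -(μ ^ (-h x) * β x) := by
      have : μ ^ h x * β x⁻¹ = -β x := by linear_combination -e
      calc β x⁻¹ = μ ^ (-h x) * (μ ^ h x * β x⁻¹) := by
            rw [← mul_assoc, ← zpow_add₀ hd.μ0]
            simp
        _ = _ := by rw [this]; ring
    rw [e2, norm_neg, norm_mul, norm_zpow]

end Pool.Agent.W2helper75.FD
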