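import Pool.Agent.W2helper75.FD.Stm4
import Pool.Agent.W2helper91.FD.Up

/-! Project FD, part 3: quotients and finite index subgroups. -/

set_option autoImplicit false

open MeasureTheory ProbabilityTheory Filter Topology
open scoped ENNReal NNReal

namespace Pool.Agent.W2helper75.FD

theorem ker_fg_iff {K : Type} [Group K] (f : K →* Multiplicative ℤ) :
    f.ker.FG ↔ Group.FG f.ker := (Group.fg_iff_subgroup_fg f.ker).symm

theorem upB {Γ : Type} [Group Γ] (H : Subgroup Γ) (hH : H.FiniteIndex) (h : CaseB H) :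
    CaseB Γ := by
  obtain ⟨K, f, hK, hf, hk⟩ := h
  let e := K.equivMapOfInjective H.subtype Subtype.coe_injective
  refine ⟨K.map H.subtype, f.comp e.symm.toMonoidHom,
    Pool.Agent.W2helper91.FD.finiteIndex_map H hH K hK, hf.comp e.symm.surjective, fun hg => hk ?_⟩
  rw [ker_fg_iff] at hg ⊢
  have := hg
  let ψ : (f.comp e.symm.toMonoidHom).ker →* f.ker :=
    { toFun := fun x => ⟨e.symm x.1, x.2⟩
      map_one' := Subtype.ext (map_one e.symm)
      map_mul' := fun x y => Subtype.ext (map_mul e.symm x.1 y.1) }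
  refine Group.fg_of_surjective (f := ψ) ?_
  rintro ⟨y, hy⟩
  refine ⟨⟨e y, ?_⟩, ?_⟩
  · rw [MonoidHom.mem_ker]
    change f (e.symm (e y)) = 1
    rw [e.symm_apply_apply]
    exact hy
  · apply Subtype.ext
    exact e.symm_apply_apply y

theorem quoA {G Q : Type} [Group G] [Group Q] (π : G →* Q) (hπ : Function.Surjective π)
    (h : CaseA Q) : CaseA G := by
  obtain ⟨K, f, hK, hf⟩ := h
  refine ⟨K.comap π, f.comp (π.subgroupComap K), ?_, ?_⟩
  · constructor
    rw [Subgroup.index_comap_of_surjective _ hπ]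
    exact hK.index_ne_zero
  · refine hf.comp ?_
    rintro ⟨y, hy⟩
    obtain ⟨x, rfl⟩ := hπ y
    exact ⟨⟨x, hy⟩, rfl⟩

theorem quoB {G Q : Type} [Group G] [Group Q] (π : G →* Q) (hπ : Function.Surjective π)
    (h : CaseB Q) : CaseB G := by
  obtain ⟨K, f, hK, hf, hk⟩ := h
  have hs : Function.Surjective (π.subgroupComap K) := by
    rintro ⟨y, hy⟩
    obtain ⟨x, rfl⟩ := hπ y
    exact ⟨⟨x, hy⟩, rfl⟩
  refine ⟨K.comap π, f.comp (π.subgroupComap K), ?_, hf.comp hs, fun hg => hk ?_⟩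
  · constructor
    rw [Subgroup.index_comap_of_surjective _ hπ]
    exact hK.index_ne_zero
  · rw [ker_fg_iff] at hg ⊢
    have := hg
    let ψ : (f.comp (π.subgroupComap K)).ker →* f.ker :=
      { toFun := fun x => ⟨π.subgroupComap K x.1, x.2⟩
        map_one' := by ext; simp
        map_mul' := fun x y => by ext; simp }
    refine Group.fg_of_surjective (f := ψ) ?_
    rintro ⟨y, hy⟩
    obtain ⟨x, rfl⟩ := hs y
    exact ⟨⟨x, hy⟩, rfl⟩

theorem quoC {G Q : Type} [Group G] [Group Q] (π : G →* Q) (hπ : Function.Surjective π)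
    (h : CaseC Q) : CaseC G := by
  obtain ⟨K, h, β, μ, t, hK, hd⟩ := h
  obtain ⟨t', rfl⟩ := hπ t
  refine ⟨K.comap π, fun g => h (π g), fun g => β (π g), μ, t', ?_, ?_⟩
  · constructor
    rw [Subgroup.index_comap_of_surjective _ hπ]
    exact hK.index_ne_zero
  · constructor
    · exact hd.μ0
    · exact hd.μ1
    · intro x hx y hy
      rw [map_mul]
      exact hd.h_mul _ hx _ hy
    · intro x hx y hy
      rw [map_mul]
      exact hd.β_mul _ hx _ hy
    · exact hd.t_mem
    · exact hd.ht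
    · exact hd.βt
    · obtain ⟨m, lam, h1, h2⟩ := hd.fg
      refine ⟨m, lam, fun i => ?_, fun x hx hx0 => h2 _ hx hx0⟩
      obtain ⟨y, hy, hy1, hy2⟩ := h1 i
      obtain ⟨x, rfl⟩ := hπ y
      exact ⟨x, hy, hy1, hy2⟩
    · obtain ⟨y, hy, hy1, hy2⟩ := hd.ne
      obtain ⟨x, rfl⟩ := hπ y
      exact ⟨x, hy, hy1, hy2⟩

end Pool.Agent.W2helper75.FD
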