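import Pool.Agent.W2helper75.FD.Stm

/-!
# Project FD, part 2: groups with a homomorphism onto `ℤ` whose kernel is not finitely generated

`h : Γ → ℤ` is a homomorphism, `t : Γ` with `h t = 1`, `B` a subgroup of the kernel with
`t B t⁻¹ ⊊ B`, and `M = ⋃_{m ≥ 0} B t^m` is a submonoid, the *cone*.  The cones `x M` are nested or
disjoint, and the walk leaves `x M` only by making `h` smaller than `h x`.  A particle at `x`
starts new particles at many elements `y` of `x M` with disjoint cones `y M`: a branching process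
inside the frog model.
-/

set_option autoImplicit false

open MeasureTheory ProbabilityTheory Filter Topology
open scoped ENNReal NNReal

namespace Pool.Agent.W2helper75.FD

/-! ## Transience from an embedded binary tree -/

/-- `qq mx o k x` is the probability that the walk started at `x` is at `o` after `k` steps -/
noncomputable def qq {X S : Type} [Fintype S] (mx : X → S → X) (o : X) : ℕ → X → ℝ
  | 0, x => by classical exact if x = o then 1 else 0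
  | k + 1, x => (∑ s, qq mx o k (mx x s)) / (Fintype.card S : ℝ)

/-- the end point of a word of moves -/
def run {X S : Type} (mx : X → S → X) (x : X) (l : List S) : X := l.foldl mx x

/-- vertices of the embedded binary tree: from each vertex the words `w false`, `w true` are
followed -/
def vtx {X S : Type} (mx : X → S → X) (o : X) (w : Bool → List S) : List Bool → X
  | [] => o
  | a :: u => run mx (vtx mx o w u) (w a)

/-- PIECE TRN: a symmetric walk with an embedded binary tree has bounded Green function.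
`P f x = (∑ s, f (mx x s))/|S|`; every `mx · s` is a bijection of `X`. Put `g = ∑_{k<n} qq k`
(finitely supported, `≥ 0`, `g - P g = 1_o - qq n`, `∑ x, g x = n`), and
`D = ∑ x, ∑ s, (g x - g (mx x s))² = 2|S| ∑ x, g x (g x - P g x) ≤ 2 |S| g o`. Let `a_k` be the average
of `g (vtx u)` over the `2^k` lists `u` of length `k`. Along the words `w a`, for a fixed position in
the word the vertices reached from the `vtx u`, `|u| = k`, are distinct, so by Cauchy-Schwarz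
`|a_k - a_{k+1}| ≤ 2^{-(k+1)} (|w false| + |w true|) √(2^k) √D`. Also `a_K ≤ 2^{-K} n`. Hence
`g o = a_0 ≤ C √D ≤ C √(2|S| g o)`, so `g o ≤ 2 C² |S|`. -/
def P_TRN : Prop := ∀ (X S : Type) [Fintype S] [Nonempty S] (mx : X → S → X) (inv : S → S)
  (_ : ∀ s, inv (inv s) = s) (_ : ∀ x s, mx (mx x s) (inv s) = x) (o : X) (w : Bool → List S)
  (_ : ∀ u u' : List Bool, u.length = u'.length → vtx mx o w u = vtx mx o w u' → u = u'),
  ∃ C : ℝ, ∀ n : ℕ, ∑ k ∈ Finset.range n, qq mx o k o ≤ C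

/-- PIECE QQ: `qq` is a probability (split off the first coordinate, `map_cns` in
`Pool.Agent.W2helper19.FD.Wlk`). -/
def P_QQ : Prop := ∀ (X S : Type) [Fintype S] [Nonempty S] [MeasurableSpace S]
  [DiscreteMeasurableSpace S] (mx : X → S → X) (o x : X) (k : ℕ),
  mlaw S {c | pth mx x c k = o} = ENNReal.ofReal (qq mx o k x)

/-! ## Groups -/

/-- the moves of the Cayley graph -/
def mg {Γ : Type} [Group Γ] (S : Finset Γ) (g : Γ) (s : S) : Γ := g * (s : Γ)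

/-- the position of the walk from `1` -/
def pos {Γ : Type} [Group Γ] {S : Finset Γ} (c : ℕ → S) (n : ℕ) : Γ := pth (mg S) 1 c n

/-- the data of a strictly ascending structure -/
structure Asc {Γ : Type} [Group Γ] (S : Finset Γ) (h : Γ → ℤ) (B : Subgroup Γ) (t b : Γ) :
    Prop where
  hom : ∀ x y, h (x * y) = h x + h y
  ht : h t = 1
  hB : ∀ x ∈ B, h x = 0
  conj : ∀ x ∈ B, t * x * t⁻¹ ∈ B
  hb : b ∈ B
  strict : t⁻¹ * b * t ∉ B
  gens : ∀ s ∈ S, ∀ m : ℕ, t ^ m * (s * t ^ (-h s)) * (t ^ m)⁻¹ ∈ B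

/-- the cone of `1` -/
def cone {Γ : Type} [Group Γ] (h : Γ → ℤ) (B : Subgroup Γ) (t : Γ) : Set Γ :=
  {x | 0 ≤ h x ∧ x * t ^ (-h x) ∈ B}

/-- properties of the cone `M` of `1`; the cone of `x` is `x M` -/
structure IsCone {Γ : Type} [Group Γ] (S : Finset Γ) (h : Γ → ℤ) (M : Set Γ) : Prop where
  hom : ∀ x y, h (x * y) = h x + h y
  one : (1 : Γ) ∈ M
  mul : ∀ x ∈ M, ∀ y ∈ M, x * y ∈ M
  pos : ∀ x ∈ M, 0 ≤ h x
  stp : ∀ x ∈ M, ∀ s ∈ S, 0 ≤ h (x * s) → x * s ∈ M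
  dis : ∀ x y z, x⁻¹ * z ∈ M → y⁻¹ * z ∈ M → x⁻¹ * y ∈ M ∨ y⁻¹ * x ∈ M

/-- PIECE KER: if the kernel of a homomorphism onto `ℤ` is not finitely generated then there is a
strictly ascending structure. Let `h t = 1`, `a_s = s t^{-h s}` (`s ∈ S`), `K = ker h`. Let
`B₊ = ⟨t^j a_s t^{-j} : j ≥ 0⟩`, then `t B₊ t⁻¹ ≤ B₊`. If `t⁻¹ b t ∉ B₊` for some `b ∈ B₊` done
(with `h, t, B₊`). Otherwise `B₊` is normalised by `t` and contains the `a_s`, so it is normal with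
`Γ = B₊ ⟨t⟩`, hence `B₊ = K`. Same for `-h`, `t⁻¹`, `B₋ = ⟨t^{-j} a_s t^j : j ≥ 0⟩`. If both are equal to
`K`, then `t⁻¹ a_s t ∈ B₊` and `t a_s t⁻¹ ∈ B₋`, so for large `J` the group
`F = ⟨t^j a_s t^{-j} : 0 ≤ j ≤ J⟩` is normalised by `t` (`t⁻¹ F t ≤ F`, and
`t^{J+1} a_s t^{-(J+1)} = t^J (t a_s t⁻¹) t^{-J} ∈ ⟨t^{J-j} a t^{-(J-j)} : 0 ≤ j ≤ J⟩`), so `F = K` is finitely
generated. -/
def P_KER : Prop := ∀ (Γ : Type) [Group Γ] (S : Finset Γ) (_ : ∀ s ∈ S, s⁻¹ ∈ S)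
  (_ : Subgroup.closure (S : Set Γ) = ⊤) (f : Γ →* Multiplicative ℤ) (_ : Function.Surjective f)
  (_ : ¬ f.ker.FG), ∃ (h : Γ → ℤ) (B : Subgroup Γ) (t b : Γ), Asc S h B t b

/-- PIECE CNE: the cone is a cone. `x = β t^m`, `β ∈ B`; `t^m B t^{-m} ≤ B`. -/
def P_CNE : Prop := ∀ (Γ : Type) [Group Γ] (S : Finset Γ) (h : Γ → ℤ) (B : Subgroup Γ) (t b : Γ),
  Asc S h B t b → IsCone S h (cone h B t)

/-- PIECE TAIL: (TRN and QQ are hypotheses of the proof) the walk is rarely in the lower part of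
the cone. `X = B\Γ = Quotient (QuotientGroup.rightRel B)`, `mx [g] s = [g s]`, `o = [1]`,
`w false`, `w true` words for `t⁻¹`, `t⁻¹ b`. `vtx u` (`|u| = k`) is `B g` with `g = t^{-k} γ`, `γ ∈ B`;
if `B g t⁻¹ β = B g' t⁻¹ β'` with `β, β' ∈ {1, b}` then `γ (t⁻¹ β β'⁻¹ t) γ'⁻¹ ∈ t^k B t^{-k}`, so
`t⁻¹ β β'⁻¹ t ∈ B`, `β = β'` by `strict`, and `B g = B g'`. So `∑_n P(pos n ∈ B) < ∞` (`pos n ∈ B` iff the
walk on `X` is at `o`). For `m ≥ 0`: `t^{-m}` is `pos k` with positive probability for some `k`, so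
`ε P(pos n ∈ B t^m) ≤ P(pos (n+k) ∈ B)`. The lower part `{h < L}` of the cone is
`⋃_{0 ≤ m < L} B t^m`. -/
def P_TAIL : Prop := ∀ (Γ : Type) [Group Γ] (S : Finset Γ) [Nonempty S] [MeasurableSpace S]
  [DiscreteMeasurableSpace S] (_ : ∀ s ∈ S, s⁻¹ ∈ S) (_ : Subgroup.closure (S : Set Γ) = ⊤)
  (h : Γ → ℤ) (B : Subgroup Γ) (t b : Γ), Asc S h B t b → ∀ L : ℤ,
  ∑' n : ℕ, mlaw S {c | pos c n ∈ cone h B t ∧ h (pos c n) < L} ≠ ⊤

/-- PIECE OSC: (REC and WLK are hypotheses of the proof) the heights are unbounded below.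
`X = ℤ`, `mx z s = z + h s`, symmetric, irreducible; cutoffs `max 0 (1 - |z - y|/R)` have energy
`O(1/R)`; so `0` hits `y = -K` almost surely. -/
def P_OSC : Prop := ∀ (Γ : Type) [Group Γ] (S : Finset Γ) [Nonempty S] [MeasurableSpace S]
  [DiscreteMeasurableSpace S] (_ : ∀ s ∈ S, s⁻¹ ∈ S) (_ : Subgroup.closure (S : Set Γ) = ⊤)
  (h : Γ → ℤ) (_ : ∀ x y, h (x * y) = h x + h y) (t : Γ) (_ : h t = 1) (K : ℤ),
  mlaw S {c | ∃ n, h (pos c n) ≤ -K} = 1

/-- PIECE NRET: with positive probability the walk never returns to the cone. Suppose not. For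
`g ∈ Γ` let `v g = P(∃ n, g · pos n ∈ M)`. Then `v = 1` on `M`, and `v (s) = 1` for the neighbours of `1`,
also of every `g ∈ M` (as `g M ⊆ M`), and `v g = 1` implies `v (g s) = 1` for `g ∉ M` by the first step;
so `v = 1` everywhere. A first entrance into `M` from outside is in `M ∩ {h < L}`, `L = max |h s| + 1`.
So `E_0 g := P(∃ n ≥ 0, g · pos n ∈ M, h < L) = 1` for `g ∉ M`, and
`P(∃ n ≥ N, pos n ∈ M, h < L) = E[E_0(pos N)] ≥ P(h (pos N) < 0)`. The left side tends to `0` by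
`htail`; but by symmetry `P(h (pos N) < 0 or h (pos (N+1)) < 0) ≥ 1/(2|S|)`
(`P(h < 0) = P(h > 0)` at time `N`; from height `0` some step goes down). -/
def P_NRET : Prop := ∀ (Γ : Type) [Group Γ] (S : Finset Γ) [Nonempty S] [MeasurableSpace S]
  [DiscreteMeasurableSpace S] (_ : ∀ s ∈ S, s⁻¹ ∈ S) (_ : Subgroup.closure (S : Set Γ) = ⊤)
  (h : Γ → ℤ) (M : Set Γ) (_ : IsCone S h M) (t : Γ) (_ : h t = 1)
  (_ : ∀ L : ℤ, ∑' n : ℕ, mlaw S {c | pos c n ∈ M ∧ h (pos c n) < L} ≠ ⊤),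
  mlaw S {c | ∀ n, 1 ≤ n → pos c n ∉ M} ≠ 0

/-- special times `n ∈ [1, N]`: the walk did not leave `{h ≥ 0}` before, and it is in the cone of
its position at time `n` at no other time up to `N` -/
def Spec {Γ : Type} [Group Γ] {S : Finset Γ} (h : Γ → ℤ) (M : Set Γ) (N : ℕ) (c : ℕ → S)
    (n : ℕ) : Prop :=
  1 ≤ n ∧ n ≤ N ∧ (∀ k ≤ n, 0 ≤ h (pos c k)) ∧ ∀ k ≤ N, k ≠ n → (pos c n)⁻¹ * pos c k ∉ M

/-- PIECE SPC: the expected number of special times is unbounded. With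
`c₀ = P(∀ n ≥ 1, pos n ∉ M) > 0`: the conditions on times `> n` have probability at least `c₀` and are
independent of the conditions on times `≤ n`. Time reversal `(c_0, …, c_{n-1}) ↦
(c_{n-1}⁻¹, …, c_0⁻¹)` turns the conditions on times `≤ n` into: `pos j ∉ M` for `1 ≤ j ≤ n`, and
`h (pos n) ≤ h (pos j)` for all `j ≤ n` (a weak record). So the expected number is at least
`c₀ E[number of records n ≤ N with pos j ∉ M for 1 ≤ j ≤ n] ≥ c₀ E[number of records ≤ N; pos j ∉ M for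
all j ≥ 1]`, and if `inf h ≤ -K` up to time `N` there are at least `K/L` records, `L = max |h s|`. -/
def P_SPC : Prop := ∀ (Γ : Type) [Group Γ] (S : Finset Γ) [Nonempty S] [MeasurableSpace S]
  [DiscreteMeasurableSpace S] (_ : ∀ s ∈ S, s⁻¹ ∈ S) (h : Γ → ℤ) (M : Set Γ)
  (_ : IsCone S h M) (_ : ∀ K : ℤ, mlaw S {c | ∃ n, h (pos c n) ≤ -K} = 1)
  (_ : mlaw S {c | ∀ n, 1 ≤ n → pos c n ∉ M} ≠ 0) (A : ℝ≥0∞) (_ : A ≠ ⊤),
  ∃ N : ℕ, A ≤ ∑ n ∈ Finset.range (N + 1), mlaw S {c | Spec h M N c n}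

/-! ## Branching -/

/-- `v` has descendants in generation `m` -/
def Alive {V D : Type} (ch : V → D → Finset V) (ω : V → D) : ℕ → V → Prop
  | 0, _ => True
  | m + 1, v => ∃ x ∈ ch v (ω v), Alive ch ω m x

/-- PIECE GWS: survival of the branching process. Induction on `m` for all `v`: `Alive m v` depends
only on the `ω` of the cone of `v`. By P_RES, `P(¬ Alive (m+1) v) = ∫ d, P(∀ x ∈ ch v d, ¬ Alive m x)`, and for
fixed `d` the events are independent (disjoint cones), so this is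
`∫ d, ∏_{x ∈ ch v d} P(¬ Alive m x) ≤ ∫ d, (1-r)^{|ch v d|} ≤ 1 - r`. -/
def P_GWS : Prop := ∀ (V D : Type) [Countable V] [MeasurableSpace D] [Nonempty D] (μ : Measure D)
  [IsProbabilityMeasure μ] (cn : V → Set V) (ch : V → D → Finset V)
  (_ : ∀ v F, MeasurableSet {d | ch v d = F}) (_ : ∀ v, v ∈ cn v)
  (_ : ∀ v d, ∀ x ∈ ch v d, cn x ⊆ cn v ∧ v ∉ cn x)
  (_ : ∀ v d, ∀ x ∈ ch v d, ∀ y ∈ ch v d, x ≠ y → Disjoint (cn x) (cn y)) (r : ℝ≥0∞) (_ : r ≤ 1)
  (_ : ∀ v, ∫⁻ d, (1 - r) ^ (ch v d).card ∂μ ≤ 1 - r) (m : ℕ) (v : V),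
  r ≤ (Measure.infinitePi fun _ : V => μ) {ω | Alive ch ω m v}

/-- PIECE OFF: bounded offspring with mean at least two: `(1-r)^k ≤ 1 - k r + k² r²`, `r ≤ 1/N²`. -/
def P_OFF : Prop := ∀ N : ℕ, ∃ r : ℝ≥0∞, 0 < r ∧ r ≤ 1 ∧ ∀ (D : Type) [MeasurableSpace D]
  (μ : Measure D) [IsProbabilityMeasure μ] (f : D → ℕ), Measurable f → (∀ d, f d ≤ N) →
  2 ≤ ∫⁻ d, (f d : ℝ≥0∞) ∂μ → ∫⁻ d, (1 - r) ^ (f d) ∂μ ≤ 1 - r

/-- PIECE SRV: assembly (SPC, GWS, OFF are hypotheses of the proof). Choose `N` with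
`∑_n P(Spec N n) ≥ 4 / (1 - e^{-lam})`, then `t` with `P(∑_{j<N} T_j ≤ t) ≥ 1/2`. Children of `g`: if
`g` has a particle and the first `N` waiting times of particle `0` have sum `≤ t`, the elements
`g · pos n`, `n` special for the moves of particle `0`. They are visited if `g` is. Cones `g M`.
`Alive m 1` gives `m + 1` distinct visited vertices; intersect over `m`. -/
def P_SRV : Prop := ∀ (Γ : Type) [Group Γ] [Countable Γ] (S : Finset Γ) [Nonempty S]
  [MeasurableSpace S] [DiscreteMeasurableSpace S] (h : Γ → ℤ) (M : Set Γ)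
  (_ : IsCone S h M)
  (_ : ∀ A : ℝ≥0∞, A ≠ ⊤ → ∃ N : ℕ, A ≤ ∑ n ∈ Finset.range (N + 1), mlaw S {c | Spec h M N c n})
  (lam : ℝ≥0) (_ : 0 < lam),
  ∃ t0 : ℝ, ∀ t ≥ t0, 0 < law Γ S lam (Surv (mg S) t 1)

/-- the main statement of part 2 -/
def Main2 : Prop := ∀ (Γ : Type) [Group Γ] (f : Γ →* Multiplicative ℤ)
  (_ : Function.Surjective f) (_ : ¬ f.ker.FG) (S : Finset Γ) [Nonempty S]
  [MeasurableSpace S] [DiscreteMeasurableSpace S]
  (_ : ∀ s ∈ S, s⁻¹ ∈ S) (_ : Subgroup.closure (S : Set Γ) = ⊤) (lam : ℝ≥0) (_ : 0 < lam),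
  tc Γ S lam < ⊤

end Pool.Agent.W2helper75.FD
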