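import Pool.Agent.W2helper75.FD.Fin3
import Pool.Agent.W2helper75.FD.Quo
import Pool.Agent.W2helper97.FD.Ker
import Pool.Agent.W2helper85.FD.Trn3
import Pool.Agent.W2helper51.FD.Grn
import Pool.Agent.W2helper97.FD.Sum
import Pool.Agent.W2helper77.FD.Win
import Pool.Agent.W2helper24.FD.Fin3
import Pool.Agent.W2helper12.FD.Nr3
import Pool.Agent.W2helper69.FD.Srv3
import Pool.Agent.W2helper91.FD.Tlb
import Pool.Agent.W2helper49.FD.Lcb
import Pool.Agent.W2helper52.FD.Tlc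
import Pool.Agent.W2helper53.FD.Eav
import Pool.Agent.W2helper53.FD.Chr
import Pool.Agent.W2helper98.FD.Kro
import Pool.Agent.W2helper2.FD.Eig
import Pool.Agent.W2helper91.FD.Up
import Pool.Agent.W2helper73.FD.Dsc
import Pool.Agent.W2helper51.FD.Cas

/-! Final theorem of part 3 of the project FD, relative to the pieces OSC3, ZO, IO3, EXT, DBL. -/

set_option autoImplicit false

open MeasureTheory ProbabilityTheory Filter Topology
open scoped ENNReal NNReal

namespace Pool.Agent.W2helper75.FD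

/-- virtually cyclic (finite groups included) -/
def VCyc (G : Type) [Group G] : Prop := ∃ C : Subgroup G, C.FiniteIndex ∧ IsCyclic C

theorem tc_case (hosc3 : P_OSC3) (hio3 : P_IO3) (hext : P_EXT) (hdbl : P_DBL) (hcap : P_CAP)
    (Γ : Type) [Group Γ] (hΓ : CaseA Γ ∨ CaseB Γ ∨ CaseC Γ) (S : Finset Γ) [Nonempty S]
    [MeasurableSpace S] [DiscreteMeasurableSpace S] (hS : ∀ s ∈ S, s⁻¹ ∈ S)
    (hgen : Subgroup.closure (S : Set Γ) = ⊤) (lam : ℝ≥0) (hlam : 0 < lam) :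
    tc Γ S lam < ⊤ := by
  have hsum := Pool.Agent.W2helper97.FD.sum3 Pool.Agent.W2helper51.FD.grn
  have hsrv := Pool.Agent.W2helper69.FD.srv3 Pool.Agent.W2helper82.FD.gws
    Pool.Agent.W2helper11.FD.off
  have htlb := Pool.Agent.W2helper91.FD.tlb Pool.Agent.W2helper47.FD.trn
    Pool.Agent.W2helper11.FD.qqp
  have htlc := Pool.Agent.W2helper52.FDT.tlc Pool.Agent.W2helper85.FD.trn3
    Pool.Agent.W2helper11.FD.qqp hdbl
  have hlcb := Pool.Agent.W2helper49.FD.lcb Pool.Agent.W2helper97.FD.kerp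
  obtain ⟨H, f, hH, hf⟩ | hB | hC := hΓ
  · exact main hcap Γ H hH f hf S hS hgen lam hlam
  · exact tc_lt_top (surv_caseB hosc3 hsum Pool.Agent.W2helper77.FD.win
      Pool.Agent.W2helper24.FD.fin3 Pool.Agent.W2helper12.FD.nr3 hio3 hsrv hext htlb hlcb
      Γ S hS hgen hB lam hlam)
  · exact tc_lt_top (surv_caseC hosc3 hsum Pool.Agent.W2helper77.FD.win
      Pool.Agent.W2helper24.FD.fin3 Pool.Agent.W2helper12.FD.nr3 hio3 hsrv hext htlc
      Γ S hS hgen hC lam hlam)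

theorem case_of_quotient (Γ : Type) [Group Γ] (hfg : Group.FG Γ) (H : Subgroup Γ)
    (hH : H.FiniteIndex) (Q : Type) [Group Q] (π : H →* Q) (hπ : Function.Surjective π)
    (hQ : EA Q ∨ VInd Q) (hc : ¬ VCyc Q) : CaseA Γ ∨ CaseB Γ ∨ CaseC Γ := by
  have hV : VInd Q := hQ.elim (Pool.Agent.W2helper53.FD.p_eav Q) id
  have hHfg : Group.FG H := Subgroup.fg_of_index_ne_zero H
  have hQfg : Group.FG Q := Group.fg_of_surjective hπ
  have hup := Pool.Agent.W2helper91.FD.up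
  have hcas := Pool.Agent.W2helper51.FD.cas Pool.Agent.W2helper53.FD.p_chr hup
    (Pool.Agent.W2helper73.FD.dsc (Pool.Agent.W2helper2.FD.p_eig Pool.Agent.W2helper98.FD.kro))
    Q hQfg hV hc
  obtain h | h | h := hcas
  · exact Or.inl ((hup Γ H hH).1 (quoA π hπ h))
  · exact Or.inr (Or.inl (upB H hH (quoB π hπ h)))
  · exact Or.inr (Or.inr ((hup Γ H hH).2 (quoC π hπ h)))

theorem main4 (hosc3 : P_OSC3) (hio3 : P_IO3) (hext : P_EXT) (hdbl : P_DBL) (hcap : P_CAP)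
    (Γ : Type) [Group Γ]
    (hΓ : (∃ (H : Subgroup Γ) (Q : Type) (_ : Group Q) (π : H →* Q), H.FiniteIndex ∧
        Function.Surjective π ∧ (EA Q ∨ VInd Q) ∧ ¬ VCyc Q) ∨ CaseB Γ)
    (S : Finset Γ) [Nonempty S]
    [MeasurableSpace S] [DiscreteMeasurableSpace S] (hS : ∀ s ∈ S, s⁻¹ ∈ S)
    (hgen : Subgroup.closure (S : Set Γ) = ⊤) (lam : ℝ≥0) (hlam : 0 < lam) :
    tc Γ S lam < ⊤ := by
  refine tc_case hosc3 hio3 hext hdbl hcap Γ ?_ S hS hgen lam hlam
  obtain ⟨H, Q, iQ, π, hH, hπ, hQ, hc⟩ | h := hΓ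
  · exact case_of_quotient Γ (fg_of_closure S hgen) H hH Q π hπ hQ hc
  · exact Or.inr (Or.inl h)

end Pool.Agent.W2helper75.FD
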