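import Pool.Agent.W2helper75.FD.Fin4
import Pool.Agent.W2helper75.FD.Blku
import Pool.Agent.W2helper71.FD.Pln
import Pool.Agent.W2helper69.FD.Recu
import Pool.Agent.W2helper93.FD.Wlku
import Pool.Agent.W2helper65.FD.Urq
import Pool.Agent.W2helper53.FD.Cap
import Pool.Agent.W2helper98.FD.Osc3
import Pool.Agent.W2helper46.FD.Zo
import Pool.Agent.W2helper46.FD.Ext
import Pool.Agent.W2helper46.FD.Dbl
import Pool.Agent.W2helper34.FD.Io3

/-! Final theorem of the project FD. -/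

set_option autoImplicit false

open MeasureTheory ProbabilityTheory Filter Topology
open scoped ENNReal NNReal

namespace Pool.Agent.W2helper75.FD

theorem surv_plane (Γ : Type) [Group Γ] (S : Finset Γ) [Nonempty S]
    [MeasurableSpace S] [DiscreteMeasurableSpace S] (hS : ∀ s ∈ S, s⁻¹ ∈ S)
    (hgen : Subgroup.closure (S : Set Γ) = ⊤) (hP : PlaneS Γ) (lam : ℝ≥0) (hlam : 0 < lam) :
    ∃ t0 : ℝ, ∀ t ≥ t0, 0 < law Γ S lam (Surv (mg S) t 1) := by
  obtain ⟨V, mv, inv, p, m, D, K, φ, h1, h2, h3, h4, h5, h6⟩ :=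
    Pool.Agent.W2helper71.FD.Pln.pln Γ S hS hgen hP
  have := countable_of_closure S hgen
  have : Countable V := h3.countable
  have hu := Pool.Agent.W2helper65.FD.urq Pool.Agent.W2helper53.FD.cap
    Pool.Agent.W2helper69.FD.recu Pool.Agent.W2helper93.FD.wlku V S mv inv h1 h2 p m D K h4
  obtain ⟨t0, ht0⟩ := Blku.blku V S mv p m D K h4 hu lam hlam (φ 1) h5
  refine ⟨t0, fun t ht => lt_of_lt_of_le (ht0 t ht) ?_⟩
  exact Pool.Agent.W2helper53.FD.cov res Γ V S (fun (g : Γ) (s : S) => g * (s : Γ))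
    mv φ h6 lam t 1

theorem main5 (Γ : Type) [Group Γ]
    (hΓ : (∃ (H : Subgroup Γ) (Q : Type) (_ : Group Q) (π : H →* Q), H.FiniteIndex ∧
        Function.Surjective π ∧ (EA Q ∨ VInd Q) ∧ ¬ VCyc Q) ∨ CaseB Γ ∨ PlaneS Γ)
    (S : Finset Γ) [Nonempty S]
    [MeasurableSpace S] [DiscreteMeasurableSpace S] (hS : ∀ s ∈ S, s⁻¹ ∈ S)
    (hgen : Subgroup.closure (S : Set Γ) = ⊤) (lam : ℝ≥0) (hlam : 0 < lam) :
    tc Γ S lam < ⊤ := by
  have hmain := main4 (Pool.Agent.W2helper98.FD.osc3 Pool.Agent.W2helper98.FD.recur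
      Pool.Agent.W2helper19.FD.wlk)
    (Pool.Agent.W2helper34.FD.io3 Pool.Agent.W2helper46.FD.p_zo)
    Pool.Agent.W2helper46.FD.p_ext Pool.Agent.W2helper46.FD.p_dbl
    Pool.Agent.W2helper53.FD.cap Γ
  obtain h | h | h := hΓ
  · exact hmain (Or.inl h) S hS hgen lam hlam
  · exact hmain (Or.inr h) S hS hgen lam hlam
  · exact tc_lt_top (surv_plane Γ S hS hgen h lam hlam)

end Pool.Agent.W2helper75.FD
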