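import Mathlib

/-!
# Project FD: the frog model with death on Cayley graphs (MP_e2f79e_pr)

`t_c(lam) < ∞` for every Cayley graph of every group that has a finite index subgroup mapping
onto `ℤ²`.

Setting. `V` is a set with moves `mv : V → S → V`, `S` finite (Cayley graph: `mv g s = g * s`).
A particle has data `c : (ℕ → ℝ) × (ℕ → S)`: the waiting times `c.1 j` (i.i.d. `Exp(1)`) and the
moves `c.2 j` (i.i.d. uniform).  It is at `pth mv v c.2 k` from time `∑_{j<k} c.1 j` on.  The data
at a vertex is `d : Dat S`: the number `d.1` of particles (Poisson(lam)), and `d.2 i` for particle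
number `i`.  The sample is `ω : V → Dat S`, i.i.d.
-/

set_option autoImplicit false

open MeasureTheory ProbabilityTheory Filter Topology
open scoped ENNReal NNReal

namespace Pool.Agent.W2helper75.FD

/-! ## The model -/

/-- position after `k` jumps -/
def pth {V S : Type} (mv : V → S → V) (v : V) (c : ℕ → S) : ℕ → V
  | 0 => v
  | k + 1 => mv (pth mv v c k) (c k)

/-- data of one particle: waiting times and moves -/
abbrev Par (S : Type) := (ℕ → ℝ) × (ℕ → S)

/-- data of one vertex: the number of particles, and the data of particle number `i` -/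
abbrev Dat (S : Type) := ℕ × (ℕ → Par S)

/-- `w` is visited during `[0, t]` by the particle with data `c` started at `v` -/
def Hits {V S : Type} (mv : V → S → V) (t : ℝ) (v : V) (c : Par S) (w : V) : Prop :=
  ∃ k : ℕ, ∑ j ∈ Finset.range k, c.1 j ≤ t ∧ pth mv v c.2 k = w

/-- `w` is visited during `[0, t]` by one of the particles of `v` -/
def Reach {V S : Type} (mv : V → S → V) (t : ℝ) (v : V) (d : Dat S) (w : V) : Prop :=
  ∃ i < d.1, Hits mv t v (d.2 i) w

/-- the vertices visited by active particles of lifetime `t`; at time `0` the particles at `o`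
are active -/
inductive Visited {V S : Type} (mv : V → S → V) (t : ℝ) (o : V) (ω : V → Dat S) : V → Prop
  | root : Visited mv t o ω o
  | step (v w : V) : Visited mv t o ω v → Reach mv t v (ω v) w → Visited mv t o ω w

/-- the uniform distribution on the finite set of moves -/
noncomputable def unif (S : Type) [Fintype S] [Nonempty S] [MeasurableSpace S] : Measure S :=
  (PMF.uniformOfFintype S).toMeasure

instance (S : Type) [Fintype S] [Nonempty S] [MeasurableSpace S] :
    IsProbabilityMeasure (unif S) := by unfold unif; infer_instance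

instance : IsProbabilityMeasure (expMeasure 1) := isProbabilityMeasure_expMeasure one_pos

/-- law of the moves of a particle -/
noncomputable def mlaw (S : Type) [Fintype S] [Nonempty S] [MeasurableSpace S] :
    Measure (ℕ → S) := Measure.infinitePi fun _ : ℕ => unif S

instance (S : Type) [Fintype S] [Nonempty S] [MeasurableSpace S] :
    IsProbabilityMeasure (mlaw S) := by unfold mlaw; infer_instance

/-- law of the waiting times of a particle -/
noncomputable def tlaw : Measure (ℕ → ℝ) := Measure.infinitePi fun _ : ℕ => expMeasure 1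

instance : IsProbabilityMeasure tlaw := by unfold tlaw; infer_instance

/-- law of the data of a particle -/
noncomputable def plaw (S : Type) [Fintype S] [Nonempty S] [MeasurableSpace S] :
    Measure (Par S) := tlaw.prod (mlaw S)

instance (S : Type) [Fintype S] [Nonempty S] [MeasurableSpace S] :
    IsProbabilityMeasure (plaw S) := by unfold plaw; infer_instance

/-- law of the data of a vertex -/
noncomputable def dlaw (S : Type) [Fintype S] [Nonempty S] [MeasurableSpace S] (lam : ℝ≥0) :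
    Measure (Dat S) := (poissonMeasure lam).prod (Measure.infinitePi fun _ : ℕ => plaw S)

instance (S : Type) [Fintype S] [Nonempty S] [MeasurableSpace S] (lam : ℝ≥0) :
    IsProbabilityMeasure (dlaw S lam) := by unfold dlaw; infer_instance

/-- law of the model: independent identically distributed data at the vertices -/
noncomputable def law (V S : Type) [Fintype S] [Nonempty S] [MeasurableSpace S] (lam : ℝ≥0) :
    Measure (V → Dat S) := Measure.infinitePi fun _ : V => dlaw S lam

instance (V S : Type) [Fintype S] [Nonempty S] [MeasurableSpace S] (lam : ℝ≥0) :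
    IsProbabilityMeasure (law V S lam) := by unfold law; infer_instance

/-- survival: infinitely many vertices are visited -/
def Surv {V S : Type} (mv : V → S → V) (t : ℝ) (o : V) : Set (V → Dat S) :=
  {ω | {v | Visited mv t o ω v}.Infinite}

/-! ## Pieces -/

/-- PIECE RES: resampling one coordinate of a product measure. Proof: `Measure.eq_infinitePi`;
the preimage of a box `Set.pi s t` under `p ↦ Function.update p.2 x p.1` is
`t x ×ˢ Set.pi (s.erase x) t` if `x ∈ s` (use `Measure.prod_prod`, `infinitePi_pi`,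
`Finset.mul_prod_erase`), and `univ ×ˢ Set.pi s t` otherwise. -/
def P_RES : Prop := ∀ (I : Type) [DecidableEq I] (D : Type) [MeasurableSpace D]
  (μ : Measure D) [IsProbabilityMeasure μ] (x : I),
  (μ.prod (Measure.infinitePi fun _ : I => μ)).map (fun p => Function.update p.2 x p.1)
    = Measure.infinitePi fun _ : I => μ

/-- PIECE COV: survival upstairs is at least as likely as survival downstairs.
Notation. For `P E : Set V` let `Cl P E ω` be the least set that contains `E` and with every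
`u ∉ P` all `w` with `Reach mv t u (ω u) w`, and `big n C` mean that `C` contains a finset of
cardinality `n`. (1) For `x ∈ E`, `x ∉ P`: `Cl P E ω = Cl (insert x P) (E ∪ Reach x (ω x)) ω`, and
`Cl P E ω` does not depend on `ω x` for `x ∈ P`; so by RES
`law {ω | big n (Cl P E ω)} = ∫⁻ d, law {ω | big n (Cl (insert x P) (E ∪ Reach x d) ω)} ∂dlaw`.
(2) Induction on `m`: if `P : Finset V` is contained in `E`, `φ` is injective on `P` with image `Q`,
`Q ⊆ F ⊆ φ '' E` and `n ≤ m + P.card`, then
`law {big n (Cl Q F)} ≤ law {big n (Cl P E)}`: if `F = Q` compare directly; otherwise pick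
`x ∈ F \ Q` and `v ∈ E` with `φ v = x`, then `v ∉ P`, apply (1) to both, `d` by `d`. (3) `Surv` is the
intersection over `n` of `{big n (Cl ∅ {o})}`; continuity from above. Measurability: levels of `Cl`,
countable unions (`V`, `X` countable). -/
def P_COV : Prop := ∀ (V X S : Type) [Countable V] [Countable X] [Fintype S] [Nonempty S]
  [MeasurableSpace S] [DiscreteMeasurableSpace S] (mv : V → S → V) (mx : X → S → X) (φ : V → X)
  (_ : ∀ v s, φ (mv v s) = mx (φ v) s) (lam : ℝ≥0) (t : ℝ) (o : V),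
  law X S lam (Surv mx t (φ o)) ≤ law V S lam (Surv mv t o)

/-- PIECE CAP: points of `ℤ²` have capacity zero (logarithmic cutoff). With `H n = ∑_{k<n} 1/(k+1)`
and `r z = max |z.1| |z.2|` (natAbs), `F z = max 0 (1 - H (r z) / H R)`; then for `|w| ≤ L`
`|F z - F (z + w)| ≤ L (L+1) / ((r z + 1) H R)`, and `= 0` if `r z > R + L`. Sum over
`Finset.box n` (`Int.card_box : #(box n) = 8 n`), `n ≤ R + L`: at most
`C (1 + H (R+L)) / (H R)² → 0`. -/
def P_CAP : Prop := ∀ (L : ℕ) (ε : ℝ), 0 < ε → ∃ F : ℤ × ℤ → ℝ, F 0 = 1 ∧ (∀ z, 0 ≤ F z) ∧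
  (∀ z, F z ≤ 1) ∧ ∃ M : ℕ, (∀ z : ℤ × ℤ, M < max z.1.natAbs z.2.natAbs → F z = 0) ∧
  ∀ w : ℤ × ℤ, w.1.natAbs ≤ L → w.2.natAbs ≤ L → ∀ A : Finset (ℤ × ℤ),
    ∑ z ∈ A, (F z - F (z + w)) ^ 2 ≤ ε

/-- the moves on `ℤ² × J` given by a `ℤ²`-valued increment and a transition of the `J`-part -/
def mvp {J S : Type} (n : J → S → J) (c : J → S → ℤ × ℤ) (x : (ℤ × ℤ) × J) (s : S) :
    (ℤ × ℤ) × J := (x.1 + c x.2 s, n x.2 s)

/-- the probability of hitting `y` in at most `n` steps -/
noncomputable def hit {X S : Type} [Fintype S] (mx : X → S → X) (y : X) : ℕ → X → ℝ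
  | 0, x => by classical exact if x = y then 1 else 0
  | n + 1, x => by classical exact
      if x = y then 1 else (∑ s, hit mx y n (mx x s)) / (Fintype.card S : ℝ)

/-- PIECE REC: recurrence of a symmetric walk from capacity zero. `(X, mx)` symmetric: every
`mx · s` has the inverse `mx · (inv s)`. Let `v_n = hit mx y n`, `P f x = (∑ s, f (mx x s))/|S|`,
`ℰ(f,g) = ∑ x, ∑ s, (f x - f (mx x s)) (g x - g (mx x s))`; for finitely supported `f`:
`∑ x, f x (g x - P g x) = ℰ(f,g)/(2|S|)`. `v_n` has finite support, is in `[0,1]` and increases in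
`n`, `(I-P) v_n x = v_n x - v_{n+1} x ≤ 0` for `x ≠ y` and `= 1 - P v_n y =: e_n` at `y`; so
`ℰ(v_n,v_n) ≤ 2|S|`. For `f` with `f y = 1`, `0 ≤ f ≤ 1`, `ℰ(f,f) ≤ ε²`:
`e_n - ∑ x ∈ supp f, f x (v_{n+1} x - v_n x) ≤ ℰ(f,v_n)/(2|S|) ≤ (ℰ(f,f)/θ + θ ℰ(v_n,v_n))/(4|S|)`.
Let `n → ∞`, `θ = ε`, `ε → 0`: `lim P v_n y = 1`. So `v = lim v_n` satisfies `v = P v` everywhere,
`v ≤ 1`, `v y = 1`, hence `v = 1` on everything that is reachable from `y`. -/
def P_REC : Prop := ∀ (X S : Type) [Fintype S] [Nonempty S] (mx : X → S → X) (inv : S → S)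
  (_ : ∀ s, inv (inv s) = s)
  (_ : ∀ x s, mx (mx x s) (inv s) = x) (_ : ∀ x y, ∃ (c : ℕ → S) (k : ℕ), pth mx x c k = y) (y : X)
  (_ : ∀ ε : ℝ, 0 < ε → ∃ f : X → ℝ, f y = 1 ∧ (∀ x, 0 ≤ f x) ∧ (∀ x, f x ≤ 1) ∧
    (Function.support f).Finite ∧ ∀ A : Finset X, ∑ x ∈ A, ∑ s, (f x - f (mx x s)) ^ 2 ≤ ε) (x : X),
  Tendsto (fun n => hit mx y n x) atTop (𝓝 1)

/-- PIECE WLK: `hit` is the hitting probability, and long lived particles hit.
(a) `mlaw S {c | ∃ k ≤ n, pth mx x c k = y} = ENNReal.ofReal (hit mx y n x)`: split off the first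
coordinate (the map `(s, c) ↦ (s, c 0, c 1, …)` maps `unif S × mlaw S` to `mlaw S` by
`Measure.eq_infinitePi`). (b) The events `{Hits mx t x · y}`, `t ∈ ℕ`, increase to
`{∃ k, pth mx x c.2 k = y}`, which has probability one if `hit mx y n x → 1`. -/
def P_WLK : Prop := ∀ (X S : Type) [Fintype S] [Nonempty S] [MeasurableSpace S]
  [DiscreteMeasurableSpace S] (mx : X → S → X) (x y : X),
  Tendsto (fun n => hit mx y n x) atTop (𝓝 1) → ∀ δ : ℝ≥0∞, 0 < δ →
    ∃ t0 : ℝ, ∀ t ≥ t0, plaw S {c | ¬ Hits mx t x c y} ≤ δ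

/-- PIECE BLK: the block argument on `ℤ² × J`. Blocks `B_a` (`a ∈ ℤ²`): the `x` with
`(x.1.1 / N, x.1.2 / N) = a`, `N` with `exp (-lam N²)` small. `a` is good if some `x ∈ B_a` has a
particle, and for all `x ∈ B_a` with a particle, particle number `0` of `x` hits all vertices of
`B_{a+(1,0)}` and `B_{a+(0,1)}` before time `t`. By translation invariance and `hw`, for `t` large
every block is bad with probability at most `1/884101250`; different blocks are independent. Use
`Pool.Agent.H592F.fail_prob` and `Pool.Agent.H592F.perc_det` (imports `Pool.Agent.H592F.OrientProb`;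
see `finIndep_of_blocks` in `Pool/Agent/H592F/Prob.lean` for `FinIndep`) with
`ξ a = (block a + (1,0) is bad)` for `a ≠ (-1,0)` and `ξ (-1,0) = false`; `Wet` sites have
coordinates `≥ 0`. The root `o = ((0,0), j)` is in block `0`, on which the failure event does not
depend; by RES it is independent of: `o` has a particle, and particle `0` of `o` hits all vertices of
`B_{(1,0)}`. On both events all vertices of the blocks `v + (1,0)`, `v` wet, are visited. -/
def P_BLK : Prop := ∀ (J S : Type) [Fintype J] [Nonempty J] [Fintype S] [Nonempty S]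
  [MeasurableSpace S] [DiscreteMeasurableSpace S] (n : J → S → J) (c : J → S → ℤ × ℤ)
  (_ : ∀ (x y : (ℤ × ℤ) × J) (δ : ℝ≥0∞), 0 < δ →
    ∃ t0 : ℝ, ∀ t ≥ t0, plaw S {p | ¬ Hits (mvp n c) t x p y} ≤ δ)
  (lam : ℝ≥0) (_ : 0 < lam) (j : J),
  ∃ t0 : ℝ, ∀ t ≥ t0, 0 < law ((ℤ × ℤ) × J) S lam (Surv (mvp n c) t (0, j))

/-- PIECE GRP: the covering `φ g = (f (g * τ [g]⁻¹), [g])`, where `[g]` is the class of `g` in
`J = Quotient (QuotientGroup.rightRel H)` and `τ = Quotient.out`;
`n i s = [τ i * s]`, `c i s = f (τ i * s * (τ [τ i * s])⁻¹)`. It is surjective since `f` is. -/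
def P_GRP : Prop := ∀ (Γ : Type) [Group Γ] (H : Subgroup Γ) (_ : H.FiniteIndex)
  (f : H →* Multiplicative (ℤ × ℤ)) (_ : Function.Surjective f) (S : Finset Γ)
  (_ : ∀ s ∈ S, s⁻¹ ∈ S) (_ : Subgroup.closure (S : Set Γ) = ⊤),
  ∃ (J : Type) (_ : Fintype J) (n : J → S → J) (c : J → S → ℤ × ℤ) (φ : Γ → (ℤ × ℤ) × J) (j : J),
    φ 1 = (0, j) ∧ (∀ g (s : S), φ (g * s) = mvp n c (φ g) s) ∧
    (∀ x y, ∃ (q : ℕ → S) (k : ℕ), pth (mvp n c) x q k = y) ∧
    ∃ inv : S → S, (∀ s, inv (inv s) = s) ∧ (∀ x s, mvp n c (mvp n c x s) (inv s) = x)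

/-- PIECE FIN. `RECZ`: CAP → REC → WLK → hypothesis of BLK for the moves of GRP: for `y = (z, j)` take
`f (z', i) = F (z' - z)` with `L` a bound for all `|c i s|` and `ε / (|J| |S|)`. -/
def P_RECZ : Prop := ∀ (J S : Type) [Fintype J] [Fintype S] [Nonempty S]
  [MeasurableSpace S] [DiscreteMeasurableSpace S] (n : J → S → J) (c : J → S → ℤ × ℤ) (inv : S → S)
  (_ : ∀ s, inv (inv s) = s)
  (_ : ∀ x s, mvp n c (mvp n c x s) (inv s) = x)
  (_ : ∀ x y, ∃ (q : ℕ → S) (k : ℕ), pth (mvp n c) x q k = y)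
  (x y : (ℤ × ℤ) × J) (δ : ℝ≥0∞), 0 < δ →
    ∃ t0 : ℝ, ∀ t ≥ t0, plaw S {p | ¬ Hits (mvp n c) t x p y} ≤ δ

/-- the critical lifetime of the frog model on the Cayley graph of `(Γ, S)` -/
noncomputable def tc (Γ : Type) [Group Γ] (S : Finset Γ) [Nonempty S] [MeasurableSpace S]
    (lam : ℝ≥0) : ℝ≥0∞ :=
  sSup (ENNReal.ofReal '' {t : ℝ | 0 ≤ t ∧
    law Γ S lam (Surv (fun (g : Γ) (s : S) => g * (s : Γ)) t 1) = 0})

/-- the main statement -/
def Main : Prop := ∀ (Γ : Type) [Group Γ] (H : Subgroup Γ) (_ : H.FiniteIndex)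
  (f : H →* Multiplicative (ℤ × ℤ)) (_ : Function.Surjective f) (S : Finset Γ) [Nonempty S]
  [MeasurableSpace S] [DiscreteMeasurableSpace S]
  (_ : ∀ s ∈ S, s⁻¹ ∈ S) (_ : Subgroup.closure (S : Set Γ) = ⊤) (lam : ℝ≥0) (_ : 0 < lam),
  tc Γ S lam < ⊤

end Pool.Agent.W2helper75.FD
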