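import Pool.Agent.W2helper75.FD.Stm2

/-!
# Project FD, part 3: all finitely generated elementary amenable groups

`H ≤ Γ` has finite index, `h : Γ → ℤ` is a height with `h (x g) = h x + h g` for `x ∈ H`, and
`b g ≥ 0` is a displacement: think of `H` acting by similarities of ratio `θ ^ h x` on a metric
space with base point `o`, and `b x = dist (x o) o` for `x ∈ H`. `M = {x ∈ H : h x ≥ 0, x maps the
ball of radius r at o into itself}` is a submonoid, and `x M`, `y M` are disjoint unless the balls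
of `x` and `y` meet.
-/

set_option autoImplicit false

open MeasureTheory ProbabilityTheory Filter Topology
open scoped ENNReal NNReal

namespace Pool.Agent.W2helper75.FD

/-! ## Systems -/

/-- heights and displacements on the subgroup `H` -/
structure Loc {Γ : Type} [Group Γ] (H : Subgroup Γ) (h : Γ → ℤ) (b : Γ → ℝ) (θ : ℝ) (t : Γ) :
    Prop where
  θ0 : 0 < θ
  θ1 : θ < 1
  h_mul : ∀ x ∈ H, ∀ y ∈ H, h (x * y) = h x + h y
  b_mul : ∀ x ∈ H, ∀ y ∈ H, b (x * y) ≤ b x + θ ^ h x * b y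
  b_nonneg : ∀ x ∈ H, 0 ≤ b x
  b_one : b 1 = 0
  b_inv : ∀ x ∈ H, b x⁻¹ ≤ θ ^ (-h x) * b x
  t_mem : t ∈ H
  ht : h t = 1
  bt : b t = 0

/-- heights and displacements on `Γ` -/
structure Sys {Γ : Type} [Group Γ] (S : Finset Γ) (H : Subgroup Γ) (h : Γ → ℤ) (b : Γ → ℝ)
    (θ : ℝ) (D : ℕ) (t : Γ) : Prop where
  fin : H.FiniteIndex
  sym : ∀ s ∈ S, s⁻¹ ∈ S
  gen : Subgroup.closure (S : Set Γ) = ⊤
  θ0 : 0 < θ
  θ1 : θ < 1
  h_mul : ∀ x ∈ H, ∀ g, h (x * g) = h x + h g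
  b_mul : ∀ x ∈ H, ∀ g, b (x * g) ≤ b x + θ ^ h x * b g
  b_nonneg : ∀ g, 0 ≤ b g
  b_one : b 1 = 0
  b_inv : ∀ x ∈ H, b x⁻¹ ≤ θ ^ (-h x) * b x
  t_mem : t ∈ H
  ht : h t = 1
  bt : b t = 0
  D1 : 1 ≤ D
  h_step : ∀ g, ∀ s ∈ S, |h (g * s) - h g| ≤ (D : ℤ)
  b_step : ∀ g, ∀ s ∈ S, b (g * s) ≤ b g + D * θ ^ h g

/-- PIECE EXT: a system on `H` extends to `Γ`. Choose for each right coset `H g` a representative;
`g = ρ g · r`, `ρ g ∈ H`, `ρ (x g) = x ρ g` for `x ∈ H`, `ρ x = x` for `x ∈ H` (representative `1` of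
`H`), `h' g = h (ρ g)`, `b' g = b (ρ g)`. For `s ∈ S`, `(ρ g)⁻¹ ρ (g s) ∈ H` depends only on `H g` and `s`:
finitely many values `σ`; `h' (g s) = h' g + h σ`, `b' (g s) ≤ b' g + θ^{h' g} b σ`. -/
def P_EXT : Prop := ∀ (Γ : Type) [Group Γ] (S : Finset Γ) (H : Subgroup Γ) (h : Γ → ℤ) (b : Γ → ℝ)
  (θ : ℝ) (t : Γ), H.FiniteIndex → (∀ s ∈ S, s⁻¹ ∈ S) → Subgroup.closure (S : Set Γ) = ⊤ →
  Loc H h b θ t → ∃ (h' : Γ → ℤ) (b' : Γ → ℝ) (D : ℕ), Sys S H h' b' θ D t ∧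
    (∀ x ∈ H, h' x = h x) ∧ ∀ x ∈ H, b' x = b x

/-- the monoid -/
def MM {Γ : Type} [Group Γ] (H : Subgroup Γ) (h : Γ → ℤ) (b : Γ → ℝ) (θ r : ℝ) : Set Γ :=
  {x | x ∈ H ∧ 0 ≤ h x ∧ b x ≤ r * (1 - θ ^ h x)}

/-- the window -/
def MW {Γ : Type} [Group Γ] (H : Subgroup Γ) (h : Γ → ℤ) (b : Γ → ℝ) (R : ℝ) : Set Γ :=
  {x | x ∈ H ∧ 0 ≤ h x ∧ b x ≤ R}

/-- PIECE MON (small): `M` is a monoid, `y M`, `z M` meet only if `y⁻¹ z` or `z⁻¹ y` is in the window of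
radius `2 r`. With `p = y⁻¹ w`, `q = z⁻¹ w`: `y⁻¹ z = p q⁻¹`; if `h p ≥ h q` then
`b (p q⁻¹) ≤ b p + θ^{h p} θ^{-h q} b q ≤ 2 r`. -/
def P_MON : Prop := ∀ (Γ : Type) [Group Γ] (S : Finset Γ) (H : Subgroup Γ) (h : Γ → ℤ) (b : Γ → ℝ)
  (θ : ℝ) (D : ℕ) (t : Γ), Sys S H h b θ D t → ∀ r : ℝ, 0 ≤ r →
  1 ∈ MM H h b θ r ∧ (∀ x ∈ MM H h b θ r, ∀ y ∈ MM H h b θ r, x * y ∈ MM H h b θ r) ∧
  MM H h b θ r ⊆ MW H h b (2 * r) ∧
  ∀ y z w : Γ, y⁻¹ * w ∈ MM H h b θ r → z⁻¹ * w ∈ MM H h b θ r →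
    y⁻¹ * z ∈ MW H h b (2 * r) ∨ z⁻¹ * y ∈ MW H h b (2 * r)

/-! ## Green functions -/

/-- PIECE TRN3: `TRN` with a finite set `Z` of starting points; `C` depends only on the words. Same
proof with `g = ∑_{k < n} P^k 1_Z`, `D ≤ 2 |S| ∑_{z ∈ Z} g z`, and `a_k` = average of `g` over the `2^k |Z|`
points `vtx z u` (all distinct). Note that `vtx mx z w u = vtx mx z' w u'` is excluded also for
`z ≠ z'`. -/
def P_TRN3 : Prop := ∀ (X S : Type) [Fintype S] [Nonempty S] (mx : X → S → X) (inv : S → S)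
  (_ : ∀ s, inv (inv s) = s) (_ : ∀ x s, mx (mx x s) (inv s) = x) (w : Bool → List S),
  ∃ C : ℝ, 0 ≤ C ∧ ∀ Z : Finset X, (∀ z ∈ Z, ∀ z' ∈ Z, ∀ u u' : List Bool, u.length = u'.length →
    vtx mx z w u = vtx mx z' w u' → u = u' ∧ z = z') →
  ∀ n : ℕ, ∑ z ∈ Z, ∑ z' ∈ Z, ∑ k ∈ Finset.range n, qq mx z' k z ≤ C * Z.card

/-- the walk killed outside `A`: `qk mx A o k x` is the probability that the walk started at `x` is
at `o` after `k` steps and is in `A` at the times `0, …, k` -/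
noncomputable def qk {X S : Type} [Fintype S] (mx : X → S → X) (A : Set X) (o : X) : ℕ → X → ℝ
  | 0, x => by classical exact if x = o ∧ x ∈ A then 1 else 0
  | k + 1, x => by
    classical exact if x ∈ A then (∑ s, qk mx A o k (mx x s)) / (Fintype.card S : ℝ) else 0

/-- PIECE GRN: killed Green function. `g = ∑_{k<n} qk k` (finite support in `A`), `g x - P g x =
1_o - qk n x` on `A`, so `D = ∑_{x, s} (g x - g (mx x s))² ≤ 2 |S| g o`; along the list `l` from `o` to a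
point outside `A` every difference is `≤ √D`, so `g o ≤ |l| √(2 |S| g o)`. For general `x`:
`g_n x ≤ g_n o` by induction on `n` (`g_{n+1} x` is `0` or the average of the `g_n (mx x s)` for
`x ≠ o`). -/
def P_GRN : Prop := ∀ (X S : Type) [Fintype S] [Nonempty S] (mx : X → S → X) (inv : S → S)
  (_ : ∀ s, inv (inv s) = s) (_ : ∀ x s, mx (mx x s) (inv s) = x) (A : Set X) (o : X)
  (l : List S) (_ : run mx o l ∉ A) (n : ℕ) (x : X),
  ∑ k ∈ Finset.range n, qk mx A o k x ≤ 2 * (Fintype.card S : ℝ) * (l.length : ℝ) ^ 2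

/-! ## The walk -/

/-- the sum of `θ ^ height` until the first time the height is less than `l` is `O (θ ^ l)` -/
def SumC {Γ : Type} [Group Γ] (S : Finset Γ) [Nonempty S] [MeasurableSpace S] (h : Γ → ℤ)
    (θ : ℝ) : Prop := ∃ C : ℝ, 0 ≤ C ∧ ∀ (g : Γ) (l : ℤ),
  ∫⁻ c : ℕ → S, ∑' k : ℕ, (open Classical in if ∀ j ≤ k, l ≤ h (g * pos c j) then
    ENNReal.ofReal (θ ^ h (g * pos c k)) else 0) ∂(mlaw S) ≤ ENNReal.ofReal (C * θ ^ l)

/-- the heights are unbounded below -/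
def OscC {Γ : Type} [Group Γ] (S : Finset Γ) [Nonempty S] [MeasurableSpace S] (h : Γ → ℤ) :
    Prop := ∀ (g : Γ) (K : ℤ), mlaw S {c | ∃ n, h (g * pos c n) ≤ -K} = 1

/-- the walk is rarely in a window of `H` at height zero -/
def Tail0 {Γ : Type} [Group Γ] (S : Finset Γ) [Nonempty S] [MeasurableSpace S] (H : Subgroup Γ)
    (h : Γ → ℤ) (b : Γ → ℝ) : Prop := ∀ R : ℝ,
  ∑' n : ℕ, mlaw S {c | pos c n ∈ H ∧ h (pos c n) = 0 ∧ b (pos c n) ≤ R} ≠ ⊤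

/-- the walk is rarely in a window -/
def WinC {Γ : Type} [Group Γ] (S : Finset Γ) [Nonempty S] [MeasurableSpace S]
    (h : Γ → ℤ) (b : Γ → ℝ) : Prop := ∀ (L : ℤ) (R : ℝ),
  ∑' n : ℕ, mlaw S {c | 0 ≤ h (pos c n) ∧ h (pos c n) < L ∧ b (pos c n) ≤ R} ≠ ⊤

/-- the walk is finally outside of the window -/
def FinC {Γ : Type} [Group Γ] (S : Finset Γ) [Nonempty S] [MeasurableSpace S] (H : Subgroup Γ)
    (h : Γ → ℤ) (b : Γ → ℝ) : Prop := ∀ (R : ℝ) (ε : ℝ≥0∞), ε ≠ 0 →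
  ∃ k : ℕ, mlaw S {c | ∃ n, k ≤ n ∧ pos c n ∈ MW H h b R} ≤ ε

/-- PIECE OSC3 (from REC, WLK; like `Pool.Agent.W2helper66.FD.Osc`): `X = N\Γ =
Quotient (QuotientGroup.rightRel N)`, `N = {x ∈ H : h x = 0}`, `mx [g] s = [g s]`: symmetric,
irreducible; `h` is defined on `X` and has finite level sets (`[g]` is determined by `H g` and `h g`);
the cutoffs `max 0 (1 - |h - h₀|/R)` have energy `O(1/R)`; so `[t^{-K}]` is hit almost surely. -/
def P_OSC3 : Prop := ∀ (Γ : Type) [Group Γ] (S : Finset Γ) [Nonempty S] [MeasurableSpace S]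
  [DiscreteMeasurableSpace S] (H : Subgroup Γ) (h : Γ → ℤ) (b : Γ → ℝ) (θ : ℝ) (D : ℕ) (t : Γ),
  Sys S H h b θ D t → OscC S h

/-- PIECE SUM (from GRN): `X`, `N` as in OSC3, `A = {[x] : h x ≥ l}`. There are at most `[Γ : H]` points
`[y]` of `X` with `h y = m`, and for each of them a word of length `≤ C₁ (m - l + 1)` leading from `y` to
a point of height `< l` (a word `v` with `y v ∈ H` depending on `H y` only, then words for `t⁻¹`). The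
probability of `[g pos k] = [y]` and heights `≥ l` up to time `k` is `qk mx A [y] k [g]`. So the integral is
at most `∑_{m ≥ l} θ^m [Γ:H] 2 |S| C₁² (m - l + 1)² = C θ^l`. -/
def P_SUM : Prop := ∀ (Γ : Type) [Group Γ] (S : Finset Γ) [Nonempty S] [MeasurableSpace S]
  [DiscreteMeasurableSpace S] (H : Subgroup Γ) (h : Γ → ℤ) (b : Γ → ℝ) (θ : ℝ) (D : ℕ) (t : Γ),
  Sys S H h b θ D t → SumC S h θ

/-- PIECE WIN: for `g` with `0 ≤ h g < L` there is a word `v` from a finite list with `g v ∈ H`,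
`h (g v) = 0` (a word with `g v' ∈ H` depending on `H g`, then a power of `t`), and
`b (g v) ≤ b g + C`. So `P(pos n ∈ window) ≤ ∑_v |S|^{|v|} P(pos (n + |v|) ∈ window of H at height 0)`. -/
def P_WIN : Prop := ∀ (Γ : Type) [Group Γ] (S : Finset Γ) [Nonempty S] [MeasurableSpace S]
  [DiscreteMeasurableSpace S] (H : Subgroup Γ) (h : Γ → ℤ) (b : Γ → ℝ) (θ : ℝ) (D : ℕ) (t : Γ),
  Sys S H h b θ D t → Tail0 S H h b → WinC S h b

/-- PIECE FIN3: descents. Let `x` be in the window `MW R` and `T` the first time with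
`h (x pos T) < D`; then `T < ∞` a.s. (`OscC`), `h (x pos T) ≥ 0` (steps are at most `D`), and
`b (x pos T) ≤ R + D ∑_{k < T} θ^{h (x pos k)}`, where the sum has mean `≤ C θ^D ≤ C` (`SumC`, `l = D`), so with
probability `≥ 1/2` at time `T` the walk is in `{0 ≤ h < D, b ≤ R + 2 C D}`. By the Markov property at the
first `n ≥ k` with `pos n ∈ MW R`: `P(∃ n ≥ k, pos n ∈ MW R) ≤ 2 ∑_{n ≥ k} P(0 ≤ h (pos n) < D,
b (pos n) ≤ R + 2 C D)`, which tends to `0` by `WinC`. -/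
def P_FIN3 : Prop := ∀ (Γ : Type) [Group Γ] (S : Finset Γ) [Nonempty S] [MeasurableSpace S]
  [DiscreteMeasurableSpace S] (H : Subgroup Γ) (h : Γ → ℤ) (b : Γ → ℝ) (θ : ℝ) (D : ℕ) (t : Γ),
  Sys S H h b θ D t → SumC S h θ → OscC S h → WinC S h b → FinC S H h b

/-- PIECE NR3: with positive probability the walk never returns to the window. Let `w` be a word for
`t⁻¹`, `P` the maximal height of its prefixes. Along `w^m` (positions `t^{-i} p`, `p` prefix of `w`) the last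
position in `H` with height `≥ 0` is some `g₁ = t^{-i} p`, `i ≤ P`: finitely many possibilities (it is
`1` at time `0` at the latest), so `b g₁ ≤ C₁`. The rest of the path, translated by `g₁⁻¹`, is a path from
`1` to `x₁ = g₁⁻¹ t^{-m} ∈ H` whose later positions in `H` have negative height; `x₁⁻¹ = t^m g₁`, so
`b x₁⁻¹ ≤ θ^m C₁ ≤ C₁` and `h x₁ ≤ -m`. Take `k` with `P(∃ n ≥ k, pos n ∈ MW (C₁ + R)) ≤ 1/2` (FinC): there is a
word `u` of length `k` with end point `g₀` such that from `g₀` the walk avoids `MW (C₁ + R)` at all times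
`n ≥ 0` with positive probability. For `m` large all positions `x₁ (prefix of u)` have negative
height, and `x₁ g` in `MW R` implies `g` in `MW (C₁ + R)` (`g = x₁⁻¹ (x₁ g)`). So with positive
probability the walk from `1` follows the path to `x₁`, then `u`, and then never enters `MW R`. -/
def P_NR3 : Prop := ∀ (Γ : Type) [Group Γ] (S : Finset Γ) [Nonempty S] [MeasurableSpace S]
  [DiscreteMeasurableSpace S] (H : Subgroup Γ) (h : Γ → ℤ) (b : Γ → ℝ) (θ : ℝ) (D : ℕ) (t : Γ),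
  Sys S H h b θ D t → FinC S H h b → ∀ R : ℝ,
  mlaw S {c | ∀ n, 1 ≤ n → pos c n ∉ MW H h b R} ≠ 0

/-- PIECE ZO: zero-one law. If `A` has conditional probability at least `δ > 0` given every initial
word then it has probability one: `δ μ(E) ≤ μ(A ∩ E)` for cylinders `E`, hence for all measurable `E`
(finite disjoint unions, monotone classes / approximation), and `E = Aᶜ`. -/
def P_ZO : Prop := ∀ (S : Type) [Fintype S] [Nonempty S] [MeasurableSpace S]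
  [DiscreteMeasurableSpace S] (A : Set (ℕ → S)) (_ : MeasurableSet A) (δ : ℝ≥0∞) (_ : δ ≠ 0)
  (_ : ∀ (k : ℕ) (w : ℕ → S), δ ≤ mlaw S {d | (fun i => if i < k then w i else d (i - k)) ∈ A}),
  mlaw S A = 1

/-- PIECE IO3 (ZO is a hypothesis of the proof): for `r` large the inverse of the walk is in `M`
infinitely often. Put `Good m = {x ∈ H : h x ≤ -m, b x ≤ r (1 - θ) θ^{h x}}`, `m ≥ 1`; for `x ∈ Good m`,
`x⁻¹ ∈ M` (`b x⁻¹ ≤ θ^{-h x} b x ≤ r (1-θ)`). `A = ⋂_m {∃ n, pos n ∈ Good m}`. Claim: from every `g` and for all large `m`,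
the walk visits `Good m` with probability at least `δ` (then ZO gives `P(A) = 1`, and heights `→ -∞` give
infinitely many `n`). Let `T` be the first time with `h < -m'`, `m' = m + C`; by `SumC` with `l = -m'` and
Markov, with probability `≥ 1/2`: `b ≤ b g + 2 C D θ^{-m'} ≤ (2 C D + 1) θ^{-m'}` at time `T` (`m'` large). Then
a word `v` (depending on the coset, bounded length) leads to `H`; it changes `h` by `O(1)` and `b` by
`O(θ^{-m'})`. So `b ≤ C₄ θ^h` at the end; `r (1 - θ) ≥ C₄`. -/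
def P_IO3 : Prop := ∀ (Γ : Type) [Group Γ] (S : Finset Γ) [Nonempty S] [MeasurableSpace S]
  [DiscreteMeasurableSpace S] (H : Subgroup Γ) (h : Γ → ℤ) (b : Γ → ℝ) (θ : ℝ) (D : ℕ) (t : Γ),
  Sys S H h b θ D t → SumC S h θ → OscC S h → ∃ r : ℝ, 0 ≤ r ∧
  mlaw S {c | ∃ᶠ n in atTop, (pos c n)⁻¹ ∈ MM H h b θ r} = 1

/-! ## The criterion -/

/-- special times -/
def Spec3 {Γ : Type} [Group Γ] {S : Finset Γ} (M M' : Set Γ) (N : ℕ) (c : ℕ → S) (n : ℕ) : Prop :=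
  1 ≤ n ∧ n ≤ N ∧ pos c n ∈ M ∧ ∀ k ≤ N, k ≠ n → (pos c n)⁻¹ * pos c k ∉ M'

/-- PIECE SPC3 (helper75) -/
def P_SPC3 : Prop := ∀ (Γ : Type) [Group Γ] (S : Finset Γ) [Nonempty S] [MeasurableSpace S]
  [DiscreteMeasurableSpace S] (_ : ∀ s ∈ S, s⁻¹ ∈ S) (M M' : Set Γ)
  (_ : mlaw S {c | ∀ n, 1 ≤ n → pos c n ∉ M'} ≠ 0)
  (_ : mlaw S {c | ∃ᶠ n in atTop, (pos c n)⁻¹ ∈ M} = 1) (A : ℝ≥0∞) (_ : A ≠ ⊤),
  ∃ N : ℕ, A ≤ ∑ n ∈ Finset.range (N + 1), mlaw S {c | Spec3 M M' N c n}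

/-- PIECE SRV3 (GWS, OFF are hypotheses of the proof; same as SRV of part 2, see
`Pool.Agent.W2helper71.FD.Srv`): children of `g` are `g · pos n`, `n` special for the moves of particle
`0`; cones `g M`; two special positions have disjoint cones by `hdis`, and `(pos n)⁻¹ ∉ M` by `k = 0`. -/
def P_SRV3 : Prop := ∀ (Γ : Type) [Group Γ] [Countable Γ] (S : Finset Γ) [Nonempty S]
  [MeasurableSpace S] [DiscreteMeasurableSpace S] (M M' : Set Γ) (_ : (1 : Γ) ∈ M)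
  (_ : ∀ x ∈ M, ∀ y ∈ M, x * y ∈ M) (_ : M ⊆ M')
  (_ : ∀ y z w : Γ, y⁻¹ * w ∈ M → z⁻¹ * w ∈ M → y⁻¹ * z ∈ M' ∨ z⁻¹ * y ∈ M')
  (_ : ∀ A : ℝ≥0∞, A ≠ ⊤ → ∃ N : ℕ,
    A ≤ ∑ n ∈ Finset.range (N + 1), mlaw S {c | Spec3 M M' N c n})
  (lam : ℝ≥0) (_ : 0 < lam),
  ∃ t0 : ℝ, ∀ t ≥ t0, 0 < law Γ S lam (Surv (mg S) t 1)

/-! ## The two kinds of systems -/

/-- PIECE TLB (from TRN, QQ): the first half of the proof of TAIL in `Pool.Agent.W2helper66.FD.Tail`. -/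
def P_TLB : Prop := ∀ (Γ : Type) [Group Γ] (S : Finset Γ) [Nonempty S] [MeasurableSpace S]
  [DiscreteMeasurableSpace S] (_ : ∀ s ∈ S, s⁻¹ ∈ S) (_ : Subgroup.closure (S : Set Γ) = ⊤)
  (B : Subgroup Γ) (t b : Γ) (_ : ∀ x ∈ B, t * x * t⁻¹ ∈ B) (_ : b ∈ B) (_ : t⁻¹ * b * t ∉ B),
  ∑' n : ℕ, mlaw S {c | pos c n ∈ B} ≠ ⊤

/-- PIECE LCB (KER is a hypothesis of the proof): apply `P_KER` to the group `H` (finitely generated,
with a finite symmetric generating set `S'`): `h`, `B ≤ H`, `t`, `b₀` with `Asc`. `U = ⋃_j t^{-j} B t^j` is a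
subgroup normalised by `t`, and `x t^{-h x} ∈ U` for all `x ∈ H` (induction over words in `S'`, `gens`
with `m = 0`). `N x = sInf {(1/2)^n : n ∈ ℤ, x ∈ t^n B t^{-n}}` for `x ∈ U`: `N (x y) ≤ max (N x) (N y)`,
`N x⁻¹ = N x`, `N (t x t⁻¹) = N x / 2`, `N 1 = 0`. `b x = N (x t^{-h x})` for `x ∈ H`, `θ = 1/2`. If `h x = 0` and
`b x ≤ R < 2^j` then `x ∈ t^{-j} B t^j`. The functions are extended by `0` outside `H`. -/
def P_LCB : Prop := ∀ (Γ : Type) [Group Γ] (H : Subgroup Γ) (f : H →* Multiplicative ℤ),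
  Group.FG H → Function.Surjective f → ¬ f.ker.FG →
  ∃ (h : Γ → ℤ) (b : Γ → ℝ) (θ : ℝ) (t : Γ), Loc H h b θ t ∧
    ∀ R : ℝ, ∃ (B : Subgroup Γ) (u v : Γ), (∀ x ∈ B, u * x * u⁻¹ ∈ B) ∧ v ∈ B ∧ u⁻¹ * v * u ∉ B ∧
      ∀ x ∈ H, h x = 0 → b x ≤ R → x ∈ B

/-- `H` acts on `ℂ` by `x z = μ ^ h x * z + β x` -/
structure CDat {Γ : Type} [Group Γ] (H : Subgroup Γ) (h : Γ → ℤ) (β : Γ → ℂ) (μ : ℂ) (t : Γ) :
    Prop where
  μ0 : μ ≠ 0
  μ1 : ‖μ‖ < 1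
  h_mul : ∀ x ∈ H, ∀ y ∈ H, h (x * y) = h x + h y
  β_mul : ∀ x ∈ H, ∀ y ∈ H, β (x * y) = β x + μ ^ h x * β y
  t_mem : t ∈ H
  ht : h t = 1
  βt : β t = 0
  fg : ∃ (m : ℕ) (lam : Fin m → ℂ), (∀ i, ∃ x ∈ H, h x = 0 ∧ β x = lam i) ∧
    ∀ x ∈ H, h x = 0 → ∃ a : Fin m → ℤ, β x = ∑ i, a i * lam i
  ne : ∃ x ∈ H, h x = 0 ∧ β x ≠ 0

/-- integer combinations with coefficients at most `ρ` of absolute value at most `R` -/
def EE {m : ℕ} (lam : Fin m → ℂ) (ρ : ℕ) (R : ℝ) : Set ℂ :=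
  {z | ‖z‖ ≤ R ∧ ∃ a : Fin m → ℤ, (∀ i, |a i| ≤ (ρ : ℤ)) ∧ z = ∑ i, a i * lam i}

/-- PIECE DBL: pigeonhole with the cells `(⌊Re z/(R/4)⌋, ⌊Im z/(R/4)⌋, (⌊a_i/ρ⌋)_i)`; two elements of
`EE (2ρ) R` in the same cell (for chosen coefficients) differ by an element of `EE ρ (R/2)`. -/
def P_DBL : Prop := ∀ (m : ℕ) (lam : Fin m → ℂ) (R : ℝ), 0 < R → ∃ C : ℕ, ∀ ρ : ℕ, 1 ≤ ρ →
  (EE lam (2 * ρ) R).Finite ∧ (EE lam (2 * ρ) R).ncard ≤ C * (EE lam ρ (R / 2)).ncard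

/-- PIECE TLC (from TRN3, QQ, DBL): `N₀ = {x ∈ H : h x = 0, β x = 0}`, `X = N₀\Γ`, `Z = {[x] : x ∈ H, h x = 0,
β x ∈ EE (2ρ) R, x ↦ β x injective on Z}`. Words: `w false` for `τ⁻¹`, `w true` for `τ⁻¹ x₁`, `τ = t^q`, `|μ|^q ≤ 1/4`,
`x₁ = t^{-j} x₀ t^j` with `|β x₁| ≥ R`. For `z ∈ H`, `h z = 0`: `β (z · word) = β z + β word`, and
`β (vtx 1 u) = ∑_i u_i μ^{-q(i+1)} β x₁`, so different `u, u'` have values at distance `> 2 R`: the
injectivity hypothesis of TRN3. So `∑_{z ∈ Z} ∑_{k<n} P(z pos k ∈ ∪ Z) ≤ C |Z|`. If `ρ ≥ c_n` (all the values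
`β (pos k)`, `k < n`, `pos k ∈ H`, `h (pos k) = 0`, have coefficients `≤ c_n`), the left side is at least
`|EE ρ (R/2)| ∑_{k<n} P(pos k ∈ H, h (pos k) = 0, |β (pos k)| ≤ R/2)`. With DBL the sum is
`≤ C C'` for all `n`. (Every element of `EE` is `β x` for some `x ∈ H` with `h x = 0`, by `fg`.) -/
def P_TLC : Prop := ∀ (Γ : Type) [Group Γ] (S : Finset Γ) [Nonempty S] [MeasurableSpace S]
  [DiscreteMeasurableSpace S] (_ : ∀ s ∈ S, s⁻¹ ∈ S) (_ : Subgroup.closure (S : Set Γ) = ⊤)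
  (H : Subgroup Γ) (_ : H.FiniteIndex) (h : Γ → ℤ) (β : Γ → ℂ) (μ : ℂ) (t : Γ),
  CDat H h β μ t → Tail0 S H h fun g => ‖β g‖

end Pool.Agent.W2helper75.FD
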